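import Mathlib

/-! # ANB COND: conditional expectations on a finite probability space

`X` finite, `p : X → ℝ` positive weights, `q : X → ℤ` a partition (its classes are the sets of equal value).
`cl q a` = class of `a`, `cm p q a` = mass of the class, `cE p q f a` = conditional expectation of `f` given `q`.
Everything is elementary.
-/

set_option autoImplicit false

open Finset

noncomputable section

namespace Pool.Agent.ANB

variable {X : Type} [Fintype X]

/-- the class of `a` -/
def cl (q : X → ℤ) (a : X) : Finset X := univ.filter fun b => q b = q a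

/-- the mass of the class of `a` -/
def cm (p : X → ℝ) (q : X → ℤ) (a : X) : ℝ := ∑ b ∈ cl q a, p b

/-- conditional expectation -/
def cE (p : X → ℝ) (q : X → ℤ) (f : X → ℝ) (a : X) : ℝ := (∑ b ∈ cl q a, p b * f b) / cm p q a

/-- `q'` is finer than `q` -/
def Fine (q' q : X → ℤ) : Prop := ∀ a b, q' a = q' b → q a = q b

theorem mem_cl {q : X → ℤ} {a b : X} : b ∈ cl q a ↔ q b = q a := by simp [cl]

theorem self_mem_cl (q : X → ℤ) (a : X) : a ∈ cl q a := mem_cl.2 rfl

theorem cl_congr {q : X → ℤ} {a b : X} (h : q a = q b) : cl q a = cl q b := by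
  ext c; rw [mem_cl, mem_cl, h]

theorem cm_congr (p : X → ℝ) {q : X → ℤ} {a b : X} (h : q a = q b) : cm p q a = cm p q b := by
  unfold cm; rw [cl_congr h]

theorem cE_congr (p : X → ℝ) {q : X → ℤ} (f : X → ℝ) {a b : X} (h : q a = q b) :
    cE p q f a = cE p q f b := by
  unfold cE; rw [cl_congr h, cm_congr p h]

section pos

variable {p : X → ℝ} (hp : ∀ a, 0 < p a)

include hp

theorem cm_pos (q : X → ℤ) (a : X) : 0 < cm p q a :=
  Finset.sum_pos (fun b _ => hp b) ⟨a, self_mem_cl q a⟩

theorem cE_mul_cm (q : X → ℤ) (f : X → ℝ) (a : X) :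
    cE p q f a * cm p q a = ∑ b ∈ cl q a, p b * f b := by
  unfold cE
  exact div_mul_cancel₀ _ (cm_pos hp q a).ne'

theorem cE_eq_iff (q : X → ℤ) (f : X → ℝ) (a : X) (t : ℝ) :
    cE p q f a = t ↔ ∑ b ∈ cl q a, p b * f b = t * cm p q a := by
  unfold cE
  exact div_eq_iff (cm_pos hp q a).ne'

theorem cE_const (q : X → ℤ) (t : ℝ) (a : X) : cE p q (fun _ => t) a = t := by
  rw [cE_eq_iff hp]
  unfold cm
  rw [Finset.mul_sum]
  exact Finset.sum_congr rfl fun b _ => mul_comm _ _

theorem cE_mono (q : X → ℤ) {f g : X → ℝ} {a : X} (h : ∀ b ∈ cl q a, f b ≤ g b) :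
    cE p q f a ≤ cE p q g a := by
  unfold cE
  refine div_le_div_of_nonneg_right ?_ (cm_pos hp q a).le
  exact Finset.sum_le_sum fun b hb => mul_le_mul_of_nonneg_left (h b hb) (hp b).le

theorem cE_le (q : X → ℤ) {f : X → ℝ} {a : X} {t : ℝ} (h : ∀ b ∈ cl q a, f b ≤ t) :
    cE p q f a ≤ t := by
  have := cE_mono hp q (g := fun _ => t) h
  rwa [cE_const hp] at this

theorem le_cE (q : X → ℤ) {f : X → ℝ} {a : X} {t : ℝ} (h : ∀ b ∈ cl q a, t ≤ f b) :
    t ≤ cE p q f a := by
  have := cE_mono hp q (f := fun _ => t) h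
  rwa [cE_const hp] at this

theorem cE_nonneg (q : X → ℤ) {f : X → ℝ} {a : X} (h : ∀ b ∈ cl q a, 0 ≤ f b) :
    0 ≤ cE p q f a := le_cE hp q h

/-- the conditional expectation stays near a point when the function does -/
theorem abs_cE_sub_le (q : X → ℤ) {f : X → ℝ} {a : X} {t r : ℝ}
    (h : ∀ b ∈ cl q a, |f b - t| ≤ r) : |cE p q f a - t| ≤ r := by
  rw [abs_sub_le_iff]
  constructor
  · have := cE_le hp q (f := f) (a := a) (t := t + r) fun b hb => by
      have := abs_sub_le_iff.1 (h b hb); linarith [this.1]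
    linarith
  · have := le_cE hp q (f := f) (a := a) (t := t - r) fun b hb => by
      have := abs_sub_le_iff.1 (h b hb); linarith [this.2]
    linarith

/-- tower property -/
theorem cE_tower {q' q : X → ℤ} (hq : Fine q' q) (f : X → ℝ) (a : X) :
    cE p q (cE p q' f) a = cE p q f a := by
  classical
  unfold cE
  congr 1
  have h1 : ∀ b ∈ cl q a, p b * ((∑ c ∈ cl q' b, p c * f c) / cm p q' b) =
      ∑ c ∈ cl q a, if q' c = q' b then p b / cm p q' b * (p c * f c) else 0 := by
    intro b hb
    rw [← Finset.sum_filter]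
    have h2 : (cl q a).filter (fun c => q' c = q' b) = cl q' b := by
      ext c
      rw [Finset.mem_filter, mem_cl, mem_cl]
      constructor
      · exact fun h => h.2
      · intro h
        exact ⟨(hq c b h).trans (mem_cl.1 hb), h⟩
    rw [h2, ← Finset.mul_sum]
    ring
  rw [Finset.sum_congr rfl h1, Finset.sum_comm]
  refine Finset.sum_congr rfl fun c hc => ?_
  have h3 : ∀ b ∈ cl q a, (if q' c = q' b then p b / cm p q' b * (p c * f c) else 0) =
      (if q' b = q' c then p b else 0) * (p c * f c / cm p q' c) := by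
    intro b _
    by_cases h : q' c = q' b
    · rw [if_pos h, if_pos h.symm, cm_congr p h]
      ring
    · rw [if_neg h, if_neg fun h' => h h'.symm, zero_mul]
  rw [Finset.sum_congr rfl h3, ← Finset.sum_mul, ← Finset.sum_filter]
  have h2 : (cl q a).filter (fun b => q' b = q' c) = cl q' c := by
    ext b
    rw [Finset.mem_filter, mem_cl, mem_cl]
    constructor
    · exact fun h => h.2
    · intro h
      exact ⟨(hq b c h).trans (mem_cl.1 hc), h⟩
  rw [h2]
  have h4 := (cm_pos hp q' c).ne'
  change cm p q' c * (p c * f c / cm p q' c) = p c * f c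
  field_simp

end pos

theorem cE_add (p : X → ℝ) (q : X → ℤ) (f g : X → ℝ) (a : X) :
    cE p q (fun b => f b + g b) a = cE p q f a + cE p q g a := by
  unfold cE
  rw [← add_div, ← Finset.sum_add_distrib]
  congr 1
  exact Finset.sum_congr rfl fun b _ => mul_add _ _ _

theorem cE_sub (p : X → ℝ) (q : X → ℤ) (f g : X → ℝ) (a : X) :
    cE p q (fun b => f b - g b) a = cE p q f a - cE p q g a := by
  unfold cE
  rw [← sub_div, ← Finset.sum_sub_distrib]
  congr 1
  exact Finset.sum_congr rfl fun b _ => mul_sub _ _ _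

theorem cE_smul (p : X → ℝ) (q : X → ℤ) (t : ℝ) (f : X → ℝ) (a : X) :
    cE p q (fun b => t * f b) a = t * cE p q f a := by
  unfold cE
  rw [← mul_div_assoc, Finset.mul_sum]
  congr 1
  exact Finset.sum_congr rfl fun b _ => by ring

/-- functions of the class can be taken out -/
theorem cE_pull (p : X → ℝ) (q : X → ℤ) (g f : X → ℝ) (a : X) (hg : ∀ b ∈ cl q a, g b = g a) :
    cE p q (fun b => g b * f b) a = g a * cE p q f a := by
  rw [← cE_smul]
  unfold cE
  congr 1
  exact Finset.sum_congr rfl fun b hb => by simp only [hg b hb]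

/-- only the values on the class matter -/
theorem cE_congr_fun (p : X → ℝ) (q : X → ℤ) {f g : X → ℝ} {a : X}
    (h : ∀ b ∈ cl q a, f b = g b) : cE p q f a = cE p q g a := by
  unfold cE
  congr 1
  exact Finset.sum_congr rfl fun b hb => by rw [h b hb]

/-- conditional variance -/
def cV (p : X → ℝ) (q : X → ℤ) (f : X → ℝ) (a : X) : ℝ :=
  cE p q (fun b => (f b - cE p q f a) ^ 2) a

theorem cV_congr (p : X → ℝ) {q : X → ℤ} (f : X → ℝ) {a b : X} (h : q a = q b) :
    cV p q f a = cV p q f b := by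
  unfold cV
  rw [cE_congr p _ h, cE_congr p f h]

section pos2

variable {p : X → ℝ} (hp : ∀ a, 0 < p a)

include hp

theorem cV_eq (q : X → ℤ) (f : X → ℝ) (a : X) :
    cV p q f a = cE p q (fun b => f b ^ 2) a - cE p q f a ^ 2 := by
  unfold cV
  set m := cE p q f a with hm
  have h1 : (fun b => (f b - m) ^ 2) = fun b => (f b ^ 2 - 2 * m * f b) + m ^ 2 := by
    ext b; ring
  rw [h1, cE_add, cE_sub, cE_smul, cE_const hp, ← hm]
  ring

theorem cV_nonneg (q : X → ℤ) (f : X → ℝ) (a : X) : 0 ≤ cV p q f a :=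
  cE_nonneg hp q fun _ _ => sq_nonneg _

theorem cV_le (q : X → ℤ) {f : X → ℝ} {a : X} {r : ℝ}
    (h : ∀ b ∈ cl q a, ∀ c ∈ cl q a, |f b - f c| ≤ r) : cV p q f a ≤ r ^ 2 := by
  refine cE_le hp q fun b hb => ?_
  have h1 : |cE p q f a - f b| ≤ r := abs_cE_sub_le hp q fun c hc => h c hc b hb
  rw [abs_sub_comm] at h1
  exact sq_le_sq' (by linarith [neg_abs_le (f b - cE p q f a)])
    (le_trans (le_abs_self _) h1)

/-- the variance is the smallest mean square distance -/
theorem cV_le_center (q : X → ℤ) (f : X → ℝ) (a : X) (t : ℝ) :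
    cV p q f a ≤ cE p q (fun b => (f b - t) ^ 2) a := by
  rw [cV_eq hp]
  have h1 : (fun b => (f b - t) ^ 2) = fun b => (f b ^ 2 - 2 * t * f b) + t ^ 2 := by
    ext b; ring
  rw [h1, cE_add, cE_sub, cE_smul, cE_const hp]
  nlinarith [sq_nonneg (cE p q f a - t)]

/-- the increments of the conditional mean are centred -/
theorem cE_incr {q' q : X → ℤ} (hq : Fine q' q) (f : X → ℝ) (a : X) :
    cE p q (fun b => cE p q' f b - cE p q f a) a = 0 := by
  rw [cE_sub, cE_const hp, cE_tower hp hq, sub_self]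

/-- conservation of the variance -/
theorem cE_var {q' q : X → ℤ} (hq : Fine q' q) (f : X → ℝ) (a : X) :
    cE p q (fun b => (cE p q' f b - cE p q f a) ^ 2 + cV p q' f b) a = cV p q f a := by
  set m := cE p q f a with hm
  have h1 : (fun b => (cE p q' f b - m) ^ 2 + cV p q' f b) = fun b =>
      (cE p q' (fun c => f c ^ 2) b - 2 * m * cE p q' f b) + m ^ 2 := by
    ext b
    rw [cV_eq hp]
    ring
  rw [h1, cE_add, cE_sub, cE_smul, cE_const hp, cE_tower hp hq, cE_tower hp hq, cV_eq hp, ← hm]
  ring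

theorem cE_var' {q' q : X → ℤ} (hq : Fine q' q) (f : X → ℝ) (a : X) :
    cE p q (fun b => (cE p q' f b - cE p q f a) ^ 2) a =
      cE p q (fun b => cV p q f a - cV p q' f b) a := by
  have h1 := cE_var hp hq f a
  rw [cE_add] at h1
  rw [cE_sub, cE_const hp]
  linarith

end pos2

end Pool.Agent.ANB
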