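import Pool.Agent.ANM.GeoMix
import Pool.Agent.ANM.GeoTorus
import Pool.Agent.ANP.Prob

/-!
# ANB / Cover: random holes of small density

`pt W` are the points of `W` as pieces. `Fam d j` is an explicit family of sets with `j` elements,
with at most `card X * 2^(3j+1) * V^(4j)` members (`V` bounds the balls of radius one), such that
the pieces `pt W` have the chain property `CP d (pt W) 2 (2 j0)` as soon as `W` contains no member
of `Fam d j` for `j ≥ j0` (`cp_pt`). Hence, if the points are weak independently with probability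
at most `q`, `16 V^4 q ≤ 1`, the chain property fails with probability at most
`4 card X (8 V^4 q)^j0` (`Pr_cp`). `Pr_box`: density of the weak points in boxes.
-/

set_option autoImplicit false

namespace Pool.Agent.ANB

open Finset Pool.Agent.ANM

section det

variable {X : Type*} {d : X → X → ℕ} {W : Set X}

/-- The points of `W` as pieces. -/
def pt (W : Set X) (w : X) : Set X := {v | v = w ∧ w ∈ W}

lemma near_pt {w x : X} (h : Near d (pt W w) x) : w ∈ W ∧ d x w ≤ 1 := by
  obtain ⟨v, ⟨rfl, hv⟩, h1⟩ := h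
  exact ⟨hv, h1⟩

lemma near_pt_iff {w x : X} : Near d (pt W w) x ↔ w ∈ W ∧ d x w ≤ 1 :=
  ⟨near_pt, fun h => ⟨w, ⟨rfl, h.1⟩, h.2⟩⟩

lemma pcs_mem {x y : X} {l : List (Option X)} (hl : Ch d (pt W) x y l) :
    ∀ k ∈ pcs l, k ∈ W := by
  induction l generalizing x with
  | nil => simp [pcs]
  | cons o l ih =>
    cases o with
    | none =>
      obtain ⟨z, _, h2⟩ := hl
      exact ih h2
    | some k =>
      obtain ⟨z, h1, _, h3⟩ := hl
      intro k' hk'
      simp only [pcs, List.mem_cons] at hk'
      rcases hk' with rfl | hk'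
      · exact (near_pt h1).1
      · exact ih h3 k' hk'

lemma pt_dist (hd : NMet d) {x y : X} {l : List (Option X)} (hl : Ch d (pt W) x y l) :
    d x y ≤ paid l + 2 * (pcs l).length := by
  induction l generalizing x with
  | nil => simp only [Ch] at hl; subst hl; simp [hd.self]
  | cons o l ih =>
    cases o with
    | none =>
      obtain ⟨z, h1, h2⟩ := hl
      have h3 := ih h2
      have h4 := hd.tri x z y
      simp only [paid, pcs]
      omega
    | some k =>
      obtain ⟨z, h1, h2, h3⟩ := hl
      have h4 := ih h3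
      have h5 := hd.tri x k y
      have h6 := hd.tri k z y
      have h7 := (near_pt h1).2
      have h8 := (near_pt h2).2
      have h9 := hd.symm z k
      simp only [paid, pcs, List.length_cons]
      omega

lemma count_code (l : List (Option X)) :
    (l.map Option.isSome).count true = (pcs l).length ∧
      l.length = paid l + (pcs l).length := by
  induction l with
  | nil => simp [pcs, paid]
  | cons o l ih =>
    cases o with
    | none =>
      refine ⟨?_, ?_⟩
      · simpa [pcs] using ih.1
      · simp only [List.length_cons, paid, pcs, ih.2]; omega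
    | some k =>
      refine ⟨?_, ?_⟩
      · simpa [pcs] using ih.1
      · simp only [List.length_cons, paid, pcs, ih.2]; omega

variable [Fintype X] [DecidableEq X]

/-- The ball of radius one. -/
def bl (d : X → X → ℕ) (x : X) : Finset X := univ.filter fun y => d x y ≤ 1

/-- The sets of pieces of the chains with the pattern `m` which start at `x`. -/
def GG (d : X → X → ℕ) : List Bool → X → Finset (Finset X)
  | [], _ => {∅}
  | false :: m, x => (bl d x).biUnion fun z => GG d m z
  | true :: m, x => (bl d x).biUnion fun w => (bl d w).biUnion fun z => (GG d m z).image (insert w)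

lemma mem_GG (hd : NMet d) {x y : X} {l : List (Option X)} (hl : Ch d (pt W) x y l) :
    (pcs l).toFinset ∈ GG d (l.map Option.isSome) x := by
  induction l generalizing x with
  | nil => simp [pcs, GG]
  | cons o l ih =>
    cases o with
    | none =>
      obtain ⟨z, h1, h2⟩ := hl
      simp only [List.map_cons, Option.isSome_none, GG, mem_biUnion]
      exact ⟨z, by simpa [bl] using h1, ih h2⟩
    | some k =>
      obtain ⟨z, h1, h2, h3⟩ := hl
      simp only [List.map_cons, Option.isSome_some, GG, mem_biUnion, mem_image]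
      refine ⟨k, by simpa [bl] using (near_pt h1).2, z, ?_, (pcs l).toFinset, ih h3, ?_⟩
      · simpa [bl, hd.symm k z] using (near_pt h2).2
      · simp [pcs]

lemma card_GG {V : ℕ} (hV : ∀ x, (bl d x).card ≤ V) (m : List Bool) (x : X) :
    (GG d m x).card ≤ V ^ (m.length + m.count true) := by
  induction m generalizing x with
  | nil => simp [GG]
  | cons b m ih =>
    cases b with
    | false =>
      simp only [GG]
      calc _ ≤ ∑ z ∈ bl d x, (GG d m z).card := card_biUnion_le
        _ ≤ ∑ _z ∈ bl d x, V ^ (m.length + m.count true) := sum_le_sum fun z _ => ih z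
        _ = (bl d x).card * V ^ (m.length + m.count true) := by rw [sum_const, smul_eq_mul]
        _ ≤ V * V ^ (m.length + m.count true) := Nat.mul_le_mul_right _ (hV x)
        _ = _ := by
          rw [List.length_cons, List.count_cons_of_ne (by decide), ← pow_succ']
          congr 1
          omega
    | true =>
      simp only [GG]
      calc _ ≤ ∑ w ∈ bl d x, ((bl d w).biUnion fun z => (GG d m z).image (insert w)).card :=
            card_biUnion_le
        _ ≤ ∑ w ∈ bl d x, ∑ z ∈ bl d w, ((GG d m z).image (insert w)).card :=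
            sum_le_sum fun w _ => card_biUnion_le
        _ ≤ ∑ w ∈ bl d x, ∑ _z ∈ bl d w, V ^ (m.length + m.count true) :=
            sum_le_sum fun w _ => sum_le_sum fun z _ => card_image_le.trans (ih z)
        _ ≤ ∑ _w ∈ bl d x, V * V ^ (m.length + m.count true) := by
            refine sum_le_sum fun w _ => ?_
            rw [sum_const, smul_eq_mul]
            exact Nat.mul_le_mul_right _ (hV w)
        _ = (bl d x).card * (V * V ^ (m.length + m.count true)) := by rw [sum_const, smul_eq_mul]
        _ ≤ V * (V * V ^ (m.length + m.count true)) := Nat.mul_le_mul_right _ (hV x)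
        _ = _ := by
          rw [List.length_cons, List.count_cons_self, ← pow_succ', ← pow_succ']
          congr 1
          omega

/-- The family of the dangerous sets with `j` elements. -/
def Fam (d : X → X → ℕ) (j : ℕ) : Finset (Finset X) :=
  (univ : Finset X).biUnion fun x => (range (3 * j + 1)).biUnion fun T =>
    ((univ : Finset (Fin T → Bool)).filter fun m => (List.ofFn m).count true = j).biUnion fun m =>
      (GG d (List.ofFn m) x).filter fun F => F.card = j

lemma Fam_card_eq {j : ℕ} {F : Finset X} (h : F ∈ Fam d j) : F.card = j := by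
  simp only [Fam, mem_biUnion, mem_filter] at h
  obtain ⟨_, _, _, _, _, _, _, h⟩ := h
  exact h

lemma sum_two_pow (n : ℕ) : ∑ T ∈ range n, 2 ^ T ≤ 2 ^ n := by
  induction n with
  | zero => simp
  | succ n ih => rw [sum_range_succ, pow_succ]; omega

lemma Fam_card {V : ℕ} (hV1 : 1 ≤ V) (hV : ∀ x, (bl d x).card ≤ V) (j : ℕ) :
    (Fam d j).card ≤ Fintype.card X * (2 ^ (3 * j + 1) * V ^ (4 * j)) := by
  unfold Fam
  calc _ ≤ ∑ _x : X, (2 ^ (3 * j + 1) * V ^ (4 * j)) := by
        refine card_biUnion_le.trans (sum_le_sum fun x _ => ?_)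
        calc _ ≤ ∑ T ∈ range (3 * j + 1), 2 ^ T * V ^ (4 * j) := by
              refine card_biUnion_le.trans (sum_le_sum fun T hT => ?_)
              calc _ ≤ ∑ _m ∈ (univ : Finset (Fin T → Bool)).filter
                      (fun m => (List.ofFn m).count true = j), V ^ (4 * j) := by
                    refine card_biUnion_le.trans (sum_le_sum fun m hm => ?_)
                    refine (card_filter_le _ _).trans ((card_GG hV _ x).trans ?_)
                    rw [mem_filter] at hm
                    rw [mem_range] at hT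
                    refine Nat.pow_le_pow_right hV1 ?_
                    rw [hm.2, List.length_ofFn]
                    omega
                _ ≤ ∑ _m : Fin T → Bool, V ^ (4 * j) :=
                    sum_le_sum_of_subset_of_nonneg (filter_subset _ _) fun _ _ _ => Nat.zero_le _
                _ = _ := by simp
          _ = (∑ T ∈ range (3 * j + 1), 2 ^ T) * V ^ (4 * j) := by rw [sum_mul]
          _ ≤ _ := Nat.mul_le_mul_right _ (sum_two_pow _)
    _ = _ := by rw [sum_const, smul_eq_mul, card_univ]

/-- DETERMINISTIC PART: no dangerous set is contained in `W`. -/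
theorem cp_pt (hd : NMet d) {j0 : ℕ} (h : ∀ j ≥ j0, ∀ F ∈ Fam d j, ¬ (F : Set X) ⊆ W) :
    CP d (pt W) 2 (2 * j0) := by
  intro x y l hl
  obtain ⟨l', h1, h2, h3⟩ := exists_nodup hl
  have h4 := pt_dist hd h1
  by_cases hj : (pcs l').length < j0
  · omega
  by_cases hn : 2 * (pcs l').length ≤ paid l'
  · omega
  exfalso
  have h5 := count_code l'
  refine h (pcs l').length (by omega) (pcs l').toFinset ?_ ?_
  · simp only [Fam, mem_biUnion, mem_filter, mem_univ, true_and, mem_range]
    refine ⟨x, l'.length, by omega, fun i => (l'.map Option.isSome).get (i.cast (by simp)), ?_, ?_,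
      List.toFinset_card_of_nodup h2⟩
    all_goals
      have h6 : List.ofFn (fun i : Fin l'.length =>
          (l'.map Option.isSome).get (i.cast (by simp))) = l'.map Option.isSome := by
        apply List.ext_get
        · simp
        · intro n h7 h8
          simp
      rw [h6]
    · exact h5.1
    · exact mem_GG hd h1
  · intro k hk
    exact pcs_mem h1 k (by simpa using hk)

end det

section prob

open Pool.Agent.ANP

variable {Λ X : Type} [Fintype Λ] [DecidableEq Λ] [Fintype X] [DecidableEq X]
  {w : Λ → X → ℝ} {K : Λ → Finset X} {q : ℝ}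

/-- The weak sites of a configuration. -/
def WS (K : Λ → Finset X) (v : Λ → X) : Set Λ := {x | v x ∈ K x}

omit [DecidableEq X] in
/-- Product bound. -/
theorem Pr_sub (hw : IsLaw w) (hK : ∀ x, ∑ a ∈ K x, w x a ≤ q) (F : Finset Λ) :
    Pr w {v | (F : Set Λ) ⊆ WS K v} ≤ q ^ F.card := by
  classical
  have h1 : Pr w {v | (F : Set Λ) ⊆ WS K v} =
      ∑ v ∈ Fintype.piFinset fun x => if x ∈ F then K x else univ, ∏ x, w x (v x) := by
    unfold Pr wt
    refine sum_congr ?_ fun _ _ => rfl
    ext v
    rw [mem_filter, Fintype.mem_piFinset]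
    constructor
    · rintro ⟨_, h⟩ x
      split_ifs with hx
      · exact h (mem_coe.2 hx)
      · exact mem_univ _
    · intro h
      refine ⟨mem_univ _, fun x hx => ?_⟩
      have := h x
      rw [if_pos (mem_coe.1 hx)] at this
      exact this
  rw [h1, ← prod_univ_sum]
  have h2 : ∀ x, 0 ≤ ∑ a ∈ (if x ∈ F then K x else univ), w x a :=
    fun x => sum_nonneg fun a _ => hw.nonneg x a
  have h3 : ∀ x, ∑ a ∈ (if x ∈ F then K x else univ), w x a ≤ if x ∈ F then q else 1 := by
    intro x
    split_ifs
    · exact hK x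
    · exact (hw.sum_one x).le
  refine (prod_le_prod (fun x _ => h2 x) fun x _ => h3 x).trans ?_
  rw [prod_ite_mem, univ_inter, prod_const]

lemma geo_tail {r : ℝ} (h0 : 0 ≤ r) (h1 : r ≤ 1 / 2) (j0 n : ℕ) :
    ∑ j ∈ Ico j0 n, r ^ j ≤ 2 * r ^ j0 := by
  rw [sum_Ico_eq_sum_range]
  simp only [pow_add]
  rw [← mul_sum]
  have h2 : ∑ i ∈ range (n - j0), r ^ i ≤ ∑ i ∈ range (n - j0), (1 / 2 : ℝ) ^ i :=
    sum_le_sum fun i _ => pow_le_pow_left₀ h0 h1 i
  have h3 := sum_geometric_two_le (n - j0)
  have h4 : 0 ≤ r ^ j0 := pow_nonneg h0 _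
  nlinarith

/-- THE CHAIN PROPERTY OF THE WEAK SITES holds with large probability. -/
theorem Pr_cp (hw : IsLaw w) (hK : ∀ x, ∑ a ∈ K x, w x a ≤ q) (hq : 0 ≤ q) {d : Λ → Λ → ℕ}
    (hd : NMet d) {V : ℕ} (hV1 : 1 ≤ V) (hV : ∀ x, (bl d x).card ≤ V)
    (hqV : 16 * (V : ℝ) ^ 4 * q ≤ 1) (j0 : ℕ) :
    Pr w {v | ¬ CP d (pt (WS K v)) 2 (2 * j0)} ≤
      4 * Fintype.card Λ * (8 * (V : ℝ) ^ 4 * q) ^ j0 := by
  classical
  set r : ℝ := 8 * (V : ℝ) ^ 4 * q with hr
  have hr0 : 0 ≤ r := by positivity
  have hr1 : r ≤ 1 / 2 := by rw [hr]; linarith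
  have h1 : {v | ¬ CP d (pt (WS K v)) 2 (2 * j0)} ⊆
      ⋃ j ∈ Ico j0 (Fintype.card Λ + 1), ⋃ F ∈ Fam d j, {v | (F : Set Λ) ⊆ WS K v} := by
    intro v hv
    by_contra hc
    apply hv
    refine cp_pt hd fun j hj F hF hFW => hc ?_
    simp only [Set.mem_iUnion]
    have h2 : F.card ≤ Fintype.card Λ := card_le_univ F
    have h3 := Fam_card_eq hF
    exact ⟨j, mem_Ico.2 ⟨hj, by omega⟩, F, hF, hFW⟩
  calc Pr w {v | ¬ CP d (pt (WS K v)) 2 (2 * j0)} ≤ _ := Pr_mono hw h1
    _ ≤ ∑ j ∈ Ico j0 (Fintype.card Λ + 1), Pr w (⋃ F ∈ Fam d j, {v | (F : Set Λ) ⊆ WS K v}) :=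
        Pr_iUnion_le hw _ _
    _ ≤ ∑ j ∈ Ico j0 (Fintype.card Λ + 1), 2 * Fintype.card Λ * r ^ j := by
        refine sum_le_sum fun j _ => (Pr_iUnion_le hw _ _).trans ?_
        calc ∑ F ∈ Fam d j, Pr w {v | (F : Set Λ) ⊆ WS K v} ≤ ∑ _F ∈ Fam d j, q ^ j := by
              refine sum_le_sum fun F hF => ?_
              have := Pr_sub hw hK F
              rwa [Fam_card_eq hF] at this
          _ = (Fam d j).card * q ^ j := by rw [sum_const, nsmul_eq_mul]
          _ ≤ (Fintype.card Λ * (2 ^ (3 * j + 1) * V ^ (4 * j)) : ℝ) * q ^ j := by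
              refine mul_le_mul_of_nonneg_right ?_ (pow_nonneg hq _)
              exact_mod_cast Fam_card hV1 hV j
          _ = _ := by
              rw [hr, mul_pow, mul_pow, pow_succ, pow_mul, pow_mul]
              norm_num
              ring
    _ = 2 * Fintype.card Λ * ∑ j ∈ Ico j0 (Fintype.card Λ + 1), r ^ j := by rw [mul_sum]
    _ ≤ 2 * Fintype.card Λ * (2 * r ^ j0) := by
        exact mul_le_mul_of_nonneg_left (geo_tail hr0 hr1 _ _) (by positivity)
    _ = _ := by ring

/-- DENSITY of the weak sites in the sets `B ∈ 𝓑`. -/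
theorem Pr_box (hw : IsLaw w) (hK : ∀ x, ∑ a ∈ K x, w x a ≤ q) (hq : 0 ≤ q) {ι : Type}
    (s : Finset ι)
    (B : ι → Finset Λ) (n : ι → ℕ) :
    Pr w {v | ∃ i ∈ s, n i ≤ ((B i).filter fun x => v x ∈ K x).card} ≤
      ∑ i ∈ s, 2 ^ (B i).card * q ^ n i := by
  classical
  have h1 : {v | ∃ i ∈ s, n i ≤ ((B i).filter fun x => v x ∈ K x).card} ⊆
      ⋃ i ∈ s, ⋃ F ∈ powersetCard (n i) (B i), {v | (F : Set Λ) ⊆ WS K v} := by
    rintro v ⟨i, hi, h2⟩
    obtain ⟨F, h3, h4⟩ := exists_subset_card_eq h2
    simp only [Set.mem_iUnion]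
    refine ⟨i, hi, F, mem_powersetCard.2 ⟨h3.trans (filter_subset _ _), h4⟩, fun x hx => ?_⟩
    exact (mem_filter.1 (h3 (mem_coe.1 hx))).2
  refine (Pr_mono hw h1).trans ((Pr_iUnion_le hw _ _).trans (sum_le_sum fun i _ => ?_))
  refine (Pr_iUnion_le hw _ _).trans ?_
  calc ∑ F ∈ powersetCard (n i) (B i), Pr w {v | (F : Set Λ) ⊆ WS K v} ≤
        ∑ _F ∈ powersetCard (n i) (B i), q ^ n i := by
          refine sum_le_sum fun F hF => ?_
          have := Pr_sub hw hK F
          rwa [(mem_powersetCard.1 hF).2] at this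
    _ = (powersetCard (n i) (B i)).card * q ^ n i := by rw [sum_const, nsmul_eq_mul]
    _ ≤ 2 ^ (B i).card * q ^ n i := by
        have h5 : ((powersetCard (n i) (B i)).card : ℝ) ≤ 2 ^ (B i).card := by
          rw [card_powersetCard]
          exact_mod_cast Nat.choose_le_two_pow _ _
        exact mul_le_mul_of_nonneg_right h5 (pow_nonneg hq _)

end prob

section torus

open Pool.Agent.ANP

variable {m N : ℕ} [NeZero N] {X : Type} [Fintype X] [DecidableEq X]

lemma card_bl_td (x : Fin m → ZMod N) : (bl td x).card ≤ 3 ^ m := by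
  have := card_ball x 1
  simpa [bl] using this

/-- The chain property of the weak sites on the torus `(ZMod N)^m`. -/
theorem Pr_cp_td {w : (Fin m → ZMod N) → X → ℝ} {K : (Fin m → ZMod N) → Finset X} {q : ℝ}
    (hw : IsLaw w) (hK : ∀ x, ∑ a ∈ K x, w x a ≤ q) (hq : 0 ≤ q)
    (hqV : 16 * 81 ^ m * q ≤ 1) (j0 : ℕ) :
    Pr w {v | ¬ CP td (pt (WS K v)) 2 (2 * j0)} ≤ 4 * N ^ m * (8 * 81 ^ m * q) ^ j0 := by
  have h81 : ((3 ^ m : ℕ) : ℝ) ^ 4 = 81 ^ m := by
    push_cast
    rw [← pow_mul, mul_comm, pow_mul]
    norm_num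
  have := Pr_cp hw hK hq td_met (V := 3 ^ m) (Nat.one_le_pow _ _ (by norm_num)) card_bl_td
    (by rw [h81]; exact hqV) j0
  rw [h81] at this
  simpa using this

end torus

end Pool.Agent.ANB
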