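import Pool.Agent.ANB.Cover
import Pool.Agent.ANQ.Box

/-!
# ANB / CoverL: local criterion for the chain property of random holes

`FamR d r x`: an explicit family of sets with `r` elements in the ball of radius `4 r` around the
root `x`. The root `x` is bad for `W` (`Rb d r W x`) if `W` contains a member. `cp_loc`: without
bad roots the points of `W` have the chain property. `cp_weak`: if the points of `W` near the bad
roots are contained in the pieces of a sparse family `D`, then the points of `W` and the pieces `D`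
together have the chain property; `phi_weak`: the weight function, flat at every point of `W` and
at every piece of `D`. Probabilities: `Pr_rb` (bad roots), `Pr_db` (density), `markov1` (one step
of conditioning).
-/

set_option autoImplicit false

namespace Pool.Agent.ANB

open Finset Pool.Agent.ANM

section det

variable {X κ : Type*} {d : X → X → ℕ} {W : Set X} {D : κ → Set X} {gen : κ → ℕ} {g J : ℕ}
  {ρ L L' : ℕ → ℕ}

lemma split_pcs (r : ℕ) (l : List (Option X)) (h : r ≤ (pcs l).length) :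
    ∃ l1 l2, l = l1 ++ l2 ∧ (pcs l1).length = r := by
  induction l generalizing r with
  | nil =>
    simp only [pcs, List.length_nil, Nat.le_zero] at h
    exact ⟨[], [], rfl, by simp [pcs, h]⟩
  | cons o l ih =>
    rcases Nat.eq_zero_or_pos r with rfl | hr
    · exact ⟨[], o :: l, rfl, by simp [pcs]⟩
    cases o with
    | none =>
      obtain ⟨l1, l2, h1, h2⟩ := ih r (by simpa [pcs] using h)
      exact ⟨none :: l1, l2, by rw [h1]; rfl, by simpa [pcs] using h2⟩
    | some k =>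
      simp only [pcs, List.length_cons] at h
      obtain ⟨l1, l2, h1, h2⟩ := ih (r - 1) (by omega)
      refine ⟨some k :: l1, l2, by rw [h1]; rfl, ?_⟩
      simp only [pcs, List.length_cons, h2]
      omega

variable [Fintype X] [DecidableEq X]

/-- The dangerous sets with `r` elements and root `x`. -/
def FamR (d : X → X → ℕ) (r : ℕ) (x : X) : Finset (Finset X) :=
  (range (3 * r + 1)).biUnion fun T =>
    ((univ : Finset (Fin T → Bool)).filter fun m => (List.ofFn m).count true = r).biUnion fun m =>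
      (GG d (List.ofFn m) x).filter fun F => F.card = r

/-- The root `x` is bad for `W`. -/
def Rb (d : X → X → ℕ) (r : ℕ) (W : Set X) (x : X) : Prop := ∃ F ∈ FamR d r x, (F : Set X) ⊆ W

lemma FamR_card_eq {r : ℕ} {x : X} {F : Finset X} (h : F ∈ FamR d r x) : F.card = r := by
  simp only [FamR, mem_biUnion, mem_filter] at h
  obtain ⟨_, _, _, _, _, h⟩ := h
  exact h

lemma FamR_card {V : ℕ} (hV1 : 1 ≤ V) (hV : ∀ x, (bl d x).card ≤ V) (r : ℕ) (x : X) :
    (FamR d r x).card ≤ 2 ^ (3 * r + 1) * V ^ (4 * r) := by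
  unfold FamR
  calc _ ≤ ∑ T ∈ range (3 * r + 1), 2 ^ T * V ^ (4 * r) := by
        refine card_biUnion_le.trans (sum_le_sum fun T hT => ?_)
        calc _ ≤ ∑ _m ∈ (univ : Finset (Fin T → Bool)).filter
                (fun m => (List.ofFn m).count true = r), V ^ (4 * r) := by
              refine card_biUnion_le.trans (sum_le_sum fun m hm => ?_)
              refine (card_filter_le _ _).trans ((card_GG hV _ x).trans ?_)
              rw [mem_filter] at hm
              rw [mem_range] at hT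
              refine Nat.pow_le_pow_right hV1 ?_
              rw [hm.2, List.length_ofFn]
              omega
          _ ≤ ∑ _m : Fin T → Bool, V ^ (4 * r) :=
              sum_le_sum_of_subset_of_nonneg (filter_subset _ _) fun _ _ _ => Nat.zero_le _
          _ = _ := by simp
    _ = (∑ T ∈ range (3 * r + 1), 2 ^ T) * V ^ (4 * r) := by rw [sum_mul]
    _ ≤ _ := Nat.mul_le_mul_right _ (sum_two_pow _)

lemma GG_near (hd : NMet d) {m : List Bool} {x y : X} {F : Finset X} (hF : F ∈ GG d m x)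
    (hy : y ∈ F) : d x y ≤ m.length + m.count true := by
  induction m generalizing x F with
  | nil =>
    simp only [GG, mem_singleton] at hF
    subst hF
    exact absurd hy (notMem_empty _)
  | cons b m ih =>
    cases b with
    | false =>
      simp only [GG, mem_biUnion] at hF
      obtain ⟨z, hz, hF⟩ := hF
      have h1 := ih hF hy
      have h2 : d x z ≤ 1 := by simpa [bl] using hz
      have h3 := hd.tri x z y
      rw [List.length_cons, List.count_cons_of_ne (by decide)]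
      omega
    | true =>
      simp only [GG, mem_biUnion, mem_image] at hF
      obtain ⟨w, hw, z, hz, F', hF', rfl⟩ := hF
      have h2 : d x w ≤ 1 := by simpa [bl] using hw
      have h4 : d w z ≤ 1 := by simpa [bl] using hz
      rw [List.length_cons, List.count_cons_self]
      rcases mem_insert.1 hy with rfl | hy
      · omega
      · have h1 := ih hF' hy
        have h3 := hd.tri x z y
        have h5 := hd.tri x w z
        omega

lemma FamR_near (hd : NMet d) {r : ℕ} {x y : X} {F : Finset X} (hF : F ∈ FamR d r x)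
    (hy : y ∈ F) : d x y ≤ 4 * r := by
  simp only [FamR, mem_biUnion, mem_filter, mem_range] at hF
  obtain ⟨T, hT, m, hm, h1, _⟩ := hF
  have := GG_near hd h1 hy
  rw [hm.2, List.length_ofFn] at this
  omega

lemma Rb.mono {r : ℕ} {W' : Set X} (h : W ⊆ W') {x : X} (hx : Rb d r W x) : Rb d r W' x := by
  obtain ⟨F, h1, h2⟩ := hx
  exact ⟨F, h1, h2.trans h⟩

/-- Badness of a root is local. -/
lemma Rb_congr (hd : NMet d) {r : ℕ} {W' : Set X} {x : X}
    (h : ∀ y, d x y ≤ 4 * r → (y ∈ W ↔ y ∈ W')) : Rb d r W x ↔ Rb d r W' x := by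
  constructor
  · rintro ⟨F, h1, h2⟩
    exact ⟨F, h1, fun y hy => (h y (FamR_near hd h1 hy)).1 (h2 hy)⟩
  · rintro ⟨F, h1, h2⟩
    exact ⟨F, h1, fun y hy => (h y (FamR_near hd h1 hy)).2 (h2 hy)⟩

/-- LOCAL CRITERION. -/
theorem cp_loc (hd : NMet d) {r : ℕ} (hr : 1 ≤ r) (h : ∀ x, ¬ Rb d r W x) :
    CP d (pt W) 2 (2 * r) := by
  have key : ∀ (n : ℕ) (l : List (Option X)) (x y : X), (pcs l).length ≤ n →
      Ch d (pt W) x y l → (pcs l).Nodup → 2 * (pcs l).length ≤ paid l + 2 * r := by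
    intro n
    induction n with
    | zero => intro l x y h1 _ _; omega
    | succ n ih =>
      intro l x y h1 h2 h3
      by_cases hj : (pcs l).length < r
      · omega
      obtain ⟨l1, l2, rfl, h4⟩ := split_pcs r l (by omega)
      rw [Ch_append] at h2
      obtain ⟨z, h5, h6⟩ := h2
      rw [pcs_append] at h1 h3
      rw [List.nodup_append] at h3
      rw [List.length_append] at h1
      have h7 := ih l2 z y (by omega) h6 h3.2.1
      rw [pcs_append, List.length_append, paid_append]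
      have h8 : 2 * r ≤ paid l1 := by
        by_contra hc
        apply h x
        have h9 := count_code l1
        refine ⟨(pcs l1).toFinset, ?_, fun k hk => pcs_mem h5 k (by simpa using hk)⟩
        simp only [FamR, mem_biUnion, mem_filter, mem_univ, true_and, mem_range]
        refine ⟨l1.length, by omega, fun i => (l1.map Option.isSome).get (i.cast (by simp)),
          ?_, ?_, by rw [List.toFinset_card_of_nodup h3.1, h4]⟩
        all_goals
          have h10 : List.ofFn (fun i : Fin l1.length =>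
              (l1.map Option.isSome).get (i.cast (by simp))) = l1.map Option.isSome := by
            apply List.ext_get
            · simp
            · intro n h7 h8
              simp
          rw [h10]
        · rw [h9.1, h4]
        · exact mem_GG hd h5
      omega
  intro x y l hl
  obtain ⟨l', h1, h2, h3⟩ := exists_nodup hl
  have h4 := pt_dist hd h1
  have h5 := key _ l' x y le_rfl h1 h2
  omega

/-- Removing the neighbourhoods of the bad roots. -/
lemma not_Rb_diff (hd : NMet d) {r : ℕ} (hr : 1 ≤ r) {E : Set X}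
    (hE : ∀ x, Rb d r W x → ∀ y ∈ W, d x y ≤ 4 * r → y ∈ E) (x : X) : ¬ Rb d r (W \ E) x := by
  rintro ⟨F, h1, h2⟩
  have h3 : F.Nonempty := by
    rw [← card_pos, FamR_card_eq h1]
    omega
  obtain ⟨y, hy⟩ := h3
  have h4 := h2 hy
  exact h4.2 (hE x ⟨F, h1, fun z hz => (h2 hz).1⟩ y h4.1 (FamR_near hd h1 hy))

/-- THE CHAIN PROPERTY of the points of `W` and of the pieces `D`, if the pieces contain the
points of `W` near the bad roots. -/
theorem cp_weak (hd : NMet d) (hg : Geo d) (hs : Sep d) {r : ℕ} (hr : 1 ≤ r)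
    (hS : Sparse d D gen g J ρ L) (hL : ∀ i < g, 2 * L' i + 2 * r ≤ L i)
    (hL' : ∀ i < g, 2 ^ (i + 2) * (J + 1) * (ρ i + 2) ≤ L' i)
    (hB : ∀ x, Rb d r W x → ∀ y ∈ W, d x y ≤ 4 * r → ∃ k, y ∈ D k) :
    CP d (Sum.elim (pt W) D) 4 (2 * cst g J ρ + 2 * r) := by
  classical
  have h1 : CP d (pt (W \ ⋃ k, D k)) 2 (2 * r) := by
    refine cp_loc hd hr (not_Rb_diff hd hr fun x hx y hy hxy => ?_)
    exact Set.mem_iUnion.2 (hB x hx y hy hxy)
  have h2 := cp_mix hd hg hs h1 hS hL hL'
  let f : X ⊕ κ → X ⊕ κ := Sum.elim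
    (fun w => if h : ∃ k, w ∈ D k then Sum.inr h.choose else Sum.inl w) Sum.inr
  refine CP.of_le (D' := Sum.elim (pt (W \ ⋃ k, D k)) D) (f := f) ?_ h2
  rintro (w | k)
  · rintro v ⟨rfl, hv⟩
    by_cases h : ∃ k, v ∈ D k
    · have h3 : f (Sum.inl v) = Sum.inr h.choose := by simp [f, h]
      rw [h3]
      exact h.choose_spec
    · have h3 : f (Sum.inl v) = Sum.inl v := by simp [f, h]
      rw [h3]
      exact ⟨rfl, hv, fun h4 => h (Set.mem_iUnion.1 h4)⟩
  · exact subset_rfl

/-- THE WEIGHT FUNCTION, flat at the points of `W` and at the pieces of `D`. -/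
theorem phi_weak (hd : NMet d) (hg : Geo d) (hs : Sep d) {r : ℕ} (hr : 1 ≤ r)
    (hS : Sparse d D gen g J ρ L) (hL : ∀ i < g, 2 * L' i + 2 * r ≤ L i)
    (hL' : ∀ i < g, 2 ^ (i + 2) * (J + 1) * (ρ i + 2) ≤ L' i)
    (hB : ∀ x, Rb d r W x → ∀ y ∈ W, d x y ≤ 4 * r → ∃ k, y ∈ D k)
    (A : Set X) (hA : A.Nonempty) :
    ∃ φ : X → ℕ, (∀ x ∈ A, φ x = 0) ∧ (∀ x y, d x y ≤ 1 → φ x ≤ φ y + 1) ∧
      (∀ k x y, Near d (D k) x → Near d (D k) y → φ x = φ y) ∧
      (∀ w ∈ W, ∀ x y, d x w ≤ 1 → d y w ≤ 1 → φ x = φ y) ∧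
      (∀ x y, d x y ≤ 1 → ((∃ k, x ∈ D k ∨ y ∈ D k) ∨ x ∈ W ∨ y ∈ W) → φ x = φ y) ∧
      ∀ y, ∃ x ∈ A, d x y ≤ 4 * φ y + (2 * cst g J ρ + 2 * r) := by
  obtain ⟨φ, h1, h2, h3, h4, h5⟩ := phi_cp hd (cp_weak hd hg hs hr hS hL hL' hB) hg hs A hA
  have h6 : ∀ w ∈ W, ∀ x y, d x w ≤ 1 → d y w ≤ 1 → φ x = φ y := fun w hw x y hx hy =>
    h3 (Sum.inl w) x y ⟨w, ⟨rfl, hw⟩, hx⟩ ⟨w, ⟨rfl, hw⟩, hy⟩
  refine ⟨φ, h1, h2, fun k x y hx hy => h3 (Sum.inr k) x y hx hy, h6, ?_, h5⟩
  rintro x y hxy (⟨k, hk⟩ | hx | hy)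
  · exact h4 x y hxy ⟨Sum.inr k, hk⟩
  · exact h6 x hx x y (by rw [hd.self]; omega) (by rw [hd.symm]; exact hxy)
  · exact h6 y hy x y hxy (by rw [hd.self]; omega)

end det

section prob

open Pool.Agent.ANP

variable {Λ X : Type} [Fintype Λ] [DecidableEq Λ] [Fintype X] [DecidableEq X]
  {w : Λ → X → ℝ} {K : Λ → Finset X} {q : ℝ}

/-- The event that some root in `Z` is bad. -/
def RbE (d : Λ → Λ → ℕ) (r : ℕ) (K : Λ → Finset X) (Z : Finset Λ) : Set (Λ → X) :=
  {v | ∃ x ∈ Z, Rb d r (WS K v) x}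

omit [Fintype X] [DecidableEq X] in
/-- The event depends only on the coordinates near `Z`. -/
lemma RbE_dep {d : Λ → Λ → ℕ} (hd : NMet d) {r : ℕ} {Z : Finset Λ} {v v' : Λ → X}
    (h : ∀ x ∈ Z, ∀ y, d x y ≤ 4 * r → v y = v' y) : v ∈ RbE d r K Z ↔ v' ∈ RbE d r K Z := by
  refine exists_congr fun x => and_congr_right fun hx => Rb_congr hd fun y hy => ?_
  simp only [WS, Set.mem_ofPred_eq, h x hx y hy]

/-- PROBABILITY of a bad root in `Z`. -/
theorem Pr_rb (hw : IsLaw w) (hK : ∀ x, ∑ a ∈ K x, w x a ≤ q) (hq : 0 ≤ q) {d : Λ → Λ → ℕ}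
    {V : ℕ} (hV1 : 1 ≤ V) (hV : ∀ x, (bl d x).card ≤ V) (r : ℕ) (Z : Finset Λ) :
    Pr w (RbE d r K Z) ≤ 2 * Z.card * (8 * (V : ℝ) ^ 4 * q) ^ r := by
  classical
  have h1 : RbE d r K Z ⊆ ⋃ x ∈ Z, ⋃ F ∈ FamR d r x, {v | (F : Set Λ) ⊆ WS K v} := by
    rintro v ⟨x, hx, F, hF, h2⟩
    simp only [Set.mem_iUnion]
    exact ⟨x, hx, F, hF, h2⟩
  refine (Pr_mono hw h1).trans ((Pr_iUnion_le hw _ _).trans ?_)
  have h2 : ∀ x ∈ Z, Pr w (⋃ F ∈ FamR d r x, {v | (F : Set Λ) ⊆ WS K v}) ≤
      2 * (8 * (V : ℝ) ^ 4 * q) ^ r := by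
    intro x _
    refine (Pr_iUnion_le hw _ _).trans ?_
    calc ∑ F ∈ FamR d r x, Pr w {v | (F : Set Λ) ⊆ WS K v} ≤ ∑ _F ∈ FamR d r x, q ^ r := by
          refine sum_le_sum fun F hF => ?_
          have := Pr_sub hw hK F
          rwa [FamR_card_eq hF] at this
      _ = (FamR d r x).card * q ^ r := by rw [sum_const, nsmul_eq_mul]
      _ ≤ (2 ^ (3 * r + 1) * V ^ (4 * r) : ℝ) * q ^ r := by
          refine mul_le_mul_of_nonneg_right ?_ (pow_nonneg hq _)
          exact_mod_cast FamR_card hV1 hV r x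
      _ = _ := by
          rw [mul_pow, mul_pow, pow_succ, pow_mul, pow_mul]
          norm_num
          ring
  refine (sum_le_sum h2).trans (le_of_eq ?_)
  rw [sum_const, nsmul_eq_mul]
  ring

/-- The event that the weak sites are dense in some ball with centre in `Z`. -/
def DbE (d : Λ → Λ → ℕ) (ρ : ℕ) (K : Λ → Finset X) (Z : Finset Λ) : Set (Λ → X) :=
  {v | ∃ x ∈ Z, (univ.filter fun y => d x y ≤ ρ).card ≤
    2 * ((univ.filter fun y => d x y ≤ ρ).filter fun y => v y ∈ K y).card}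

omit [Fintype X] [DecidableEq Λ] in
lemma DbE_dep {d : Λ → Λ → ℕ} {ρ : ℕ} {Z : Finset Λ} {v v' : Λ → X}
    (h : ∀ x ∈ Z, ∀ y, d x y ≤ ρ → v y = v' y) : v ∈ DbE d ρ K Z ↔ v' ∈ DbE d ρ K Z := by
  refine exists_congr fun x => and_congr_right fun hx => ?_
  have : (univ.filter fun y => d x y ≤ ρ).filter (fun y => v y ∈ K y) =
      (univ.filter fun y => d x y ≤ ρ).filter (fun y => v' y ∈ K y) := by
    refine filter_congr fun y hy => ?_
    rw [h x hx y (mem_filter.1 hy).2]
  rw [this]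

/-- PROBABILITY of a ball with centre in `Z` in which at least half of the sites are weak;
`n` is at most the number of points of the balls. -/
theorem Pr_db (hw : IsLaw w) (hK : ∀ x, ∑ a ∈ K x, w x a ≤ q) (hq : 0 ≤ q) (h4q : 4 * q ≤ 1)
    {d : Λ → Λ → ℕ} {ρ n : ℕ} {Z : Finset Λ}
    (hn : ∀ x ∈ Z, 2 * n ≤ (univ.filter fun y => d x y ≤ ρ).card) :
    Pr w (DbE d ρ K Z) ≤ Z.card * (4 * q) ^ n := by
  classical
  let B : Λ → Finset Λ := fun x => univ.filter fun y => d x y ≤ ρ
  let m : Λ → ℕ := fun x => ((B x).card + 1) / 2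
  have h1 : DbE d ρ K Z ⊆ {v | ∃ x ∈ Z, m x ≤ ((B x).filter fun y => v y ∈ K y).card} := by
    rintro v ⟨x, hx, h2⟩
    refine ⟨x, hx, ?_⟩
    show ((B x).card + 1) / 2 ≤ ((B x).filter fun y => v y ∈ K y).card
    have h3 : (B x).card ≤ 2 * ((B x).filter fun y => v y ∈ K y).card := h2
    omega
  refine (Pr_mono hw h1).trans ((Pr_box hw hK hq Z B m).trans ?_)
  have h2 : ∀ x ∈ Z, (2 : ℝ) ^ (B x).card * q ^ m x ≤ (4 * q) ^ n := by
    intro x hx
    have h3 : 2 * n ≤ (B x).card := hn x hx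
    have h4 : (B x).card ≤ 2 * m x := by simp only [m]; omega
    calc (2 : ℝ) ^ (B x).card * q ^ m x ≤ 2 ^ (2 * m x) * q ^ m x := by
          refine mul_le_mul_of_nonneg_right ?_ (pow_nonneg hq _)
          exact pow_le_pow_right₀ (by norm_num) h4
      _ = (4 * q) ^ m x := by rw [mul_pow, pow_mul]; norm_num
      _ ≤ (4 * q) ^ n := pow_le_pow_of_le_one (by positivity) h4q (by simp only [m]; omega)
  refine (sum_le_sum h2).trans (le_of_eq ?_)
  rw [sum_const, nsmul_eq_mul]

/-- ONE STEP OF CONDITIONING: `R` is the partition before, `R'` the partition after the step. The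
conditional probability of `F` becomes larger than `s'` with conditional probability at most
`s / s'`. -/
theorem markov1 (hw : IsLaw w) {R R' : (Λ → X) → (Λ → X) → Prop} (hR' : Equivalence R')
    (hR : Equivalence R) (href : ∀ v v', R' v v' → R v v') (F : Set (Λ → X)) {s s' : ℝ}
    (hs' : 0 < s') (v : Λ → X) (hv : Pr w (F ∩ {v' | R v v'}) ≤ s * Pr w {v' | R v v'}) :
    Pr w ({u | s' * Pr w {v' | R' u v'} < Pr w (F ∩ {v' | R' u v'})} ∩ {v' | R v v'}) ≤
      s / s' * Pr w {v' | R v v'} := by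
  classical
  set D : Set (Λ → X) := {u | s' * Pr w {v' | R' u v'} < Pr w (F ∩ {v' | R' u v'})} ∩
    {v' | R v v'} with hD
  have hcls : ∀ a b, R' a b → {u | R' a u} = {u | R' b u} := by
    intro a b h
    ext u
    exact ⟨fun hu => hR'.trans (hR'.symm h) hu, fun hu => hR'.trans h hu⟩
  have hDun : ∀ a ∈ D, ∀ b, R' a b → b ∈ D := by
    rintro a ⟨h1, h2⟩ b h
    refine ⟨?_, hR.trans h2 (href a b h)⟩
    show s' * Pr w {v' | R' b v'} < Pr w (F ∩ {v' | R' b v'})
    rw [← hcls a b h]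
    exact h1
  have h1 := Pool.Agent.ANQ.cond_le' (w := w) R' hR' D Set.univ F hDun (1 / s') (by
    intro a ha
    rw [Set.univ_inter, one_div, inv_mul_eq_div, le_div_iff₀ hs', mul_comm]
    exact (ha.1).le)
  rw [Set.univ_inter] at h1
  calc Pr w D ≤ 1 / s' * Pr w (F ∩ D) := h1
    _ ≤ 1 / s' * Pr w (F ∩ {v' | R v v'}) := by
        refine mul_le_mul_of_nonneg_left (Pr_mono hw ?_) (by positivity)
        exact Set.inter_subset_inter_right _ Set.inter_subset_right
    _ ≤ 1 / s' * (s * Pr w {v' | R v v'}) := mul_le_mul_of_nonneg_left hv (by positivity)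
    _ = _ := by ring

/-- If the conditional probability of `F` is at most `s < 1` in a class of positive probability,
then no subset of the class on which `F` is certain is the whole class. -/
theorem not_certain (hw : IsLaw w) {C F : Set (Λ → X)} {s : ℝ} (hs : s < 1)
    (h0 : 0 < Pr w C) (h : Pr w (F ∩ C) ≤ s * Pr w C) : ∃ u ∈ C, u ∉ F := by
  by_contra hc
  push Not at hc
  have h1 : F ∩ C = C := Set.inter_eq_right.2 hc
  rw [h1] at h
  have h2 := Pr_nonneg hw C
  nlinarith

/-- THE GEOMETRY NOW: `Wt` = the sites which are weak now (for the class `C`). If the conditional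
probability of a bad root in `Z` for the weak sites at the end is less than one, there is no bad
root in `Z` for `Wt`. -/
theorem now_rb (hw : IsLaw w) {d : Λ → Λ → ℕ} {r : ℕ} {Z : Finset Λ} {C : Set (Λ → X)}
    {Wt : Set Λ} (hsub : ∀ u ∈ C, Wt ⊆ WS K u) {s : ℝ} (hs : s < 1) (h0 : 0 < Pr w C)
    (h : Pr w (RbE d r K Z ∩ C) ≤ s * Pr w C) : ∀ x ∈ Z, ¬ Rb d r Wt x := by
  intro x hx hb
  obtain ⟨u, hu, h1⟩ := not_certain hw hs h0 h
  exact h1 ⟨x, hx, hb.mono (hsub u hu)⟩

open Classical in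
/-- THE DENSITY NOW. -/
theorem now_db (hw : IsLaw w) {d : Λ → Λ → ℕ} {ρ : ℕ} {Z : Finset Λ} {C : Set (Λ → X)}
    {Wt : Set Λ} (hsub : ∀ u ∈ C, Wt ⊆ WS K u) {s : ℝ} (hs : s < 1) (h0 : 0 < Pr w C)
    (h : Pr w (DbE d ρ K Z ∩ C) ≤ s * Pr w C) : ∀ x ∈ Z,
    2 * ((univ.filter fun y => d x y ≤ ρ).filter fun y => y ∈ Wt).card <
      (univ.filter fun y => d x y ≤ ρ).card := by
  intro x hx
  obtain ⟨u, hu, h1⟩ := not_certain hw hs h0 h
  by_contra hc
  apply h1
  refine ⟨x, hx, ?_⟩
  have h2 : ((univ.filter fun y => d x y ≤ ρ).filter fun y => y ∈ Wt).card ≤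
      ((univ.filter fun y => d x y ≤ ρ).filter fun y => u y ∈ K y).card := by
    refine card_le_card fun y hy => ?_
    rw [mem_filter] at hy ⊢
    exact ⟨hy.1, hsub u hu hy.2⟩
  omega

end prob

end Pool.Agent.ANB
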