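import Pool.Agent.ANB.Perc
import Pool.Agent.ANM.GeoMix2

/-!
# ANB / CoverM: weak points and holes, without a relation between the scales

The chain property of the weak points and of a sparse family of holes together, for every scale `r`
of the weak points. The only condition on the holes is `2 ^ (i + 3) (J + 1) (ρ i + 2) ≤ L i`.

* `cp_weak2`: the weak points near the bad roots are in the holes;
* `phi_weak2`: the weight function;
* `cp_inert2`, `cp_profile2`: no bad root, the inert sites of the algorithm at every time of a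
  super-stage.
-/

set_option autoImplicit false

namespace Pool.Agent.ANB

open Finset Pool.Agent.ANM

section det

variable {X κ : Type*} {d : X → X → ℕ} {W : Set X} {D : κ → Set X} {gen : κ → ℕ} {g J : ℕ}
  {ρ L : ℕ → ℕ} [Fintype X] [DecidableEq X]

/-- without bad roots a chain uses few points -/
theorem pt_len (hd : NMet d) {r : ℕ} (hr : 1 ≤ r) (h : ∀ x, ¬ Rb d r W x) {x y : X}
    {l : List (Option X)} (hl : Ch d (pt W) x y l) (hn : (pcs l).Nodup) :
    2 * (pcs l).length ≤ paid l + 2 * r := by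
  set m := (pcs l).length / r with hm
  have h1 : m * r ≤ (pcs l).length := Nat.div_mul_le_self _ _
  have h2 : (pcs l).length < (m + 1) * r := by
    have := Nat.lt_mul_div_succ (pcs l).length (show 0 < r by omega)
    rw [mul_comm]
    exact this
  obtain ⟨l1, l2, h3, h4⟩ := split_pcs (m * r) l h1
  subst h3
  rw [Ch_append] at hl
  obtain ⟨z, h5, -⟩ := hl
  rw [pcs_append, List.nodup_append] at hn
  have h6 := blocks hd h m h5 hn.1 h4
  rw [paid_append]
  have e1 : m * (2 * r + 1) = 2 * (m * r) + m := by ring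
  have e2 : (m + 1) * r = m * r + r := by ring
  rw [e1] at h6
  rw [e2] at h2
  clear_value m
  generalize m * r = u at *
  omega

/-- THE CHAIN PROPERTY of the points of `W` and of the pieces `D`, if the pieces contain the
points of `W` near the bad roots. -/
theorem cp_weak2 (hd : NMet d) (hg : Geo d) (hs : Sep d) {r : ℕ} (hr : 1 ≤ r)
    (hS : Sparse d D gen g J ρ L)
    (hL : ∀ i < g, 2 ^ (i + 3) * (J + 1) * (ρ i + 2) ≤ L i)
    (hB : ∀ x, Rb d r W x → ∀ y ∈ W, d x y ≤ 4 * r → ∃ k, y ∈ D k) :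
    CP d (Sum.elim (pt W) D) 4 (2 * cst g J ρ + 4 * r) := by
  classical
  have h1 : ∀ x, ¬ Rb d r (W \ ⋃ k, D k) x :=
    not_Rb_diff hd hr fun x hx y hy hxy => Set.mem_iUnion.2 (hB x hx y hy hxy)
  have h2 : CP d (Sum.elim (pt (W \ ⋃ k, D k)) D) 4 (2 * cst g J ρ + 2 * (2 * r)) := by
    refine cp_mix2 (b := 2 * r) hd hg hs ?_ (fun x y l hl hn => pt_len hd hr h1 hl hn)
      hS.gen_lt hS.diam hS.count hL
    rintro k x ⟨rfl, -⟩ y ⟨rfl, -⟩
    rw [hd.self]
  have e : 2 * (2 * r) = 4 * r := by ring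
  rw [e] at h2
  let f : X ⊕ κ → X ⊕ κ := Sum.elim
    (fun w => if h : ∃ k, w ∈ D k then Sum.inr h.choose else Sum.inl w) Sum.inr
  refine CP.of_le (D' := Sum.elim (pt (W \ ⋃ k, D k)) D) (f := f) ?_ h2
  rintro (w | k)
  · rintro v ⟨rfl, hv⟩
    by_cases h : ∃ k, v ∈ D k
    · have h3 : f (Sum.inl v) = Sum.inr h.choose := by simp [f, h]
      rw [h3]
      exact h.choose_spec
    · have h3 : f (Sum.inl v) = Sum.inl v := by simp [f, h]
      rw [h3]
      exact ⟨rfl, hv, fun h4 => h (Set.mem_iUnion.1 h4)⟩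
  · exact subset_rfl

/-- THE WEIGHT FUNCTION, flat at the points of `W` and at the pieces of `D`. -/
theorem phi_weak2 (hd : NMet d) (hg : Geo d) (hs : Sep d) {r : ℕ} (hr : 1 ≤ r)
    (hS : Sparse d D gen g J ρ L)
    (hL : ∀ i < g, 2 ^ (i + 3) * (J + 1) * (ρ i + 2) ≤ L i)
    (hB : ∀ x, Rb d r W x → ∀ y ∈ W, d x y ≤ 4 * r → ∃ k, y ∈ D k)
    (A : Set X) (hA : A.Nonempty) :
    ∃ φ : X → ℕ, (∀ x ∈ A, φ x = 0) ∧ (∀ x y, d x y ≤ 1 → φ x ≤ φ y + 1) ∧
      (∀ k x y, Near d (D k) x → Near d (D k) y → φ x = φ y) ∧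
      (∀ w ∈ W, ∀ x y, d x w ≤ 1 → d y w ≤ 1 → φ x = φ y) ∧
      (∀ x y, d x y ≤ 1 → ((∃ k, x ∈ D k ∨ y ∈ D k) ∨ x ∈ W ∨ y ∈ W) → φ x = φ y) ∧
      ∀ y, ∃ x ∈ A, d x y ≤ 4 * φ y + (2 * cst g J ρ + 4 * r) := by
  obtain ⟨φ, h1, h2, h3, h4, h5⟩ := phi_cp hd (cp_weak2 hd hg hs hr hS hL hB) hg hs A hA
  have h6 : ∀ w ∈ W, ∀ x y, d x w ≤ 1 → d y w ≤ 1 → φ x = φ y := fun w hw x y hx hy =>
    h3 (Sum.inl w) x y ⟨w, ⟨rfl, hw⟩, hx⟩ ⟨w, ⟨rfl, hw⟩, hy⟩
  refine ⟨φ, h1, h2, fun k x y hx hy => h3 (Sum.inr k) x y hx hy, h6, ?_, h5⟩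
  rintro x y hxy (⟨k, hk⟩ | hx | hy)
  · exact h4 x y hxy ⟨Sum.inr k, hk⟩
  · exact h6 x hx x y (by rw [hd.self]; omega) (by rw [hd.symm]; exact hxy)
  · exact h6 y hy x y hxy (by rw [hd.self]; omega)

/-- THE CHAIN PROPERTY of the weak points and of the pieces. -/
theorem cp_inert2 (hd : NMet d) (hg : Geo d) (hs : Sep d) {r : ℕ} (hr : 1 ≤ r)
    (h : ∀ x, ¬ Rb d r W x) (hS : Sparse d D gen g J ρ L)
    (hL : ∀ i < g, 2 ^ (i + 3) * (J + 1) * (ρ i + 2) ≤ L i) :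
    CP d (Sum.elim (pt W) D) 4 (2 * cst g J ρ + 4 * r) :=
  cp_weak2 hd hg hs hr hS hL fun x hx => absurd hx (h x)

/-- The same for a set which is covered by the weak points and the pieces, as single points -/
theorem cp_points (hd : NMet d) (hg : Geo d) (hs : Sep d) {r : ℕ} (hr : 1 ≤ r)
    (h : ∀ x, ¬ Rb d r W x) (hS : Sparse d D gen g J ρ L)
    (hL : ∀ i < g, 2 ^ (i + 3) * (J + 1) * (ρ i + 2) ≤ L i) {A : Set X}
    (hA : ∀ x ∈ A, x ∈ W ∨ ∃ k, x ∈ D k) :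
    CP d (pt A) 4 (2 * cst g J ρ + 4 * r) := by
  classical
  let f : X → X ⊕ κ := fun x => if h : ∃ k, x ∈ D k then Sum.inr h.choose else Sum.inl x
  refine CP.of_le (D' := Sum.elim (pt W) D) (f := f) ?_ (cp_inert2 hd hg hs hr h hS hL)
  intro k v hv
  obtain ⟨rfl, hvA⟩ := hv
  by_cases h1 : ∃ k, v ∈ D k
  · have h3 : f v = Sum.inr h1.choose := by simp [f, h1]
    rw [h3]
    exact h1.choose_spec
  · have h3 : f v = Sum.inl v := by simp [f, h1]
    rw [h3]
    exact ⟨rfl, (hA v hvA).resolve_right h1⟩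

end det

section alg

open Pool.Agent.AND (Prof)

variable {X T : Type} [Fintype X] [DecidableEq X] [Fintype T] [DecidableEq T] [Nonempty T]
  {g : Pool.Agent.ANQ.Geo T}

omit [Fintype X] [DecidableEq X] [Nonempty T] in
/-- THE CHAIN PROPERTY of the inert sites and of the holes at every time of super-stage `j` -/
theorem cp_profile2 (hm : NMet g.dist) (hg : ANM.Geo g.dist) (hs : Sep g.dist) {K : T → Finset X}
    {π : Prof T} {v : T → X} {ρ : ℕ} (hρ : 1 ≤ ρ) (h : Inv g K ρ π v) {κ : Type*}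
    {D : κ → Set T} {gen : κ → ℕ} {gg J : ℕ} {d L : ℕ → ℕ}
    (hS : Sparse g.dist D gen gg J d L)
    (hL : ∀ i < gg, 2 ^ (i + 3) * (J + 1) * (d i + 2) ≤ L i) :
    CP g.dist (Sum.elim (pt (π.ine : Set T)) D) 4 (2 * cst gg J d + 4 * ρ) :=
  cp_inert2 hm hg hs hρ h.1 hS hL

omit [Fintype X] [DecidableEq X] [Nonempty T] in
/-- THE CHAIN PROPERTY of the read and the inert sites, as single points -/
theorem cp_profile_pt (hm : NMet g.dist) (hg : ANM.Geo g.dist) (hs : Sep g.dist)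
    {K : T → Finset X} {π : Prof T} {v : T → X} {ρ : ℕ} (hρ : 1 ≤ ρ) (h : Inv g K ρ π v)
    {κ : Type*} {D : κ → Set T} {gen : κ → ℕ} {gg J : ℕ} {d L : ℕ → ℕ}
    (hS : Sparse g.dist D gen gg J d L)
    (hL : ∀ i < gg, 2 ^ (i + 3) * (J + 1) * (d i + 2) ≤ L i)
    (hrd : ∀ x ∈ π.rd, ∃ k, x ∈ D k) :
    CP g.dist (pt (π.rd ∪ π.ine : Set T)) 4 (2 * cst gg J d + 4 * ρ) := by
  refine cp_points hm hg hs hρ h.1 hS hL fun x hx => ?_
  rcases hx with hx | hx
  · exact Or.inr (hrd x hx)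
  · exact Or.inl hx

end alg

end Pool.Agent.ANB
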