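import Pool.Agent.ANB.CoverL

/-!
# ANB / CoverU: the absence of bad roots is an invariant

`Rb_upgrade`: no bad root at the scale `r` implies no bad root at the scale `m r`.
`Rb_extend`: if new points are added inside `S`, only the roots near `S` have to be checked.
`cp_inert`: chain property of the weak points and of a sparse family of pieces, when there is no
bad root.
-/

set_option autoImplicit false

namespace Pool.Agent.ANB

open Finset Pool.Agent.ANM

variable {X κ : Type*} {d : X → X → ℕ} {W W' : Set X} [Fintype X] [DecidableEq X]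

/-- Members of `GG` come from chains. -/
lemma GG_chain (hd : NMet d) {m : List Bool} {x : X} {F : Finset X} (hF : F ∈ GG d m x)
    (hW : (F : Set X) ⊆ W) :
    ∃ y l, Ch d (pt W) x y l ∧ (pcs l).toFinset = F ∧ l.map Option.isSome = m := by
  induction m generalizing x F with
  | nil =>
    simp only [GG, mem_singleton] at hF
    exact ⟨x, [], rfl, by simp [pcs, hF], rfl⟩
  | cons b m ih =>
    cases b with
    | false =>
      simp only [GG, mem_biUnion] at hF
      obtain ⟨z, hz, hF⟩ := hF
      obtain ⟨y, l, h1, h2, h3⟩ := ih hF hW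
      exact ⟨y, none :: l, ⟨z, by simpa [bl] using hz, h1⟩, by simpa [pcs] using h2, by simp [h3]⟩
    | true =>
      simp only [GG, mem_biUnion, mem_image] at hF
      obtain ⟨w, hw, z, hz, F', hF', rfl⟩ := hF
      obtain ⟨y, l, h1, h2, h3⟩ := ih hF' (fun a ha => hW (by simp [mem_coe.1 ha]))
      have hwW : w ∈ W := hW (by simp)
      have hxw : d x w ≤ 1 := by simpa [bl] using hw
      have hzw : d z w ≤ 1 := by
        rw [hd.symm]
        simpa [bl] using hz
      exact ⟨y, some w :: l, ⟨z, ⟨w, ⟨rfl, hwW⟩, hxw⟩, ⟨w, ⟨rfl, hwW⟩, hzw⟩, h1⟩,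
        by simp [pcs, h2], by simp [h3]⟩

/-- A chain with exactly `r` different pieces has more than `2 r` paid steps. -/
lemma block (hd : NMet d) {r : ℕ} (h : ∀ x, ¬ Rb d r W x) {x z : X} {l : List (Option X)}
    (hl : Ch d (pt W) x z l) (hn : (pcs l).Nodup) (hr : (pcs l).length = r) :
    2 * r + 1 ≤ paid l := by
  by_contra hc
  apply h x
  have h9 := count_code l
  refine ⟨(pcs l).toFinset, ?_, fun k hk => pcs_mem hl k (by simpa using hk)⟩
  simp only [FamR, mem_biUnion, mem_filter, mem_univ, true_and, mem_range]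
  refine ⟨l.length, by omega, fun i => (l.map Option.isSome).get (i.cast (by simp)),
    ?_, ?_, by rw [List.toFinset_card_of_nodup hn, hr]⟩
  all_goals
    have h10 : List.ofFn (fun i : Fin l.length =>
        (l.map Option.isSome).get (i.cast (by simp))) = l.map Option.isSome := by
      apply List.ext_get
      · simp
      · intro n h7 h8
        simp
    rw [h10]
  · rw [h9.1, hr]
  · exact mem_GG hd hl

lemma blocks (hd : NMet d) {r : ℕ} (h : ∀ x, ¬ Rb d r W x) (m : ℕ) {x z : X}
    {l : List (Option X)} (hl : Ch d (pt W) x z l) (hn : (pcs l).Nodup)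
    (hr : (pcs l).length = m * r) : m * (2 * r + 1) ≤ paid l := by
  induction m generalizing x l with
  | zero => simp
  | succ m ih =>
    have e : (m + 1) * r = m * r + r := by ring
    obtain ⟨l1, l2, rfl, h4⟩ := split_pcs r l (by omega)
    rw [Ch_append] at hl
    obtain ⟨y, h5, h6⟩ := hl
    rw [pcs_append] at hr hn
    rw [List.nodup_append] at hn
    rw [List.length_append] at hr
    have h7 := ih h6 hn.2.1 (by omega)
    have h8 := block hd h h5 hn.1 h4
    rw [paid_append]
    have e2 : (m + 1) * (2 * r + 1) = m * (2 * r + 1) + (2 * r + 1) := by ring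
    omega

/-- No bad root at the scale `r`: no bad root at the scale `m r`. -/
theorem Rb_upgrade (hd : NMet d) {r m : ℕ} (hm : 1 ≤ m) (h : ∀ x, ¬ Rb d r W x) (x : X) :
    ¬ Rb d (m * r) W x := by
  rintro ⟨F, hF, hFW⟩
  have hcard := FamR_card_eq hF
  simp only [FamR, mem_biUnion, mem_filter, mem_range, mem_univ, true_and] at hF
  obtain ⟨T, hT, p, hp, hG, _⟩ := hF
  obtain ⟨y, l, h1, h2, h3⟩ := GG_chain hd hG hFW
  have h4 := count_code l
  have h5 : l.length = T := by
    have := congrArg List.length h3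
    simpa using this
  have h6 : (pcs l).length = m * r := by rw [← h4.1, h3, hp]
  have hn : (pcs l).Nodup := by
    have h7 : (pcs l).toFinset.card = (pcs l).length := by rw [h2, hcard, h6]
    have h8 := (Multiset.toFinset_card_eq_card_iff_nodup (m := ((pcs l : List X) : Multiset X)))
    have h9 : ((pcs l : List X) : Multiset X).toFinset = (pcs l).toFinset := rfl
    rw [h9, Multiset.coe_card, Multiset.coe_nodup] at h8
    exact h8.1 h7
  have h7 := blocks hd h m h1 hn h6
  have h8 := h4.2
  have e : m * (2 * r + 1) = 2 * (m * r) + m := by ring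
  omega

/-- New points in `S`: only the roots near `S` have to be checked. -/
theorem Rb_extend (hd : NMet d) {r : ℕ} {S : Set X} (hWW : ∀ x, x ∉ S → (x ∈ W ↔ x ∈ W'))
    (h : ∀ x, ¬ Rb d r W x) (hS : ∀ x, (∃ y ∈ S, d x y ≤ 4 * r) → ¬ Rb d r W' x) (x : X) :
    ¬ Rb d r W' x := by
  by_cases hx : ∃ y ∈ S, d x y ≤ 4 * r
  · exact hS x hx
  · push Not at hx
    rw [← Rb_congr hd (W := W) (W' := W') (r := r) (x := x) fun y hy => ?_]
    · exact h x
    · refine hWW y fun hyS => ?_
      have := hx y hyS
      omega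

/-- THE CHAIN PROPERTY of the weak points and of the pieces. -/
theorem cp_inert (hd : NMet d) (hg : Geo d) (hs : Sep d) {D : κ → Set X} {gen : κ → ℕ}
    {g J : ℕ} {ρ L L' : ℕ → ℕ} {r : ℕ} (hr : 1 ≤ r) (h : ∀ x, ¬ Rb d r W x)
    (hS : Sparse d D gen g J ρ L) (hL : ∀ i < g, 2 * L' i + 2 * r ≤ L i)
    (hL' : ∀ i < g, 2 ^ (i + 2) * (J + 1) * (ρ i + 2) ≤ L' i) :
    CP d (Sum.elim (pt W) D) 4 (2 * cst g J ρ + 2 * r) :=
  cp_weak hd hg hs hr hS hL hL' fun x hx => absurd hx (h x)

omit [Fintype X] [DecidableEq X] in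
/-- Without weak points. -/
theorem not_Rb_empty [Fintype X] [DecidableEq X] {r : ℕ} (hr : 1 ≤ r) (x : X) :
    ¬ Rb d r (∅ : Set X) x := by
  rintro ⟨F, hF, h⟩
  have h1 := FamR_card_eq hF
  have h2 : F = ∅ := by
    rw [← coe_eq_empty]
    exact Set.subset_empty_iff.1 h
  rw [h2, card_empty] at h1
  omega

end Pool.Agent.ANB
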