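import Mathlib

/-! # ANB H3: deterministic part of the condition (H3), all laws.

For one row `x`: `S_y = |G_xy|^2`, `R_y = G_xy^2`, nonnegative weights.
`a` = the weight of the R-sum (zero off the active sites), `kio = κ ι` on the active sites (zero elsewhere),
`st` = imaginary part of the static self-energies, `es = η_*`, `w` = the weight of the right side of (H3),
`om` = the weight of the second error term.  Note: /team-store/anb_h78.md.
-/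

namespace Pool.Agent.ANB

open Finset

variable {X : Type} [Fintype X]

theorem re_sq_eq (z : ℂ) : z.re ^ 2 = (‖z‖ ^ 2 + (z ^ 2).re) / 2 := by
  rw [Complex.sq_norm, Complex.normSq_apply, sq z, Complex.mul_re]
  ring

/-- `∑ a (Re G)^2 ≤ (|∑ a G^2| + ∑ a |G|^2) / 2` -/
theorem sum_re_sq_le (g : X → ℂ) (a : X → ℝ) :
    ∑ y, a y * (g y).re ^ 2 ≤
      (‖∑ y, g y ^ 2 * (a y : ℂ)‖ + ∑ y, ‖g y‖ ^ 2 * a y) / 2 := by
  have h1 : ∑ y, a y * (g y).re ^ 2 =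
      ((∑ y, g y ^ 2 * (a y : ℂ)).re + ∑ y, ‖g y‖ ^ 2 * a y) / 2 := by
    rw [Complex.re_sum, ← Finset.sum_add_distrib, Finset.sum_div]
    refine Finset.sum_congr rfl fun y _ => ?_
    rw [re_sq_eq, Complex.re_mul_ofReal]
    ring
  rw [h1]
  have := Complex.re_le_norm (∑ y, g y ^ 2 * (a y : ℂ))
  linarith

/-- USE: (H3) with the weights `a` (between `del * kio` and `kio`) gives the bound of the real part sum,
which is the input of the accretivity lemma. -/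
theorem h3_use (g : X → ℂ) (kio a st w om : X → ℝ) (es rho e1 e2 del io : ℝ)
    (hk : ∀ y, 0 ≤ kio y) (hst : ∀ y, 0 ≤ st y) (hes : 0 ≤ es)
    (hward : io = ∑ y, ‖g y‖ ^ 2 * (kio y + st y + es))
    (hak : ∀ y, a y ≤ kio y) (hdel : ∀ y, del * kio y ≤ a y)
    (hw : ∀ y, w y ≤ a y + st y) (hom : ∀ y, om y ≤ kio y + st y)
    (hrho : rho ≤ 1 / 16) (hrho0 : 0 ≤ rho) (he1 : e1 ≤ 1 / 16) (he10 : 0 ≤ e1)
    (he20 : 0 ≤ e2) (he2 : e2 ≤ del / 4) (hd : del ≤ 1 / 2)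
    (h3 : ‖∑ y, g y ^ 2 * (a y : ℂ)‖ + ∑ y, ‖g y‖ ^ 2 * a y ≤
      (1 + rho) * ∑ y, ‖g y‖ ^ 2 * w y + e1 * ∑ y, ‖g y‖ ^ 2 * (st y + es)
        + e2 * ∑ y, ‖g y‖ ^ 2 * om y) :
    ∑ y, kio y * (g y).re ^ 2 ≤ (1 - del / 3) * io := by
  have hS : ∀ y, 0 ≤ ‖g y‖ ^ 2 := fun y => sq_nonneg _
  have h1 := sum_re_sq_le g a
  have h2 : ∑ y, (kio y - a y) * (g y).re ^ 2 ≤ ∑ y, ‖g y‖ ^ 2 * (kio y - a y) := by
    refine Finset.sum_le_sum fun y _ => ?_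
    have e1 : (g y).re ^ 2 ≤ ‖g y‖ ^ 2 := by
      have := Complex.abs_re_le_norm (g y)
      have h0 := norm_nonneg (g y)
      nlinarith [abs_nonneg (g y).re, sq_abs (g y).re]
    have e2 : 0 ≤ kio y - a y := by linarith [hak y]
    nlinarith
  have h3' : ∑ y, kio y * (g y).re ^ 2 =
      ∑ y, a y * (g y).re ^ 2 + ∑ y, (kio y - a y) * (g y).re ^ 2 := by
    rw [← Finset.sum_add_distrib]
    refine Finset.sum_congr rfl fun y _ => by ring
  have h4 : ∑ y, ‖g y‖ ^ 2 * (kio y - a y) = ∑ y, ‖g y‖ ^ 2 * kio y - ∑ y, ‖g y‖ ^ 2 * a y := by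
    rw [← Finset.sum_sub_distrib]
    refine Finset.sum_congr rfl fun y _ => by ring
  have h5 : io = ∑ y, ‖g y‖ ^ 2 * kio y + ∑ y, ‖g y‖ ^ 2 * (st y + es) := by
    rw [hward, ← Finset.sum_add_distrib]
    refine Finset.sum_congr rfl fun y _ => by ring
  have h6 : ∑ y, ‖g y‖ ^ 2 * w y ≤ ∑ y, ‖g y‖ ^ 2 * a y + ∑ y, ‖g y‖ ^ 2 * (st y + es) := by
    rw [← Finset.sum_add_distrib]
    refine Finset.sum_le_sum fun y _ => ?_
    have := hw y
    have := hS y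
    nlinarith
  have h7 : ∑ y, ‖g y‖ ^ 2 * om y ≤
      ∑ y, ‖g y‖ ^ 2 * kio y + ∑ y, ‖g y‖ ^ 2 * (st y + es) := by
    rw [← Finset.sum_add_distrib]
    refine Finset.sum_le_sum fun y _ => ?_
    have := hom y
    have := hS y
    nlinarith
  have h8 : del * ∑ y, ‖g y‖ ^ 2 * kio y ≤ ∑ y, ‖g y‖ ^ 2 * a y := by
    rw [Finset.mul_sum]
    refine Finset.sum_le_sum fun y _ => ?_
    have := hdel y
    have := hS y
    nlinarith
  have hk0 : 0 ≤ ∑ y, ‖g y‖ ^ 2 * kio y := Finset.sum_nonneg fun y _ => mul_nonneg (hS y) (hk y)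
  have hs0 : 0 ≤ ∑ y, ‖g y‖ ^ 2 * (st y + es) :=
    Finset.sum_nonneg fun y _ => mul_nonneg (hS y) (add_nonneg (hst y) hes)
  generalize ∑ y, ‖g y‖ ^ 2 * kio y = A at *
  generalize ∑ y, ‖g y‖ ^ 2 * (st y + es) = B at *
  generalize ∑ y, ‖g y‖ ^ 2 * a y = D at *
  generalize ∑ y, ‖g y‖ ^ 2 * w y = W at *
  generalize ∑ y, ‖g y‖ ^ 2 * om y = O at *
  have hD0 : 0 ≤ D := by
    by_contra hc
    have hdel0 : del * A < 0 := lt_of_le_of_lt h8 (by linarith)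
    nlinarith
  have k1 : (1 + rho) * W ≤ (1 + rho) * (D + B) := mul_le_mul_of_nonneg_left h6 (by linarith)
  have k2 : e2 * O ≤ e2 * (A + B) := mul_le_mul_of_nonneg_left h7 he20
  have k3 : rho * (D + B) ≤ (1 / 16) * (D + B) := mul_le_mul_of_nonneg_right hrho (by linarith)
  have k4 : e1 * B ≤ (1 / 16) * B := mul_le_mul_of_nonneg_right he1 hs0
  have k5 : e2 * (A + B) ≤ del / 4 * (A + B) := mul_le_mul_of_nonneg_right he2 (by linarith)
  have k6 : del * B ≤ (1 / 2) * B := mul_le_mul_of_nonneg_right hd hs0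
  rw [h3', h5]
  nlinarith

/-- CREATION of static sites: the weight `w` is unchanged on the new static set `F`, the R-weight is cut. -/
theorem h3_create (g : X → ℂ) (a a' : X → ℝ) (F : X → Prop) [DecidablePred F] (C : ℝ)
    (ha : ∀ y, 0 ≤ a y) (ha' : ∀ y, a' y = if F y then 0 else a y)
    (h3 : ‖∑ y, g y ^ 2 * (a y : ℂ)‖ + ∑ y, ‖g y‖ ^ 2 * a y ≤ C) :
    ‖∑ y, g y ^ 2 * (a' y : ℂ)‖ + ∑ y, ‖g y‖ ^ 2 * a' y ≤ C := by
  have h1 : ∑ y, g y ^ 2 * (a' y : ℂ) =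
      ∑ y, g y ^ 2 * (a y : ℂ) - ∑ y, g y ^ 2 * (((a y - a' y : ℝ)) : ℂ) := by
    rw [← Finset.sum_sub_distrib]
    refine Finset.sum_congr rfl fun y _ => ?_
    push_cast
    ring
  have h0 : ∀ y, 0 ≤ a y - a' y := by
    intro y
    rw [ha']
    split_ifs
    · simpa using ha y
    · simp
  have h2 : ‖∑ y, g y ^ 2 * (((a y - a' y : ℝ)) : ℂ)‖ ≤ ∑ y, ‖g y‖ ^ 2 * (a y - a' y) := by
    refine (norm_sum_le _ _).trans (Finset.sum_le_sum fun y _ => ?_)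
    rw [norm_mul, norm_pow, Complex.norm_real, Real.norm_of_nonneg (h0 y)]
  have h4 : ∑ y, ‖g y‖ ^ 2 * (a y - a' y) = ∑ y, ‖g y‖ ^ 2 * a y - ∑ y, ‖g y‖ ^ 2 * a' y := by
    rw [← Finset.sum_sub_distrib]
    refine Finset.sum_congr rfl fun y _ => by ring
  have h5 : ‖∑ y, g y ^ 2 * (a' y : ℂ)‖ ≤
      ‖∑ y, g y ^ 2 * (a y : ℂ)‖ + ‖∑ y, g y ^ 2 * (((a y - a' y : ℝ)) : ℂ)‖ := by
    rw [h1]
    exact norm_sub_le _ _
  linarith

/-- ABSORPTION of an additive error `err ≤ ε * io` into the two error terms. -/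
theorem h3_absorb (g : X → ℂ) (kio st om : X → ℝ) (es io L al be c err eps : ℝ)
    (hward : io = ∑ y, ‖g y‖ ^ 2 * (kio y + st y + es))
    (hdom : ∀ y, kio y ≤ c * om y) (hc : 0 ≤ c) (hep : 0 ≤ eps)
    (h : L ≤ al * ∑ y, ‖g y‖ ^ 2 * (st y + es) + be * ∑ y, ‖g y‖ ^ 2 * om y + err)
    (herr : err ≤ eps * io) :
    L ≤ (al + eps) * ∑ y, ‖g y‖ ^ 2 * (st y + es) + (be + eps * c) * ∑ y, ‖g y‖ ^ 2 * om y := by
  have h5 : io ≤ c * ∑ y, ‖g y‖ ^ 2 * om y + ∑ y, ‖g y‖ ^ 2 * (st y + es) := by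
    rw [hward, Finset.mul_sum, ← Finset.sum_add_distrib]
    refine Finset.sum_le_sum fun y _ => ?_
    have := hdom y
    have := sq_nonneg ‖g y‖
    nlinarith
  have := mul_le_mul_of_nonneg_left h5 hep
  nlinarith

end Pool.Agent.ANB
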