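import Pool.Agent.ANB.CoverU
import Pool.Agent.ANQ.ProcProb

/-!
# ANB / Perc: the inert sites of the process (general laws)

`PercIn`: an accepted step has no bad root at the scale `r j` for the inert sites of the candidate
profile. Then at every time of super-stage `j` the inert sites have no bad root at the scale `r j`,
and every inert site is ever weak (`inv_run`, `inv_cur`, `inv_icur`). A step which is rejected
because of a bad root belongs to the event `PE` (a bad root near the cell for the ever weak sites,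
`pe_of_bad`), which has a product bound for separated cells (`perc_bound`).
-/

set_option autoImplicit false

namespace Pool.Agent.ANB

open Finset Pool.Agent.ANM
open Pool.Agent.ANP (IsLaw Pr)
open Pool.Agent.AND (Prof)
open Pool.Agent.ANQ (Ana St Cur ICur weak freeze raise read Cls SepBy)

variable {T X : Type} [Fintype T] [DecidableEq T] [Fintype X] [DecidableEq X] [Nonempty T]

/-- the hypotheses on the inert sites: `K x` contains all values which are ever weak -/
structure PercIn (g : ANQ.Geo T) (A : Ana T X) (K : T → Finset X) (r : ℕ → ℕ) : Prop where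
  met : NMet g.dist
  r1 : ∀ j, 1 ≤ r j
  dvd : ∀ j, r j ∣ r (j + 1)
  wk : ∀ n a x, A.wk n a → a ∈ K x
  wk0 : ∀ a, ¬ A.wk (g.lv 0) a
  acc : ∀ j i π v, A.ACC j i π v → ∀ x, ¬ Rb g.dist (r j) ((g.up A j i π v).ine : Set T) x

/-- no bad root at the scale `r`, all inert sites are ever weak -/
def Inv (g : ANQ.Geo T) (K : T → Finset X) (r : ℕ) (π : Prof T) (v : T → X) : Prop :=
  (∀ x, ¬ Rb g.dist r (π.ine : Set T) x) ∧ ∀ x ∈ π.ine, v x ∈ K x

variable {g : ANQ.Geo T} {A : Ana T X} {K : T → Finset X} {r : ℕ → ℕ}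

omit [Fintype X] [DecidableEq X] [Nonempty T] in
theorem Inv.mono {ρ : ℕ} {π π' : Prof T} {v : T → X} (h : Inv g K ρ π v) (hi : π'.ine ⊆ π.ine) :
    Inv g K ρ π' v :=
  ⟨fun x hx => h.1 x (hx.mono (by exact_mod_cast hi)), fun x hx => h.2 x (hi hx)⟩

omit [Fintype X] [DecidableEq X] [Nonempty T] in
theorem Inv.upgrade (hP : NMet g.dist) {ρ ρ' : ℕ} (h1 : 1 ≤ ρ') (hd : ρ ∣ ρ') {π : Prof T}
    {v : T → X} (h : Inv g K ρ π v) : Inv g K ρ' π v := by
  obtain ⟨m, rfl⟩ := hd
  refine ⟨fun x => ?_, h.2⟩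
  have hm : 1 ≤ m := by
    rcases Nat.eq_zero_or_pos m with rfl | hm
    · simp at h1
    · exact hm
  rw [mul_comm]
  exact Rb_upgrade hP hm h.1 x

omit [Fintype X] [DecidableEq X] in
/-- the inert sites of the candidate are ever weak -/
theorem up_wk (hP : PercIn g A K r) {j i : ℕ} {π : Prof T} {v : T → X}
    (h : ∀ x ∈ π.ine, v x ∈ K x) : ∀ x ∈ (g.up A j i π v).ine, v x ∈ K x := by
  classical
  intro x hx
  have h1 : (g.up A j i π v).ine =
      π.ine ∪ weak A (g.sn j i + 1) v (π.act ∩ g.cell j (g.sL j i)) := rfl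
  rw [h1, mem_union] at hx
  rcases hx with hx | hx
  · exact h x hx
  · unfold weak at hx
    exact hP.wk _ _ x (mem_filter.1 hx).2

omit [Fintype X] [DecidableEq X] in
/-- the candidate differs from the current profile only in the cell -/
theorem up_off {j i : ℕ} {π : Prof T} {v : T → X} {x : T}
    (hx : x ∉ g.cell j (g.sL j i)) : x ∈ π.ine ↔ x ∈ (g.up A j i π v).ine := by
  classical
  have h1 : (g.up A j i π v).ine =
      π.ine ∪ weak A (g.sn j i + 1) v (π.act ∩ g.cell j (g.sL j i)) := rfl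
  rw [h1, mem_union]
  refine ⟨Or.inl, fun h => h.elim id fun h2 => ?_⟩
  unfold weak at h2
  exact absurd (mem_inter.1 (mem_filter.1 h2).1).2 hx

omit [Fintype X] [DecidableEq X] in
theorem inv_stp (hP : PercIn g A K r) {j i : ℕ} {c : Cur T} {v : T → X}
    (h : Inv g K (r j) c.pi v) : Inv g K (r j) (g.stp A j i c v).pi v := by
  classical
  unfold ANQ.Geo.stp
  split_ifs with h1 h2
  · exact h
  · exact ⟨hP.acc j i c.pi v h2, up_wk hP h.2⟩
  · exact h.mono (subset_refl _)

omit [Fintype X] [DecidableEq X] in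
theorem inv_cur (hP : PercIn g A K r) {j : ℕ} {S : St T} {v : T → X}
    (h : Inv g K (r j) S.pi v) (i : ℕ) : Inv g K (r j) (g.cur A j S v i).pi v := by
  induction i with
  | zero => exact h.mono (subset_refl _)
  | succ i ih => exact inv_stp hP ih

omit [Fintype X] [DecidableEq X] in
theorem inv_icur (hP : PercIn g A K r) {j : ℕ} {S : St T} {v : T → X}
    (h : Inv g K (r j) S.pi v) (k : ℕ) : Inv g K (r j) (g.icur A j S v k).pi v := by
  classical
  induction k with
  | zero => exact inv_cur hP h _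
  | succ k ih =>
    unfold ANQ.Geo.icur
    split_ifs with h1
    · unfold ANQ.Geo.istp
      split_ifs with h2
      · exact ih.mono sdiff_subset
      · exact ih
    · exact ih

omit [Fintype X] [DecidableEq X] in
theorem inv_next (hP : PercIn g A K r) {j : ℕ} {S : St T} {v : T → X}
    (h : Inv g K (r j) S.pi v) : Inv g K (r (j + 1)) (g.next A j S v).pi v :=
  ((inv_icur hP h (g.ni A j S v)).mono (π' := (g.next A j S v).pi) (subset_refl _)).upgrade
    hP.met (hP.r1 _) (hP.dvd j)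

omit [Fintype X] [DecidableEq X] in
/-- THE INVARIANT at the start of every super-stage -/
theorem inv_run (hP : PercIn g A K r) (j : ℕ) (v : T → X) :
    Inv g K (r j) (g.run A j v).pi v := by
  classical
  induction j with
  | zero =>
    have h0 : (g.run A 0 v).pi.ine = ∅ := by
      have h1 : (g.run A 0 v).pi.ine = weak A (g.lv 0) v univ := rfl
      rw [h1]
      unfold weak
      rw [filter_eq_empty_iff]
      exact fun x _ => hP.wk0 (v x)
    refine ⟨fun x => ?_, fun x hx => ?_⟩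
    · rw [h0, coe_empty]
      exact not_Rb_empty (hP.r1 0) x
    · rw [h0] at hx
      exact absurd hx (notMem_empty x)
  | succ j ih => exact inv_next hP ih

omit [Fintype X] [DecidableEq X] in
theorem inv_crun (hP : PercIn g A K r) (j i : ℕ) (v : T → X) :
    Inv g K (r j) (g.crun A j i v).pi v := inv_cur hP (inv_run hP j v) i

omit [Fintype X] [DecidableEq X] in
theorem inv_irun (hP : PercIn g A K r) (j k : ℕ) (v : T → X) :
    Inv g K (r j) (g.irun A j k v).pi v := inv_icur hP (inv_run hP j v) k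

/-- the percolation event near the cell `L`: a bad root near `L` for the ever weak sites -/
def PE (g : ANQ.Geo T) (K : T → Finset X) (r : ℕ → ℕ) (j : ℕ) (L : T) : Set (T → X) :=
  RbE g.dist (r j) K (g.nbhd (4 * r j) (g.cell j L))

omit [Fintype X] [DecidableEq X] in
/-- a bad root in the candidate gives the percolation event -/
theorem pe_of_bad (hP : PercIn g A K r) {j i : ℕ} {π : Prof T} {v : T → X}
    (h : Inv g K (r j) π v)
    (hb : ∃ x, Rb g.dist (r j) ((g.up A j i π v).ine : Set T) x) :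
    v ∈ PE g K r j (g.sL j i) := by
  obtain ⟨x, hx⟩ := hb
  have h1 : ∃ x, (∃ y ∈ (g.cell j (g.sL j i) : Set T), g.dist x y ≤ 4 * r j) ∧
      Rb g.dist (r j) ((g.up A j i π v).ine : Set T) x := by
    by_contra hc
    push Not at hc
    refine Rb_extend hP.met (S := (g.cell j (g.sL j i) : Set T))
      (W := (π.ine : Set T)) (W' := ((g.up A j i π v).ine : Set T)) ?_ h.1 ?_ x hx
    · intro y hy
      rw [mem_coe, mem_coe]
      exact up_off (fun h2 => hy (mem_coe.2 h2))
    · rintro y ⟨z, hz, hyz⟩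
      exact hc y ⟨z, hz, hyz⟩
  obtain ⟨y, ⟨z, hz, hyz⟩, h2⟩ := h1
  refine ⟨y, ANQ.Geo.mem_nbhd.2 ⟨z, mem_coe.1 hz, hyz⟩, h2.mono ?_⟩
  intro a ha
  exact up_wk hP h.2 a (mem_coe.1 ha)

omit [Fintype X] [DecidableEq X] in
/-- THE TWO KINDS OF REJECTIONS: `Acc'` is the analytic condition -/
theorem rej_split (hP : PercIn g A K r) {Acc' : ℕ → ℕ → Prof T → (T → X) → Prop}
    (hacc : ∀ j i π v, (∀ x, ¬ Rb g.dist (r j) ((g.up A j i π v).ine : Set T) x) →
      Acc' j i π v → A.ACC j i π v) {j i : ℕ} {v : T → X}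
    (h : g.Rej A j (g.run A j v) v i) :
    (g.sL j i ∉ (g.crun A j i v).fz ∧
      (∀ x, ¬ Rb g.dist (r j) ((g.up A j i (g.crun A j i v).pi v).ine : Set T) x) ∧
      ¬ Acc' j i (g.crun A j i v).pi v) ∨ v ∈ PE g K r j (g.sL j i) := by
  by_cases hb : ∃ x, Rb g.dist (r j) ((g.up A j i (g.crun A j i v).pi v).ine : Set T) x
  · exact Or.inr (pe_of_bad hP (inv_crun hP j i v) hb)
  · push Not at hb
    exact Or.inl ⟨h.1, hb, fun h1 => h.2 (hacc _ _ _ _ hb h1)⟩

omit [Nonempty T] in
/-- THE PRODUCT BOUND of the percolation events -/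
theorem perc_bound {w : T → X → ℝ} (hw : IsLaw w) (hmet : NMet g.dist) {q : ℝ}
    (hK : ∀ x, ∑ a ∈ K x, w x a ≤ q) (hq : 0 ≤ q) {V : ℕ} (hV1 : 1 ≤ V)
    (hV : ∀ x, (bl g.dist x).card ≤ V) {j Z : ℕ}
    (hcor : ∀ x, g.dist x (g.cor j x) ≤ g.side j)
    (hsep : 2 * (8 * r j + g.side j) ≤ g.sep j)
    (hZ : ∀ L, (g.nbhd (4 * r j) (g.cell j L)).card ≤ Z) {c : ℝ}
    (hc : 2 * Z * (8 * (V : ℝ) ^ 4 * q) ^ r j ≤ c) (C : Finset T)
    (hC : SepBy (g.sp j) C) :
    Pr w {u | ∀ L ∈ C, u ∈ PE g K r j L} ≤ c ^ C.card := by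
  classical
  have hq0 : 0 ≤ 2 * (Z : ℝ) * (8 * (V : ℝ) ^ 4 * q) ^ r j := by positivity
  have hc0 : 0 ≤ c := hq0.trans hc
  have hb : ANQ.Bx (fun _ : T => (Set.univ : Set X)) = Set.univ := by
    ext v
    simp [ANQ.Bx]
  have h1 := ANQ.Pr_prod_box hw (K := fun _ : T => (Set.univ : Set X)) C
    (fun L => g.nbhd (8 * r j) (g.cell j L)) (fun L => PE g K r j L) (fun _ => c)
    (fun _ _ => hc0) ?_ ?_ ?_
  · rw [hb, Set.inter_univ, ANP.Pr_univ hw, mul_one, prod_const] at h1
    exact h1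
  · intro L hL L' hL' hne
    have hs := (hC L hL L' hL' hne).2
    rw [Finset.disjoint_left]
    intro x hx hx'
    obtain ⟨y, hy, hxy⟩ := ANQ.Geo.mem_nbhd.1 hx
    obtain ⟨y', hy', hxy'⟩ := ANQ.Geo.mem_nbhd.1 hx'
    have e1 := hcor y
    rw [ANQ.Geo.mem_cell.1 hy] at e1
    have e2 := hcor y'
    rw [ANQ.Geo.mem_cell.1 hy'] at e2
    have t1 := hmet.tri L y L'
    have t2 := hmet.tri y x L'
    have t3 := hmet.tri x y' L'
    have s1 := hmet.symm L y
    have s2 := hmet.symm y x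
    omega
  · intro L _ v _ v' _ h
    refine RbE_dep hmet fun x hx y hxy => h y ?_
    obtain ⟨z, hz, hxz⟩ := ANQ.Geo.mem_nbhd.1 hx
    refine ANQ.Geo.mem_nbhd.2 ⟨z, hz, ?_⟩
    have t1 := hmet.tri y x z
    have s1 := hmet.symm y x
    omega
  · intro L _
    rw [hb, Set.inter_univ, ANP.Pr_univ hw, mul_one]
    refine (Pr_rb hw hK hq hV1 hV (r j) _).trans (le_trans ?_ hc)
    refine mul_le_mul_of_nonneg_right ?_ (by positivity)
    have := hZ L
    have h2 : ((g.nbhd (4 * r j) (g.cell j L)).card : ℝ) ≤ Z := by exact_mod_cast this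
    linarith

omit [Fintype X] [DecidableEq X] [Nonempty T] in
/-- THE CHAIN PROPERTY of the inert sites and of the holes at every time of super-stage `j` -/
theorem cp_profile (hm : NMet g.dist) (hg : ANM.Geo g.dist) (hs : Sep g.dist) {π : Prof T}
    {v : T → X} {ρ : ℕ} (hρ : 1 ≤ ρ) (h : Inv g K ρ π v) {κ : Type*} {D : κ → Set T}
    {gen : κ → ℕ} {gg J : ℕ} {d L L' : ℕ → ℕ} (hS : Sparse g.dist D gen gg J d L)
    (hL : ∀ i < gg, 2 * L' i + 2 * ρ ≤ L i)
    (hL' : ∀ i < gg, 2 ^ (i + 2) * (J + 1) * (d i + 2) ≤ L' i) :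
    CP g.dist (Sum.elim (pt (π.ine : Set T)) D) 4 (2 * cst gg J d + 2 * ρ) :=
  cp_inert hm hg hs hρ h.1 hS hL hL'

end Pool.Agent.ANB
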