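import Pool.Agent.ANB.Stride
import Pool.Agent.ANP.Defs
import Pool.Agent.Helper3.Anderson.OneVar

/-! # ANB REAL: from a real law to a finite dyadic law

`μ` a probability law with `GoodLaw μ M K`: supported in `[-M, M]`, density at most `K`.
* `ci M nf v` = index of the dyadic cell of level `nf` of `[-M, M]` which contains `v` (in `[0, 2 ^ nf)`, all `v`).
* `XC μ M nf` = indices of the cells with positive mass.  `cmap` = cell map `ℝ → XC` (junk value on a null set).
* `law0 hμ nf th ...  : Law0 (XC μ M nf)`: `p` = mass of the cell, `V` = barycentre of `μ` in the cell, `S = M`, `D = 2 M K`;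
  `law hμ nf m ..` : the law with the stride `m`, `S = 2 ^ (m - 1) M`, `D = 2 ^ (m - 1) (2 M K)`.
* `ae_cmap`: for `μ`-almost all `v`: `v ∈ [-M, M]`, `c (cmap v) = ci v`, `|v - V (cmap v)| ≤ 2 M / 2 ^ nf`.
* `Pr_eq`: the finite product probability of an event is the product measure of its preimage.
-/

set_option autoImplicit false

open Finset MeasureTheory
open scoped NNReal ENNReal

noncomputable section

namespace Pool.Agent.ANB

open Helper3.Anderson

/-- index of the dyadic cell -/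
def ci (M : ℝ) (nf : ℕ) (v : ℝ) : ℕ := min ⌊(v + M) * 2 ^ nf / (2 * M)⌋₊ (2 ^ nf - 1)

theorem ci_lt (M : ℝ) (nf : ℕ) (v : ℝ) : ci M nf v < 2 ^ nf := by
  unfold ci
  have h1 : 0 < 2 ^ nf := by positivity
  have h2 := min_le_right ⌊(v + M) * 2 ^ nf / (2 * M)⌋₊ (2 ^ nf - 1)
  omega

theorem measurable_ci (M : ℝ) (nf : ℕ) : Measurable (ci M nf) := by
  unfold ci
  refine Measurable.min ?_ measurable_const
  exact Nat.measurable_floor.comp (by fun_prop)

theorem ci_mem {M : ℝ} (hM : 0 < M) (nf : ℕ) {v : ℝ} (h1 : -M ≤ v) (h2 : v ≤ M) :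
    |v + M - 2 * M * ((ci M nf v : ℝ) + 1 / 2) / 2 ^ nf| ≤ M / 2 ^ nf := by
  have hp : (0 : ℝ) < 2 ^ nf := by positivity
  set y := (v + M) * 2 ^ nf / (2 * M) with hy
  have hy0 : 0 ≤ y := by
    have : 0 ≤ v + M := by linarith
    positivity
  have hy1 : y ≤ 2 ^ nf := by
    rw [hy, div_le_iff₀ (by positivity)]
    nlinarith
  have hv : v + M = 2 * M * y / 2 ^ nf := by
    rw [hy]
    field_simp
  have key : |y - ((ci M nf v : ℝ) + 1 / 2)| ≤ 1 / 2 := by
    have hN : ((2 ^ nf - 1 : ℕ) : ℝ) = 2 ^ nf - 1 := by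
      rw [Nat.cast_sub Nat.one_le_two_pow]
      push_cast
      ring
    unfold ci
    rw [← hy]
    rcases le_total ⌊y⌋₊ (2 ^ nf - 1) with h | h
    · rw [min_eq_left h]
      have h3 := Nat.floor_le hy0
      have h4 := Nat.lt_floor_add_one y
      rw [abs_le]
      constructor <;> linarith
    · rw [min_eq_right h, hN]
      have h3 := Nat.floor_le hy0
      have h5 : ((2 ^ nf - 1 : ℕ) : ℝ) ≤ (⌊y⌋₊ : ℝ) := by exact_mod_cast h
      rw [hN] at h5
      rw [abs_le]
      constructor <;> linarith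
  have h3 : v + M - 2 * M * ((ci M nf v : ℝ) + 1 / 2) / 2 ^ nf =
      2 * M / 2 ^ nf * (y - ((ci M nf v : ℝ) + 1 / 2)) := by
    rw [hv]
    ring
  rw [h3, abs_mul, abs_of_nonneg (by positivity : 0 ≤ 2 * M / 2 ^ nf)]
  calc 2 * M / 2 ^ nf * |y - ((ci M nf v : ℝ) + 1 / 2)| ≤ 2 * M / 2 ^ nf * (1 / 2) :=
        mul_le_mul_of_nonneg_left key (by positivity)
    _ = M / 2 ^ nf := by ring

/-- the cell of index `i` -/
def cs (M : ℝ) (nf i : ℕ) : Set ℝ := ci M nf ⁻¹' {i}

theorem measurableSet_cs (M : ℝ) (nf i : ℕ) : MeasurableSet (cs M nf i) :=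
  measurable_ci M nf (measurableSet_singleton i)

/-- the cells with positive mass -/
def XC (μ : Measure ℝ) (M : ℝ) (nf : ℕ) : Type :=
  {i : Fin (2 ^ nf) // 0 < μ.real (cs M nf i)}

variable {μ : Measure ℝ} {M : ℝ} {nf : ℕ}

instance : Finite (XC μ M nf) := by unfold XC; infer_instance

instance : Fintype (XC μ M nf) := Fintype.ofFinite _

instance : DecidableEq (XC μ M nf) := Classical.decEq _

instance : MeasurableSpace (XC μ M nf) := ⊤

instance : MeasurableSingletonClass (XC μ M nf) := ⟨fun _ => trivial⟩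

instance : DiscreteMeasurableSpace (XC μ M nf) := ⟨fun _ => trivial⟩

/-- the index -/
def xi (a : XC μ M nf) : ℕ := a.1.1

theorem xi_inj : Function.Injective (xi : XC μ M nf → ℕ) := fun _ _ h =>
  Subtype.ext (Fin.ext h)

/-- the mass -/
def xp (a : XC μ M nf) : ℝ := μ.real (cs M nf (xi a))

/-- the barycentre -/
def xV (a : XC μ M nf) : ℝ := (∫ v in cs M nf (xi a), v ∂μ) / xp a

theorem xp_pos (a : XC μ M nf) : 0 < xp a := a.2

/-- total mass of the cells -/
theorem sum_cells [IsProbabilityMeasure μ] (M : ℝ) (nf : ℕ) :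
    ∑ i ∈ Finset.range (2 ^ nf), μ.real (cs M nf i) = 1 := by
  have h1 : μ.real (⋃ i ∈ Finset.range (2 ^ nf), cs M nf i) =
      ∑ i ∈ Finset.range (2 ^ nf), μ.real (cs M nf i) := by
    refine measureReal_biUnion_finset ?_ fun i _ => measurableSet_cs M nf i
    intro i _ j _ hij
    refine Set.disjoint_left.2 fun v hv hv' => hij ?_
    exact (Set.mem_preimage.1 hv).symm.trans (Set.mem_preimage.1 hv')
  have h2 : (⋃ i ∈ Finset.range (2 ^ nf), cs M nf i) = Set.univ := by
    refine Set.eq_univ_of_forall fun v => ?_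
    exact Set.mem_iUnion₂.2 ⟨ci M nf v, Finset.mem_range.2 (ci_lt M nf v), rfl⟩
  rw [← h1, h2]
  simp

theorem sum_XC {β : Type} [AddCommMonoid β] (f : ℕ → β) :
    ∑ a : XC μ M nf, f (xi a) =
      ∑ i ∈ (Finset.range (2 ^ nf)).filter (fun i => 0 < μ.real (cs M nf i)), f i := by
  refine Finset.sum_bij (fun a _ => xi a) ?_ ?_ ?_ ?_
  · intro a _
    exact Finset.mem_filter.2 ⟨Finset.mem_range.2 a.1.2, a.2⟩
  · intro a _ b _ h
    exact xi_inj h
  · intro i hi
    rw [Finset.mem_filter, Finset.mem_range] at hi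
    exact ⟨⟨⟨i, hi.1⟩, hi.2⟩, Finset.mem_univ _, rfl⟩
  · intro a _
    rfl

theorem sum_xp [IsProbabilityMeasure μ] : ∑ a : XC μ M nf, xp a = 1 := by
  have h1 := sum_XC (μ := μ) (M := M) (nf := nf) (fun i => μ.real (cs M nf i))
  unfold xp
  rw [h1, ← sum_cells (μ := μ) M nf]
  refine Finset.sum_subset (Finset.filter_subset _ _) fun i hi hi' => ?_
  rw [Finset.mem_filter, not_and] at hi'
  have h2 := hi' hi
  exact le_antisymm (not_lt.1 h2) measureReal_nonneg

theorem Kpos {K : ℝ≥0} [IsProbabilityMeasure μ] (hμ : GoodLaw μ M K) : 1 ≤ 2 * M * (K : ℝ) := by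
  have h1 : μ (Set.Icc (-M) M) = 1 := by
    have := measure_compl (μ := μ) (s := Set.Icc (-M) M) measurableSet_Icc (measure_ne_top _ _)
    rw [hμ.supp, measure_univ] at this
    refine le_antisymm prob_le_one ?_
    exact tsub_eq_zero_iff_le.1 this.symm
  have h2 := hμ.dens (Set.Icc (-M) M)
  rw [h1, Measure.smul_apply, Real.volume_Icc, smul_eq_mul] at h2
  have hM := hμ.one_le
  have h3 : (1 : ℝ≥0∞).toReal ≤ ((K : ℝ≥0∞) * ENNReal.ofReal (M - -M)).toReal :=
    ENNReal.toReal_mono (ENNReal.mul_ne_top ENNReal.coe_ne_top ENNReal.ofReal_ne_top) h2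
  rw [ENNReal.toReal_one, ENNReal.toReal_mul, ENNReal.toReal_ofReal (by linarith),
    ENNReal.coe_toReal] at h3
  linarith

/-- a cell is contained in an interval of length `2 M / 2 ^ nf` up to points outside `[-M, M]` -/
theorem cs_le {K : ℝ≥0} [IsProbabilityMeasure μ] (hμ : GoodLaw μ M K) (i : ℕ) :
    μ.real (cs M nf i) ≤ 2 * M * K / 2 ^ nf := by
  have hM := hμ.one_le
  have hM0 : 0 < M := by linarith
  set x0 : ℝ := 2 * M * ((i : ℝ) + 1 / 2) / 2 ^ nf - M with hx0
  have h1 : cs M nf i ⊆ Set.Icc (x0 - M / 2 ^ nf) (x0 + M / 2 ^ nf) ∪ (Set.Icc (-M) M)ᶜ := by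
    intro v hv
    by_cases h : v ∈ Set.Icc (-M) M
    · left
      have h2 := ci_mem hM0 nf h.1 h.2
      have h3 : ci M nf v = i := hv
      rw [h3, abs_le] at h2
      rw [Set.mem_Icc, hx0]
      constructor <;> linarith [h2.1, h2.2]
    · right
      exact h
  have h2 : μ (cs M nf i) ≤ (K : ℝ≥0∞) * ENNReal.ofReal (2 * M / 2 ^ nf) := by
    refine (measure_mono h1).trans ((measure_union_le _ _).trans ?_)
    rw [hμ.supp, add_zero]
    refine (hμ.dens _).trans (le_of_eq ?_)
    rw [Measure.smul_apply, Real.volume_Icc, smul_eq_mul]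
    congr 2
    ring
  have h3 := ENNReal.toReal_mono
    (ENNReal.mul_ne_top ENNReal.coe_ne_top ENNReal.ofReal_ne_top) h2
  rw [ENNReal.toReal_mul, ENNReal.toReal_ofReal (by positivity), ENNReal.coe_toReal] at h3
  refine h3.trans (le_of_eq ?_)
  ring

theorem ae_supp {K : ℝ≥0} (hμ : GoodLaw μ M K) : ∀ᵐ v ∂μ, v ∈ Set.Icc (-M) M := by
  rw [ae_iff]
  exact hμ.supp

theorem xV_mem {K : ℝ≥0} [IsProbabilityMeasure μ] (hμ : GoodLaw μ M K) (a : XC μ M nf) :
    |xV a + M - 2 * M * ((xi a : ℝ) + 1 / 2) / 2 ^ nf| ≤ M / 2 ^ nf := by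
  have hM := hμ.one_le
  have hM0 : 0 < M := by linarith
  have hp := xp_pos a
  set t : ℝ := M - 2 * M * ((xi a : ℝ) + 1 / 2) / 2 ^ nf with ht
  have hae : ∀ᵐ v ∂(μ.restrict (cs M nf (xi a))), |v + t| ≤ M / 2 ^ nf := by
    have h1 : ∀ᵐ v ∂(μ.restrict (cs M nf (xi a))), v ∈ cs M nf (xi a) :=
      ae_restrict_mem (measurableSet_cs M nf _)
    have h2 : ∀ᵐ v ∂(μ.restrict (cs M nf (xi a))), v ∈ Set.Icc (-M) M :=
      ae_restrict_of_ae (ae_supp hμ)
    filter_upwards [h1, h2] with v hv1 hv2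
    have h3 := ci_mem hM0 nf hv2.1 hv2.2
    have h4 : ci M nf v = xi a := hv1
    rw [h4] at h3
    rw [ht]
    convert h3 using 2
    ring
  have hint : Integrable (fun v : ℝ => v) (μ.restrict (cs M nf (xi a))) := by
    refine Integrable.of_bound (C := M) (measurable_id.aestronglyMeasurable) ?_
    filter_upwards [ae_restrict_of_ae (ae_supp hμ)] with v hv
    rw [Real.norm_eq_abs, abs_le]
    exact ⟨hv.1, hv.2⟩
  have h1 : xV a + t = (∫ v in cs M nf (xi a), (v + t) ∂μ) / xp a := by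
    rw [integral_add hint (integrable_const _), integral_const]
    unfold xV
    have h2 : (μ.restrict (cs M nf (xi a))).real Set.univ = xp a := by
      rw [measureReal_restrict_apply_univ]
      rfl
    rw [h2, smul_eq_mul, add_div, mul_div_assoc]
    field_simp
  have h2 : |∫ v in cs M nf (xi a), (v + t) ∂μ| ≤ M / 2 ^ nf * xp a := by
    have h3 := norm_integral_le_of_norm_le_const (μ := μ.restrict (cs M nf (xi a)))
      (f := fun v => v + t) (C := M / 2 ^ nf) (by
        filter_upwards [hae] with v hv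
        rw [Real.norm_eq_abs]
        exact hv)
    rw [Real.norm_eq_abs, measureReal_restrict_apply_univ] at h3
    exact h3
  have h3 : xV a + M - 2 * M * ((xi a : ℝ) + 1 / 2) / 2 ^ nf = xV a + t := by rw [ht]; ring
  rw [h3, h1, abs_div, abs_of_pos hp, div_le_iff₀ hp]
  exact h2

/-- THE FINITE DYADIC LAW of `μ` -/
def law0 {K : ℝ≥0} [IsProbabilityMeasure μ] (hμ : GoodLaw μ M K) (nf : ℕ) (ep : ℝ) (th : ℕ → ℝ)
    (ep0 : 0 < ep) (anti : Antitone th) (the : ∀ n, ep ≤ th n) (th1 : th 0 < 1) :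
    Law0 (XC μ M nf) where
  nf := nf
  S := M
  D := 2 * M * K
  ep := ep
  th := th
  c := xi
  p := xp
  V := xV
  S0 := lt_of_lt_of_le one_pos hμ.one_le
  D0 := lt_of_lt_of_le one_pos (Kpos hμ)
  ep0 := ep0
  inj := xi_inj
  clt := fun a => a.1.2
  p0 := xp_pos
  p1 := sum_xp
  pD := fun a => cs_le hμ _
  Vc := xV_mem hμ
  anti := anti
  the := the
  th1 := th1

/-- THE FINITE DYADIC LAW of `μ` with the stride `m` -/
def law {K : ℝ≥0} [IsProbabilityMeasure μ] (hμ : GoodLaw μ M K) (nf m : ℕ) (m0 : 0 < m)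
    (dvd : m ∣ nf) (ep : ℝ) (th : ℕ → ℝ)
    (ep0 : 0 < ep) (anti : Antitone th) (the : ∀ n, ep ≤ th n) (th1 : th 0 < 1) :
    Law (XC μ M nf) where
  B := law0 hμ nf ep th ep0 anti the th1
  m := m
  m0 := m0
  dvd := dvd

instance [IsProbabilityMeasure μ] : Nonempty (XC μ M nf) := by
  by_contra h
  rw [not_nonempty_iff] at h
  have h1 := sum_xp (μ := μ) (M := M) (nf := nf)
  rw [Finset.univ_eq_empty, Finset.sum_empty] at h1
  exact zero_ne_one h1

open Classical in
/-- the cell map -/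
def cmap (μ : Measure ℝ) [IsProbabilityMeasure μ] (M : ℝ) (nf : ℕ) (v : ℝ) : XC μ M nf :=
  if h : 0 < μ.real (cs M nf (ci M nf v)) then ⟨⟨ci M nf v, ci_lt M nf v⟩, h⟩
  else Classical.arbitrary _

theorem xi_cmap [IsProbabilityMeasure μ] {v : ℝ} (h : 0 < μ.real (cs M nf (ci M nf v))) :
    xi (cmap μ M nf v) = ci M nf v := by
  unfold cmap
  rw [dif_pos h]
  rfl

theorem measurable_cmap [IsProbabilityMeasure μ] : Measurable (cmap μ M nf) := by
  have h1 : cmap μ M nf = (fun i : ℕ => (open Classical in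
      if h : i < 2 ^ nf ∧ 0 < μ.real (cs M nf i) then (⟨⟨i, h.1⟩, h.2⟩ : XC μ M nf)
      else (Classical.arbitrary (XC μ M nf) : XC μ M nf))) ∘ ci M nf := by
    funext v
    unfold cmap
    simp only [Function.comp_apply]
    by_cases h : 0 < μ.real (cs M nf (ci M nf v))
    · rw [dif_pos h, dif_pos ⟨ci_lt M nf v, h⟩]
    · rw [dif_neg h, dif_neg fun h2 => h h2.2]
  rw [h1]
  exact (measurable_of_countable _).comp (measurable_ci M nf)

theorem ae_pos [IsProbabilityMeasure μ] (M : ℝ) (nf : ℕ) :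
    ∀ᵐ v ∂μ, 0 < μ.real (cs M nf (ci M nf v)) := by
  rw [ae_iff]
  have h1 : {v | ¬ 0 < μ.real (cs M nf (ci M nf v))} ⊆
      ⋃ i ∈ {i : ℕ | μ (cs M nf i) = 0}, cs M nf i := by
    intro v hv
    refine Set.mem_iUnion₂.2 ⟨ci M nf v, ?_, rfl⟩
    have h2 : μ.real (cs M nf (ci M nf v)) = 0 :=
      le_antisymm (not_lt.1 hv) measureReal_nonneg
    rw [measureReal_def, ENNReal.toReal_eq_zero_iff] at h2
    rcases h2 with h2 | h2
    · exact h2
    · exact absurd h2 (measure_ne_top _ _)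
  refine measure_mono_null h1 ?_
  exact (measure_biUnion_null_iff (Set.to_countable _)).2 fun i hi => hi

/-- almost everywhere properties of the cell map -/
theorem ae_cmap {K : ℝ≥0} [IsProbabilityMeasure μ] (hμ : GoodLaw μ M K) (nf : ℕ) :
    ∀ᵐ v ∂μ, v ∈ Set.Icc (-M) M ∧ xi (cmap μ M nf v) = ci M nf v ∧
      |v - xV (cmap μ M nf v)| ≤ 2 * M / 2 ^ nf := by
  have hM := hμ.one_le
  have hM0 : 0 < M := by linarith
  filter_upwards [ae_supp hμ, ae_pos (μ := μ) M nf] with v hv1 hv2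
  have h1 := xi_cmap hv2
  refine ⟨hv1, h1, ?_⟩
  have h2 := ci_mem hM0 nf hv1.1 hv1.2
  have h3 := xV_mem hμ (cmap μ M nf v)
  rw [h1] at h3
  have h4 : v - xV (cmap μ M nf v) =
      (v + M - 2 * M * ((ci M nf v : ℝ) + 1 / 2) / 2 ^ nf) -
      (xV (cmap μ M nf v) + M - 2 * M * ((ci M nf v : ℝ) + 1 / 2) / 2 ^ nf) := by ring
  rw [h4]
  refine (abs_sub _ _).trans ?_
  have h5 : 2 * M / 2 ^ nf = M / 2 ^ nf + M / 2 ^ nf := by ring
  linarith

/-- image law of the cell map -/
theorem map_cmap [IsProbabilityMeasure μ] (a : XC μ M nf) :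
    μ (cmap μ M nf ⁻¹' {a}) = ENNReal.ofReal (xp a) := by
  have h1 : cmap μ M nf ⁻¹' {a} =ᵐ[μ] cs M nf (xi a) := by
    filter_upwards [ae_pos (μ := μ) M nf] with v hv
    have h2 : xi (cmap μ M nf v) = ci M nf v := xi_cmap hv
    have h3 : (v ∈ cmap μ M nf ⁻¹' {a}) ↔ (v ∈ cs M nf (xi a)) := by
      constructor
      · intro h4
        have h5 : cmap μ M nf v = a := h4
        change ci M nf v = xi a
        rw [← h2, h5]
      · intro h4
        have h5 : ci M nf v = xi a := h4
        change cmap μ M nf v = a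
        exact xi_inj (h2.trans h5)
    exact propext h3
  rw [measure_congr h1]
  unfold xp
  rw [measureReal_def, ENNReal.ofReal_toReal (measure_ne_top _ _)]

section pi

variable {Λ : Type} [Fintype Λ]

/-- configuration of cells -/
def cmapT (μ : Measure ℝ) [IsProbabilityMeasure μ] (M : ℝ) (nf : ℕ) (v : Λ → ℝ) :
    Λ → XC μ M nf := fun x => cmap μ M nf (v x)

omit [Fintype Λ] in
theorem measurable_cmapT [IsProbabilityMeasure μ] :
    Measurable (cmapT μ M nf : (Λ → ℝ) → Λ → XC μ M nf) :=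
  measurable_pi_lambda _ fun x => measurable_cmap.comp (measurable_pi_apply x)

omit [Fintype Λ] in
/-- the weights form a law -/
theorem isLaw_xp [IsProbabilityMeasure μ] :
    ANP.IsLaw (fun _ : Λ => (xp : XC μ M nf → ℝ)) where
  nonneg := fun _ a => (xp_pos a).le
  sum_one := fun _ => sum_xp

/-- TRANSFER: finite product probability = product measure -/
theorem Pr_eq [DecidableEq Λ] [IsProbabilityMeasure μ] (E : Set (Λ → XC μ M nf)) :
    ANP.Pr (fun _ : Λ => (xp : XC μ M nf → ℝ)) E =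
      (Measure.pi fun _ : Λ => μ).real (cmapT μ M nf ⁻¹' E) := by
  classical
  have h1 : cmapT μ M nf ⁻¹' E = ⋃ v ∈ univ.filter (fun v => v ∈ E),
      (cmapT μ M nf ⁻¹' {v} : Set (Λ → ℝ)) := by
    ext w
    simp
  rw [h1, measureReal_biUnion_finset]
  · unfold ANP.Pr
    refine Finset.sum_congr rfl fun v _ => ?_
    have h2 : (cmapT μ M nf ⁻¹' {v} : Set (Λ → ℝ)) =
        Set.pi Set.univ fun x => cmap μ M nf ⁻¹' {v x} := by
      ext w
      simp only [Set.mem_preimage, Set.mem_singleton_iff, Set.mem_pi, Set.mem_univ, true_imp_iff]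
      exact ⟨fun h x => by rw [← h]; rfl, fun h => funext fun x => h x⟩
    rw [h2, measureReal_def, Measure.pi_pi]
    unfold ANP.wt
    rw [Finset.prod_congr rfl fun x _ => map_cmap (v x), ENNReal.toReal_prod]
    exact Finset.prod_congr rfl fun x _ => (ENNReal.toReal_ofReal (xp_pos _).le).symm
  · intro v _ v' _ hne
    refine Set.disjoint_left.2 fun w hw hw' => hne ?_
    exact (Set.mem_singleton_iff.1 hw).symm.trans (Set.mem_singleton_iff.1 hw')
  · intro v _
    exact measurable_cmapT (measurableSet_singleton v)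

/-- almost every configuration: all potentials are near their barycentres -/
theorem ae_cmapT {K : ℝ≥0} [IsProbabilityMeasure μ] (hμ : GoodLaw μ M K) (nf : ℕ) :
    ∀ᵐ w ∂(Measure.pi fun _ : Λ => μ), ∀ x, w x ∈ Set.Icc (-M) M ∧
      xi (cmapT μ M nf w x) = ci M nf (w x) ∧
      |w x - xV (cmapT μ M nf w x)| ≤ 2 * M / 2 ^ nf := by
  rw [ae_all_iff]
  intro x
  exact (measurePreserving_eval (fun _ : Λ => μ) x).quasiMeasurePreserving.ae (ae_cmap hμ nf)

end pi

/-- nothing is weak when all cells are present and have the same mass (uniform law) -/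
theorem Law0.not_wk_of_uniform {X : Type} [Fintype X] (L : Law0 X)
    (h1 : ∀ i < 2 ^ L.nf, ∃ a, L.c a = i) (h2 : ∀ a, L.p a = 1 / 2 ^ L.nf) {n : ℕ}
    (hn : n ≤ L.nf) (a : X) : ¬ L.wk n a := by
  classical
  rintro ⟨l, hl, hw⟩
  have hlf : l ≤ L.nf := hl.trans hn
  unfold Law0.weak at hw
  have h3 : (1 : ℝ) / 2 ^ l ≤ L.cmass l (L.cell l a) := by
    unfold Law0.cmass
    set F := univ.filter (fun b => L.cell l b = L.cell l a) with hF
    have h4 : 2 ^ (L.nf - l) ≤ F.card := by
      have h5 : (Finset.range (2 ^ (L.nf - l))).card ≤ F.card := by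
        choose g hg using fun i : {i // i < 2 ^ L.nf} => h1 i.1 i.2
        set A := L.cell l a with hA
        have hAlt : ∀ j < 2 ^ (L.nf - l), 2 ^ (L.nf - l) * A + j < 2 ^ L.nf := by
          intro j hj
          have h6 : A < 2 ^ l := by
            rw [hA]
            unfold Law0.cell
            refine Nat.div_lt_of_lt_mul ?_
            rw [← pow_add]
            have : L.nf - l + l = L.nf := by omega
            rw [this]
            exact L.clt a
          have h7 : 2 ^ L.nf = 2 ^ (L.nf - l) * 2 ^ l := by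
            rw [← pow_add]; congr 1; omega
          rw [h7]
          calc 2 ^ (L.nf - l) * A + j < 2 ^ (L.nf - l) * A + 2 ^ (L.nf - l) := by omega
            _ = 2 ^ (L.nf - l) * (A + 1) := by ring
            _ ≤ 2 ^ (L.nf - l) * 2 ^ l := Nat.mul_le_mul_left _ h6
        refine Finset.card_le_card_of_injOn
          (fun j => if hj : j < 2 ^ (L.nf - l) then g ⟨2 ^ (L.nf - l) * A + j, hAlt j hj⟩ else a)
          ?_ ?_
        · intro j hj
          have hj' : j < 2 ^ (L.nf - l) := by simpa using hj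
          simp only [dif_pos hj']
          refine Finset.mem_coe.2 (Finset.mem_filter.2 ⟨Finset.mem_univ _, ?_⟩)
          change L.c _ / 2 ^ (L.nf - l) = A
          rw [hg]
          have hpos : 0 < 2 ^ (L.nf - l) := by positivity
          rw [Nat.mul_add_div hpos, Nat.div_eq_of_lt hj', add_zero]
        · intro j hj j' hj' h8
          have e1 : j < 2 ^ (L.nf - l) := by simpa using hj
          have e2 : j' < 2 ^ (L.nf - l) := by simpa using hj'
          simp only [dif_pos e1, dif_pos e2] at h8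
          have h9 := congrArg L.c h8
          rw [hg, hg] at h9
          simpa using h9
      simpa using h5
    have h5 : ((2 : ℝ) ^ (L.nf - l)) ≤ F.card := by exact_mod_cast h4
    calc (1 : ℝ) / 2 ^ l = 2 ^ (L.nf - l) * (1 / 2 ^ L.nf) := by
          have h6 : (2 : ℝ) ^ L.nf = 2 ^ (L.nf - l) * 2 ^ l := by
            rw [← pow_add]; congr 1; omega
          rw [h6]
          field_simp
      _ ≤ F.card * (1 / 2 ^ L.nf) := mul_le_mul_of_nonneg_right h5 (by positivity)
      _ = ∑ b ∈ F, L.p b := by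
          rw [Finset.sum_congr rfl fun b _ => h2 b, Finset.sum_const, nsmul_eq_mul]
  have h4 : L.th l / 2 ^ l ≤ 1 / 2 ^ l :=
    div_le_div_of_nonneg_right ((L.anti (Nat.zero_le l)).trans L.th1.le) (by positivity)
  linarith

end Pool.Agent.ANB
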