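import Pool.Agent.ANB.Cond

/-! # ANB SITE: the site law of the Anderson project for ALL bounded densities (finite version)

A `Law0 X` is a finite probability space: `X` = cells of the final dyadic level `nf` of `[-S, S]` which have positive mass,
`c a < 2 ^ nf` = index of the cell, `p a` = mass, `V a` = value (a point of the closed cell), masses bounded by the density
bound `D`: `p a ≤ D / 2 ^ nf`.  Thresholds `th n`, antitone, `ep ≤ th n`, `th 0 < 1`.

* `cell n a` = dyadic cell of level `n` above `a`; `weak n a`: the mass of this cell is `< th n / 2 ^ n`;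
  `wk n a`: some cell of level `≤ n` above `a` is weak; `ew a`: some cell of level `≤ nf` above `a` is weak.
* `q n` = THE DIGITS: the cell of level `n` as long as no cell of level `≤ n` above `a` is weak, and `a` itself (complete
  information) otherwise.  `fine`: `q (n+1)` is finer than `q n`; `q_top`: `q n` is injective for `n ≥ nf`.
* `h n a`, `kp n a` = conditional mean and variance of `V` given `q n` (without coupling constant).

Results (note /team-store/anb_h78.md section 3): `kp_zero` (inert sites), `kp_up`, `kp_low` (S1); `incr_le`, `mean_incr`, `var_incr`,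
`V_sub_h` (S2), `child` (conditional mean of `kp (n+1)` is at least `del * kp n`); `weak_mass` (S3); `om_ge` (S4); `conc` (S5).
-/

set_option autoImplicit false

open Finset

noncomputable section

namespace Pool.Agent.ANB

/-- finite dyadic law -/
structure Law0 (X : Type) [Fintype X] where
  nf : ℕ
  S : ℝ
  D : ℝ
  ep : ℝ
  th : ℕ → ℝ
  c : X → ℕ
  p : X → ℝ
  V : X → ℝ
  S0 : 0 < S
  D0 : 0 < D
  ep0 : 0 < ep
  inj : Function.Injective c
  clt : ∀ a, c a < 2 ^ nf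
  p0 : ∀ a, 0 < p a
  p1 : ∑ a, p a = 1
  pD : ∀ a, p a ≤ D / 2 ^ nf
  Vc : ∀ a, |V a + S - 2 * S * ((c a : ℝ) + 1 / 2) / 2 ^ nf| ≤ S / 2 ^ nf
  anti : Antitone th
  the : ∀ n, ep ≤ th n
  th1 : th 0 < 1

namespace Law0

variable {X : Type} [Fintype X] (L : Law0 X)

/-- the dyadic cell of level `n` -/
def cell (n : ℕ) (a : X) : ℕ := L.c a / 2 ^ (L.nf - n)

/-- the mass of a dyadic cell -/
def cmass (n i : ℕ) : ℝ := ∑ b ∈ univ.filter (fun b => L.cell n b = i), L.p b

/-- the cell of level `n` above `a` is weak -/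
def weak (n : ℕ) (a : X) : Prop := L.cmass n (L.cell n a) < L.th n / 2 ^ n

/-- some cell of level `≤ n` above `a` is weak -/
def wk (n : ℕ) (a : X) : Prop := ∃ l, l ≤ n ∧ L.weak l a

/-- some cell above `a` is weak -/
def ew (a : X) : Prop := L.wk L.nf a

open Classical in
/-- the digits -/
def q (n : ℕ) (a : X) : ℤ := if L.wk n a then -(L.c a : ℤ) - 1 else (L.cell n a : ℤ)

/-- conditional mean -/
def h (n : ℕ) (a : X) : ℝ := cE L.p (L.q n) L.V a

/-- conditional variance -/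
def kp (n : ℕ) (a : X) : ℝ := cV L.p (L.q n) L.V a

open Classical in
/-- probability, given the digits of level `n`, that no cell above the point is weak -/
def om (n : ℕ) (a : X) : ℝ := cE L.p (L.q n) (fun b => if L.ew b then 0 else 1) a

/-! ### cells -/

theorem cell_div {n : ℕ} (hn : n < L.nf) (a : X) : L.cell n a = L.cell (n + 1) a / 2 := by
  unfold cell
  rw [Nat.div_div_eq_div_mul, ← pow_succ]
  congr 2
  omega

theorem cell_anti {m n : ℕ} (hmn : m ≤ n) {a b : X} (h : L.cell n a = L.cell n b) :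
    L.cell m a = L.cell m b := by
  unfold cell at h ⊢
  have h1 : L.nf - m = (L.nf - n) + (min n L.nf - min m L.nf) := by omega
  rw [h1, pow_add, ← Nat.div_div_eq_div_mul, ← Nat.div_div_eq_div_mul, h]

theorem cell_top {n : ℕ} (hn : L.nf ≤ n) (a : X) : L.cell n a = L.c a := by
  unfold cell
  rw [Nat.sub_eq_zero_of_le hn, pow_zero, Nat.div_one]

theorem weak_congr {n : ℕ} {a b : X} (h : L.cell n a = L.cell n b) : L.weak n a ↔ L.weak n b := by
  unfold weak
  rw [h]

theorem wk_congr {n : ℕ} {a b : X} (h : L.cell n a = L.cell n b) : L.wk n a ↔ L.wk n b := by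
  constructor
  · rintro ⟨l, hl, hw⟩
    exact ⟨l, hl, (L.weak_congr (L.cell_anti hl h)).1 hw⟩
  · rintro ⟨l, hl, hw⟩
    exact ⟨l, hl, (L.weak_congr (L.cell_anti hl h)).2 hw⟩

theorem wk_mono {m n : ℕ} (hmn : m ≤ n) {a : X} (h : L.wk m a) : L.wk n a := by
  obtain ⟨l, hl, hw⟩ := h
  exact ⟨l, hl.trans hmn, hw⟩

/-- the classes -/
theorem q_eq {n : ℕ} {a b : X} (h : L.q n a = L.q n b) :
    (L.wk n a ∧ a = b) ∨ (¬ L.wk n a ∧ ¬ L.wk n b ∧ L.cell n a = L.cell n b) := by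
  unfold q at h
  by_cases ha : L.wk n a
  · rw [if_pos ha] at h
    by_cases hb : L.wk n b
    · rw [if_pos hb] at h
      left
      refine ⟨ha, L.inj ?_⟩
      omega
    · rw [if_neg hb] at h
      exfalso
      omega
  · rw [if_neg ha] at h
    by_cases hb : L.wk n b
    · rw [if_pos hb] at h
      exfalso
      omega
    · rw [if_neg hb] at h
      right
      exact ⟨ha, hb, by exact_mod_cast h⟩

theorem fine (n : ℕ) : Fine (L.q (n + 1)) (L.q n) := by
  intro a b h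
  rcases L.q_eq h with ⟨-, rfl⟩ | ⟨ha, hb, hc⟩
  · rfl
  · have h1 : L.cell n a = L.cell n b := L.cell_anti (Nat.le_succ n) hc
    unfold q
    rw [if_neg fun h2 => ha (L.wk_mono (Nat.le_succ n) h2),
      if_neg fun h2 => hb (L.wk_mono (Nat.le_succ n) h2), h1]

theorem fine_le {m n : ℕ} (hmn : m ≤ n) : Fine (L.q n) (L.q m) := by
  induction n, hmn using Nat.le_induction with
  | base => exact fun a b h => h
  | succ n _ ih => exact fun a b h => ih a b (L.fine n a b h)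

theorem q_top {n : ℕ} (hn : L.nf ≤ n) {a b : X} (h : L.q n a = L.q n b) : a = b := by
  rcases L.q_eq h with ⟨-, h⟩ | ⟨-, -, hc⟩
  · exact h
  · rw [L.cell_top hn, L.cell_top hn] at hc
    exact L.inj hc

theorem cl_wk {n : ℕ} {a : X} (h : L.wk n a) : cl (L.q n) a = {a} := by
  ext b
  rw [mem_cl, Finset.mem_singleton]
  constructor
  · intro hq
    rcases L.q_eq hq with ⟨-, h1⟩ | ⟨-, h2, -⟩
    · exact h1
    · exact absurd h h2
  · rintro rfl
    rfl

theorem cl_strong {n : ℕ} {a : X} (h : ¬ L.wk n a) :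
    cl (L.q n) a = univ.filter fun b => L.cell n b = L.cell n a := by
  ext b
  rw [mem_cl, Finset.mem_filter]
  constructor
  · intro hq
    rcases L.q_eq hq with ⟨-, rfl⟩ | ⟨-, -, h2⟩
    · exact ⟨Finset.mem_univ _, rfl⟩
    · exact ⟨Finset.mem_univ _, h2⟩
  · rintro ⟨-, h1⟩
    unfold q
    rw [if_neg h, if_neg fun h2 => h ((L.wk_congr h1).1 h2), h1]

theorem mem_cl_cell {n : ℕ} {a b : X} (h : b ∈ cl (L.q n) a) : L.cell n b = L.cell n a := by
  rcases L.q_eq (mem_cl.1 h) with ⟨-, rfl⟩ | ⟨-, -, h2⟩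
  · rfl
  · exact h2

theorem cm_strong {n : ℕ} {a : X} (h : ¬ L.wk n a) :
    cm L.p (L.q n) a = L.cmass n (L.cell n a) := by
  unfold cm cmass
  rw [L.cl_strong h]

/-- a strong class has mass at least `th n / 2 ^ n` -/
theorem mass_ge {n : ℕ} {a : X} (h : ¬ L.wk n a) : L.th n / 2 ^ n ≤ cm L.p (L.q n) a := by
  rw [L.cm_strong h]
  by_contra h1
  exact h ⟨n, le_rfl, not_le.1 h1⟩

/-! ### sizes -/

theorem c_sub {n : ℕ} {a b : X} (h : L.cell n a = L.cell n b) :
    |(L.c a : ℝ) - L.c b| ≤ 2 ^ (L.nf - n) - 1 := by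
  unfold cell at h
  have hk : 0 < 2 ^ (L.nf - n) := by positivity
  have h1 := Nat.div_add_mod (L.c a) (2 ^ (L.nf - n))
  have h2 := Nat.div_add_mod (L.c b) (2 ^ (L.nf - n))
  have h3 := Nat.mod_lt (L.c a) hk
  have h4 := Nat.mod_lt (L.c b) hk
  rw [h] at h1
  set K := 2 ^ (L.nf - n) with hK
  set A := K * (L.c b / K)
  have h5 : L.c a ≤ L.c b + (K - 1) := by omega
  have h6 : L.c b ≤ L.c a + (K - 1) := by omega
  have h7 : ((K - 1 : ℕ) : ℝ) = (2 : ℝ) ^ (L.nf - n) - 1 := by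
    rw [Nat.cast_sub (by omega : 1 ≤ K), hK]
    push_cast
    ring
  have h5' : (L.c a : ℝ) ≤ L.c b + ((K - 1 : ℕ) : ℝ) := by exact_mod_cast h5
  have h6' : (L.c b : ℝ) ≤ L.c a + ((K - 1 : ℕ) : ℝ) := by exact_mod_cast h6
  rw [h7] at h5' h6'
  rw [abs_sub_le_iff]
  constructor <;> linarith

theorem V_sub_V {n : ℕ} {a b : X} (h : L.cell n a = L.cell n b) :
    |L.V a - L.V b| ≤ 2 * L.S / 2 ^ n := by
  have hS := L.S0
  rcases le_total n L.nf with hn | hn
  · have h1 := L.c_sub h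
    have h2 := L.Vc a
    have h3 := L.Vc b
    have h4 : |2 * L.S / 2 ^ L.nf * ((L.c a : ℝ) - L.c b)| ≤
        2 * L.S / 2 ^ L.nf * (2 ^ (L.nf - n) - 1) := by
      rw [abs_mul, abs_of_nonneg (by positivity : 0 ≤ 2 * L.S / 2 ^ L.nf)]
      exact mul_le_mul_of_nonneg_left h1 (by positivity)
    have h5 : (2 : ℝ) ^ L.nf = 2 ^ (L.nf - n) * 2 ^ n := by
      rw [← pow_add]; congr 1; omega
    have h6 : 2 * L.S / 2 ^ L.nf * (2 ^ (L.nf - n) - 1) = 2 * L.S / 2 ^ n - 2 * L.S / 2 ^ L.nf := by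
      rw [h5]
      have : (2 : ℝ) ^ (L.nf - n) ≠ 0 := by positivity
      have : (2 : ℝ) ^ n ≠ 0 := by positivity
      field_simp
    rw [h6] at h4
    have h7 : L.V a - L.V b = (L.V a + L.S - 2 * L.S * ((L.c a : ℝ) + 1 / 2) / 2 ^ L.nf) -
        (L.V b + L.S - 2 * L.S * ((L.c b : ℝ) + 1 / 2) / 2 ^ L.nf) +
        2 * L.S / 2 ^ L.nf * ((L.c a : ℝ) - L.c b) := by
      field_simp
      ring
    have h8 : 2 * L.S / 2 ^ L.nf = L.S / 2 ^ L.nf + L.S / 2 ^ L.nf := by ring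
    rw [h7]
    refine (abs_add_le _ _).trans ?_
    refine (add_le_add (abs_sub _ _) le_rfl).trans ?_
    linarith
  · rw [L.cell_top hn, L.cell_top hn] at h
    rw [L.inj h, sub_self, abs_zero]
    positivity

theorem V_sub_h (n : ℕ) (a : X) : |L.V a - L.h n a| ≤ 2 * L.S / 2 ^ n := by
  rw [abs_sub_comm]
  unfold h
  exact abs_cE_sub_le L.p0 _ fun b hb => L.V_sub_V (L.mem_cl_cell hb)

/-- (S2): the increments are bounded -/
theorem incr_le {m n : ℕ} (hmn : m ≤ n) (a : X) : |L.h n a - L.h m a| ≤ 2 * L.S / 2 ^ m := by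
  unfold h
  refine abs_cE_sub_le L.p0 _ fun b hb => ?_
  have h1 : L.cell m b = L.cell m a := L.cell_anti hmn (L.mem_cl_cell hb)
  rw [abs_sub_comm]
  refine abs_cE_sub_le L.p0 _ fun b' hb' => ?_
  exact L.V_sub_V ((L.mem_cl_cell hb').trans h1.symm)

theorem kp_nonneg (n : ℕ) (a : X) : 0 ≤ L.kp n a := cV_nonneg L.p0 _ _ _

/-- (S1): upper bound -/
theorem kp_up (n : ℕ) (a : X) : L.kp n a ≤ (2 * L.S / 2 ^ n) ^ 2 := by
  unfold kp
  refine cV_le L.p0 _ fun b hb b' hb' => ?_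
  exact L.V_sub_V ((L.mem_cl_cell hb).trans (L.mem_cl_cell hb').symm)

/-- (S1): inert sites have no variance left -/
theorem kp_zero {n : ℕ} {a : X} (h : L.wk n a) : L.kp n a = 0 := by
  have h1 : L.kp n a ≤ 0 ^ 2 := by
    unfold kp
    refine cV_le L.p0 _ fun b hb b' hb' => ?_
    rw [L.cl_wk h, Finset.mem_singleton] at hb hb'
    rw [hb, hb', sub_self, abs_zero]
  have h2 := L.kp_nonneg n a
  rw [zero_pow two_ne_zero] at h1
  exact le_antisymm h1 h2

theorem h_wk {n : ℕ} {a : X} (h : L.wk n a) : L.h n a = L.V a := by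
  have h1 : |L.h n a - L.V a| ≤ 0 := by
    unfold Law0.h
    refine abs_cE_sub_le L.p0 _ fun b hb => ?_
    rw [L.cl_wk h, Finset.mem_singleton] at hb
    rw [hb, sub_self, abs_zero]
  exact sub_eq_zero.1 (abs_nonpos_iff.1 h1)

theorem h_top {n : ℕ} (hn : L.nf ≤ n) (a : X) : L.h n a = L.V a := by
  have h1 : |L.h n a - L.V a| ≤ 0 := by
    unfold Law0.h
    refine abs_cE_sub_le L.p0 _ fun b hb => ?_
    rw [L.q_top hn (mem_cl.1 hb), sub_self, abs_zero]
  exact sub_eq_zero.1 (abs_nonpos_iff.1 h1)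

theorem kp_top {n : ℕ} (hn : L.nf ≤ n) (a : X) : L.kp n a = 0 := by
  have h1 : L.kp n a ≤ 0 ^ 2 := by
    unfold kp
    refine cV_le L.p0 _ fun b hb b' hb' => ?_
    rw [L.q_top hn (mem_cl.1 hb), L.q_top hn (mem_cl.1 hb'), sub_self, abs_zero]
  have h2 := L.kp_nonneg n a
  rw [zero_pow two_ne_zero] at h1
  exact le_antisymm h1 h2

/-- (S2) -/
theorem mean_incr {m n : ℕ} (hmn : m ≤ n) (a : X) :
    cE L.p (L.q m) (fun b => L.h n b - L.h m a) a = 0 :=
  cE_incr L.p0 (L.fine_le hmn) L.V a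

/-- (S2) -/
theorem var_incr {m n : ℕ} (hmn : m ≤ n) (a : X) :
    cE L.p (L.q m) (fun b => (L.h n b - L.h m a) ^ 2) a =
      cE L.p (L.q m) (fun b => L.kp m a - L.kp n b) a :=
  cE_var' L.p0 (L.fine_le hmn) L.V a

/-- the conditional mean of the later variance is at most the variance -/
theorem kp_super {m n : ℕ} (hmn : m ≤ n) (a : X) :
    cE L.p (L.q m) (L.kp n) a ≤ L.kp m a := by
  have h1 := cE_var L.p0 (L.fine_le hmn) L.V a
  rw [cE_add] at h1
  have h2 : 0 ≤ cE L.p (L.q m) (fun b => (cE L.p (L.q n) L.V b - cE L.p (L.q m) L.V a) ^ 2) a :=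
    cE_nonneg L.p0 _ fun _ _ => sq_nonneg _
  have h3 : cE L.p (L.q m) (L.kp n) a = cE L.p (L.q m) (fun b => cV L.p (L.q n) L.V b) a := rfl
  have h4 : L.kp m a = cV L.p (L.q m) L.V a := rfl
  rw [h3, h4]
  linarith

/-! ### concentration -/

/-- number of integers in an interval -/
private theorem card_int_le (u r : ℝ) (hr : 0 ≤ r) :
    ((Finset.Icc ⌈u - r⌉ ⌊u + r⌋).card : ℝ) ≤ 2 * r + 1 := by
  rw [Int.card_Icc]
  have h1 : (⌊u + r⌋ : ℝ) ≤ u + r := Int.floor_le _
  have h2 : u - r ≤ (⌈u - r⌉ : ℝ) := Int.le_ceil _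
  rcases le_total 0 (⌊u + r⌋ + 1 - ⌈u - r⌉) with h | h
  · have h3 : (((⌊u + r⌋ + 1 - ⌈u - r⌉).toNat : ℤ) : ℝ) =
        ((⌊u + r⌋ + 1 - ⌈u - r⌉ : ℤ) : ℝ) := by rw [Int.toNat_of_nonneg h]
    have h4 : (((⌊u + r⌋ + 1 - ⌈u - r⌉).toNat : ℕ) : ℝ) =
        ((⌊u + r⌋ + 1 - ⌈u - r⌉ : ℤ) : ℝ) := by exact_mod_cast h3
    rw [h4]
    push_cast
    linarith
  · rw [Int.toNat_of_nonpos h, Nat.cast_zero]
    linarith

open Classical in
/-- mass of the points with value near `t` -/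
theorem near_mass (t : ℝ) {r : ℝ} (hr : 0 ≤ r) :
    ∑ b ∈ univ.filter (fun b => |L.V b - t| ≤ r), L.p b ≤ L.D * (r / L.S + 2 / 2 ^ L.nf) := by
  have hS := L.S0
  have hD := L.D0
  have h2n : (0 : ℝ) < 2 ^ L.nf := by positivity
  set u : ℝ := (t + L.S) * 2 ^ L.nf / (2 * L.S) - 1 / 2 with hu
  set ρ : ℝ := r * 2 ^ L.nf / (2 * L.S) + 1 / 2 with hρ
  have hρ0 : 0 ≤ ρ := by positivity
  set F := univ.filter (fun b => |L.V b - t| ≤ r) with hF
  have hcard : (F.card : ℝ) ≤ 2 * ρ + 1 := by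
    refine le_trans ?_ (card_int_le u ρ hρ0)
    have h1 : F.card ≤ (Finset.Icc ⌈u - ρ⌉ ⌊u + ρ⌋).card := by
      refine Finset.card_le_card_of_injOn (fun b => (L.c b : ℤ)) ?_ ?_
      · intro b hb
        rw [hF, Finset.coe_filter] at hb
        have hb1 : |L.V b - t| ≤ r := hb.2
        have hb2 := L.Vc b
        have h3 : |2 * L.S * ((L.c b : ℝ) + 1 / 2) / 2 ^ L.nf - (t + L.S)| ≤
            r + L.S / 2 ^ L.nf := by
          have h4 : 2 * L.S * ((L.c b : ℝ) + 1 / 2) / 2 ^ L.nf - (t + L.S) =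
              (L.V b - t) - (L.V b + L.S - 2 * L.S * ((L.c b : ℝ) + 1 / 2) / 2 ^ L.nf) := by ring
          rw [h4]
          exact (abs_sub _ _).trans (add_le_add hb1 hb2)
        have h5 : |(L.c b : ℝ) - u| ≤ ρ := by
          have h6 : (L.c b : ℝ) - u = 2 ^ L.nf / (2 * L.S) *
              (2 * L.S * ((L.c b : ℝ) + 1 / 2) / 2 ^ L.nf - (t + L.S)) := by
            rw [hu]
            field_simp
            ring
          rw [h6, abs_mul, abs_of_pos (by positivity : 0 < 2 ^ L.nf / (2 * L.S))]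
          refine (mul_le_mul_of_nonneg_left h3 (by positivity)).trans (le_of_eq ?_)
          rw [hρ]
          field_simp
        rw [abs_sub_le_iff] at h5
        simp only [Finset.coe_Icc, Set.mem_Icc]
        constructor
        · refine Int.ceil_le.2 ?_
          push_cast
          linarith [h5.2]
        · refine Int.le_floor.2 ?_
          push_cast
          linarith [h5.1]
      · intro b _ b' _ hbb
        have h7 : (L.c b : ℤ) = (L.c b' : ℤ) := hbb
        exact L.inj (by exact_mod_cast h7)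
    exact_mod_cast h1
  calc ∑ b ∈ F, L.p b ≤ ∑ _b ∈ F, L.D / 2 ^ L.nf := Finset.sum_le_sum fun b _ => L.pD b
    _ = F.card * (L.D / 2 ^ L.nf) := by rw [Finset.sum_const, nsmul_eq_mul]
    _ ≤ (2 * ρ + 1) * (L.D / 2 ^ L.nf) := mul_le_mul_of_nonneg_right hcard (by positivity)
    _ = L.D * (r / L.S + 2 / 2 ^ L.nf) := by
        rw [hρ]
        field_simp
        ring

open Classical in
/-- (S5): conditional concentration bound on a strong class (leak lemma) -/
theorem conc {n : ℕ} {a : X} (h : ¬ L.wk n a) (t : ℝ) {r : ℝ} (hr : 0 ≤ r) :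
    ∑ b ∈ (cl (L.q n) a).filter (fun b => |L.V b - t| ≤ r), L.p b ≤
      L.D / L.ep * (2 ^ n * r / L.S + 2 ^ (n + 1) / 2 ^ L.nf) * cm L.p (L.q n) a := by
  have hS := L.S0
  have hD := L.D0
  have hep := L.ep0
  have h1 : ∑ b ∈ (cl (L.q n) a).filter (fun b => |L.V b - t| ≤ r), L.p b ≤
      ∑ b ∈ univ.filter (fun b => |L.V b - t| ≤ r), L.p b :=
    Finset.sum_le_sum_of_subset_of_nonneg
      (Finset.filter_subset_filter _ (Finset.subset_univ _)) fun b _ _ => (L.p0 b).le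
  have h2 := L.near_mass t hr
  have h3 := L.mass_ge h
  have h4 := L.the n
  have h5 : L.ep / 2 ^ n ≤ cm L.p (L.q n) a :=
    (div_le_div_of_nonneg_right h4 (by positivity)).trans h3
  have h6 : 1 ≤ 2 ^ n / L.ep * cm L.p (L.q n) a := by
    rw [div_le_iff₀ (by positivity)] at h5
    rw [div_mul_eq_mul_div, le_div_iff₀ hep]
    linarith
  have h7 : 0 ≤ L.D * (r / L.S + 2 / 2 ^ L.nf) := by positivity
  calc _ ≤ L.D * (r / L.S + 2 / 2 ^ L.nf) := h1.trans h2
    _ = L.D * (r / L.S + 2 / 2 ^ L.nf) * 1 := (mul_one _).symm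
    _ ≤ L.D * (r / L.S + 2 / 2 ^ L.nf) * (2 ^ n / L.ep * cm L.p (L.q n) a) :=
        mul_le_mul_of_nonneg_left h6 h7
    _ = _ := by
        rw [pow_succ]
        field_simp

/-- (S1): lower bound of the variance of strong classes -/
theorem kp_low {n : ℕ} {a : X} (h : ¬ L.wk n a) (hn : 8 * L.D * 2 ^ n ≤ L.ep * 2 ^ L.nf) :
    (L.ep * L.S / (6 * L.D)) ^ 2 / 4 ^ n ≤ L.kp n a := by
  classical
  have hS := L.S0
  have hD := L.D0
  have hep := L.ep0
  set m := cm L.p (L.q n) a with hm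
  have hm0 : 0 < m := cm_pos L.p0 _ _
  have hmge : L.ep / 2 ^ n ≤ m :=
    (div_le_div_of_nonneg_right (L.the n) (by positivity)).trans (L.mass_ge h)
  set r := m * L.S / (4 * L.D) with hr
  have hr0 : 0 < r := by positivity
  set t := L.h n a with ht
  have h1 : L.kp n a * m = ∑ b ∈ cl (L.q n) a, L.p b * (L.V b - t) ^ 2 := by
    rw [hm]
    exact cE_mul_cm L.p0 _ _ _
  have hfar : m / 2 ≤ ∑ b ∈ (cl (L.q n) a).filter (fun b => ¬ |L.V b - t| ≤ r), L.p b := by
    have h2 : ∑ b ∈ (cl (L.q n) a).filter (fun b => |L.V b - t| ≤ r), L.p b +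
        ∑ b ∈ (cl (L.q n) a).filter (fun b => ¬ |L.V b - t| ≤ r), L.p b = m := by
      rw [Finset.sum_filter_add_sum_filter_not]
      rfl
    have h3 : ∑ b ∈ (cl (L.q n) a).filter (fun b => |L.V b - t| ≤ r), L.p b ≤
        L.D * (r / L.S + 2 / 2 ^ L.nf) :=
      (Finset.sum_le_sum_of_subset_of_nonneg
        (Finset.filter_subset_filter _ (Finset.subset_univ _)) fun b _ _ => (L.p0 b).le).trans
        (L.near_mass t hr0.le)
    have h4 : L.D * (r / L.S + 2 / 2 ^ L.nf) = m / 4 + 2 * L.D / 2 ^ L.nf := by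
      rw [hr]
      field_simp
    have h5 : 2 * L.D / 2 ^ L.nf ≤ m / 4 := by
      have h6 : 2 * L.D / 2 ^ L.nf ≤ L.ep / 2 ^ n / 4 := by
        rw [div_div, div_le_div_iff₀ (by positivity) (by positivity)]
        linarith
      linarith
    linarith
  have h7 : r ^ 2 * (m / 2) ≤ L.kp n a * m := by
    rw [h1]
    calc r ^ 2 * (m / 2) ≤ r ^ 2 *
        ∑ b ∈ (cl (L.q n) a).filter (fun b => ¬ |L.V b - t| ≤ r), L.p b :=
          mul_le_mul_of_nonneg_left hfar (sq_nonneg _)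
      _ = ∑ b ∈ (cl (L.q n) a).filter (fun b => ¬ |L.V b - t| ≤ r), L.p b * r ^ 2 := by
          rw [Finset.mul_sum]
          exact Finset.sum_congr rfl fun b _ => mul_comm _ _
      _ ≤ ∑ b ∈ (cl (L.q n) a).filter (fun b => ¬ |L.V b - t| ≤ r), L.p b * (L.V b - t) ^ 2 := by
          refine Finset.sum_le_sum fun b hb => mul_le_mul_of_nonneg_left ?_ (L.p0 b).le
          have h8 := not_le.1 (Finset.mem_filter.1 hb).2
          rw [← sq_abs (L.V b - t)]
          exact pow_le_pow_left₀ hr0.le h8.le 2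
      _ ≤ ∑ b ∈ cl (L.q n) a, L.p b * (L.V b - t) ^ 2 :=
          Finset.sum_le_sum_of_subset_of_nonneg (Finset.filter_subset _ _)
            fun b _ _ => mul_nonneg (L.p0 b).le (sq_nonneg _)
  have h8 : r ^ 2 / 2 ≤ L.kp n a := by
    have h9 : r ^ 2 / 2 * m ≤ L.kp n a * m := by linarith
    exact le_of_mul_le_mul_right h9 hm0
  refine le_trans ?_ h8
  have h9 : L.ep / 2 ^ n * L.S / (4 * L.D) ≤ r := by
    rw [hr]
    gcongr
  have h10 : (L.ep / 2 ^ n * L.S / (4 * L.D)) ^ 2 ≤ r ^ 2 := pow_le_pow_left₀ (by positivity) h9 2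
  have h11 : (L.ep * L.S / (6 * L.D)) ^ 2 / 4 ^ n ≤ (L.ep / 2 ^ n * L.S / (4 * L.D)) ^ 2 / 2 := by
    have h12 : (4 : ℝ) ^ n = (2 ^ n) ^ 2 := by
      rw [← pow_mul, mul_comm, pow_mul]; norm_num
    rw [h12]
    have h13 : (L.ep / 2 ^ n * L.S / (4 * L.D)) ^ 2 / 2 =
        (L.ep * L.S / L.D) ^ 2 / (2 ^ n) ^ 2 * (1 / 32) := by
      field_simp
      norm_num
    have h14 : (L.ep * L.S / (6 * L.D)) ^ 2 / (2 ^ n) ^ 2 =
        (L.ep * L.S / L.D) ^ 2 / (2 ^ n) ^ 2 * (1 / 36) := by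
      field_simp
      norm_num
    rw [h13, h14]
    exact mul_le_mul_of_nonneg_left (by norm_num) (by positivity)
  linarith

end Law0

end Pool.Agent.ANB
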