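import Pool.Agent.ANB.Weak

/-! # ANB STRIDE: the site law of the Anderson project, reading `m` dyadic levels at once (helper22)

`Law X` = a geometric law `B : Law0 X` together with a stride `m`, `m ∣ nf`.  The digits at time `n` are the dyadic digits of level
`sk n = m * (n / m)`: nothing is read at the step `n → n + 1` if `m` does not divide `n + 1`.  If `12 D₀ ≤ 2 ^ m ep` the remaining variance
never increases (`kp_anti`), so `ζ ≥ 0` always.  `S`, `D` are `2 ^ (m - 1)` times the geometric constants, so that the estimates keep the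
form which they have for `m = 1` (`m = 1`: the old law, nothing changes).
-/

set_option autoImplicit false

open Finset

noncomputable section

namespace Pool.Agent.ANB

/-- finite dyadic law with a stride -/
structure Law (X : Type) [Fintype X] where
  B : Law0 X
  m : ℕ
  m0 : 0 < m
  dvd : m ∣ B.nf

namespace Law

variable {X : Type} [Fintype X] (L : Law X)

/-- final level -/
def nf : ℕ := L.B.nf

/-- radius of the support, times `2 ^ (m - 1)` -/
def S : ℝ := 2 ^ (L.m - 1) * L.B.S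

/-- bound of the density, times `2 ^ (m - 1)` -/
def D : ℝ := 2 ^ (L.m - 1) * L.B.D

/-- lower bound of the thresholds -/
def ep : ℝ := L.B.ep

/-- thresholds -/
def th : ℕ → ℝ := L.B.th

/-- index of the cell -/
def c : X → ℕ := L.B.c

/-- masses -/
def p : X → ℝ := L.B.p

/-- values -/
def V : X → ℝ := L.B.V

theorem S0 : 0 < L.S := by
  unfold S
  have := L.B.S0
  positivity

theorem D0 : 0 < L.D := by
  unfold D
  have := L.B.D0
  positivity

theorem ep0 : 0 < L.ep := L.B.ep0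
theorem inj : Function.Injective L.c := L.B.inj
theorem clt (a : X) : L.c a < 2 ^ L.nf := L.B.clt a
theorem p0 (a : X) : 0 < L.p a := L.B.p0 a
theorem p1 : ∑ a, L.p a = 1 := L.B.p1
theorem anti : Antitone L.th := L.B.anti
theorem the (n : ℕ) : L.ep ≤ L.th n := L.B.the n
theorem th1 : L.th 0 < 1 := L.B.th1

theorem BS_le : L.B.S ≤ L.S := by
  unfold S
  have h1 : (1 : ℝ) ≤ 2 ^ (L.m - 1) := one_le_pow₀ (by norm_num)
  have := L.B.S0
  nlinarith

theorem BD_le : L.B.D ≤ L.D := by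
  unfold D
  have h1 : (1 : ℝ) ≤ 2 ^ (L.m - 1) := one_le_pow₀ (by norm_num)
  have := L.B.D0
  nlinarith

theorem DS : L.D / L.S = L.B.D / L.B.S := by
  unfold D S
  have h1 : (2 : ℝ) ^ (L.m - 1) ≠ 0 := by positivity
  have := L.B.S0.ne'
  field_simp

theorem SD : L.S / L.D = L.B.S / L.B.D := by
  unfold D S
  have h1 : (2 : ℝ) ^ (L.m - 1) ≠ 0 := by positivity
  have := L.B.D0.ne'
  field_simp

theorem pD (a : X) : L.p a ≤ L.D / 2 ^ L.nf :=
  (L.B.pD a).trans (div_le_div_of_nonneg_right L.BD_le (by positivity))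

/-! ### levels -/

/-- dyadic level of the digits at time `n` -/
def sk (n : ℕ) : ℕ := L.m * (n / L.m)

theorem sk_le (n : ℕ) : L.sk n ≤ n := Nat.mul_div_le n L.m

theorem sk_mono {a b : ℕ} (h : a ≤ b) : L.sk a ≤ L.sk b :=
  Nat.mul_le_mul_left _ (Nat.div_le_div_right h)

theorem le_sk (n : ℕ) : n ≤ L.sk n + (L.m - 1) := by
  have h1 := Nat.div_add_mod n L.m
  have h2 := Nat.mod_lt n L.m0
  unfold sk
  omega

theorem sk_nf : L.sk L.nf = L.nf := by
  unfold sk nf
  exact Nat.mul_div_cancel' L.dvd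

theorem nf_le_sk {n : ℕ} (hn : L.nf ≤ n) : L.nf ≤ L.sk n := by
  have := L.sk_mono hn
  rwa [L.sk_nf] at this

theorem sk_zero : L.sk 0 = 0 := by
  unfold sk
  simp

/-- at a multiple of `m` the level jumps by `m` -/
theorem sk_succ_dvd {n : ℕ} (h : L.m ∣ n + 1) : L.sk (n + 1) = n + 1 ∧ L.sk n + L.m = n + 1 := by
  obtain ⟨k, hk⟩ := h
  have hm := L.m0
  have h1 : L.sk (n + 1) = n + 1 := by
    unfold sk
    exact Nat.mul_div_cancel' ⟨k, hk⟩
  refine ⟨h1, ?_⟩
  have hk0 : 0 < k := by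
    rcases Nat.eq_zero_or_pos k with h | h
    · rw [h] at hk
      omega
    · exact h
  have h2 : n / L.m = k - 1 := by
    have h3 : n = L.m * (k - 1) + (L.m - 1) := by
      have : L.m * k = L.m * (k - 1) + L.m := by
        obtain ⟨j, rfl⟩ : ∃ j, k = j + 1 := ⟨k - 1, by omega⟩
        simp [Nat.mul_add]
      omega
    rw [h3, Nat.mul_add_div hm, Nat.div_eq_of_lt (by omega : L.m - 1 < L.m), add_zero]
  unfold sk
  rw [h2]
  obtain ⟨j, rfl⟩ : ∃ j, k = j + 1 := ⟨k - 1, by omega⟩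
  rw [hk]
  simp [Nat.mul_add]

/-- otherwise nothing happens -/
theorem sk_succ_not {n : ℕ} (h : ¬ L.m ∣ n + 1) : L.sk (n + 1) = L.sk n := by
  unfold sk
  congr 1
  exact Nat.succ_div_of_not_dvd h

theorem two_sk (n : ℕ) : (2 : ℝ) ^ n ≤ 2 ^ (L.m - 1) * 2 ^ L.sk n := by
  rw [← pow_add]
  refine pow_le_pow_right₀ (by norm_num) ?_
  have := L.le_sk n
  omega

theorem two_sk' (n : ℕ) : (2 : ℝ) ^ L.sk n ≤ 2 ^ n :=
  pow_le_pow_right₀ (by norm_num) (L.sk_le n)

/-- the scale -/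
theorem scale (n : ℕ) : 2 * L.B.S / 2 ^ L.sk n ≤ 2 * L.S / 2 ^ n := by
  have hS := L.B.S0
  rw [div_le_div_iff₀ (by positivity) (by positivity)]
  have h1 := L.two_sk n
  unfold S
  nlinarith

/-! ### digits -/

/-- the dyadic cell at time `n` -/
def cell (n : ℕ) (a : X) : ℕ := L.B.cell (L.sk n) a

/-- some cell above `a` is weak, time `n` -/
def wk (n : ℕ) (a : X) : Prop := L.B.wk (L.sk n) a

/-- some cell above `a` is weak -/
def ew (a : X) : Prop := L.wk L.nf a

/-- the digits at time `n` -/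
def q (n : ℕ) (a : X) : ℤ := L.B.q (L.sk n) a

/-- conditional mean -/
def h (n : ℕ) (a : X) : ℝ := cE L.p (L.q n) L.V a

/-- conditional variance -/
def kp (n : ℕ) (a : X) : ℝ := cV L.p (L.q n) L.V a

open Classical in
/-- probability, given the digits at time `n`, that no cell above the point is weak -/
def om (n : ℕ) (a : X) : ℝ := cE L.p (L.q n) (fun b => if L.ew b then 0 else 1) a

theorem ew_iff (a : X) : L.ew a ↔ L.B.ew a := by
  unfold ew wk Law0.ew
  rw [L.sk_nf]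
  rfl

theorem cell_anti {m n : ℕ} (hmn : m ≤ n) {a b : X} (h : L.cell n a = L.cell n b) :
    L.cell m a = L.cell m b := L.B.cell_anti (L.sk_mono hmn) h

theorem wk_congr {n : ℕ} {a b : X} (h : L.cell n a = L.cell n b) : L.wk n a ↔ L.wk n b :=
  L.B.wk_congr h

theorem wk_mono {m n : ℕ} (hmn : m ≤ n) {a : X} (h : L.wk m a) : L.wk n a :=
  L.B.wk_mono (L.sk_mono hmn) h

theorem q_eq {n : ℕ} {a b : X} (h : L.q n a = L.q n b) :
    (L.wk n a ∧ a = b) ∨ (¬ L.wk n a ∧ ¬ L.wk n b ∧ L.cell n a = L.cell n b) := L.B.q_eq h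

theorem fine_le {m n : ℕ} (hmn : m ≤ n) : Fine (L.q n) (L.q m) := L.B.fine_le (L.sk_mono hmn)

theorem fine (n : ℕ) : Fine (L.q (n + 1)) (L.q n) := L.fine_le (Nat.le_succ n)

theorem q_top {n : ℕ} (hn : L.nf ≤ n) {a b : X} (h : L.q n a = L.q n b) : a = b :=
  L.B.q_top (L.nf_le_sk hn) h

theorem cl_wk {n : ℕ} {a : X} (h : L.wk n a) : cl (L.q n) a = {a} := L.B.cl_wk h

theorem mem_cl_cell {n : ℕ} {a b : X} (h : b ∈ cl (L.q n) a) : L.cell n b = L.cell n a :=
  L.B.mem_cl_cell h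

theorem not_wk_zero (a : X) : ¬ L.wk 0 a := by
  unfold wk
  rw [L.sk_zero]
  exact L.B.not_wk_zero a

/-- a strong class has mass at least `th n / 2 ^ n` -/
theorem mass_ge {n : ℕ} {a : X} (h : ¬ L.wk n a) : L.th n / 2 ^ n ≤ cm L.p (L.q n) a := by
  refine le_trans ?_ (L.B.mass_ge h)
  have h1 : L.th n ≤ L.B.th (L.sk n) := L.B.anti (L.sk_le n)
  have h2 := L.two_sk' n
  have h3 : 0 ≤ L.th n := L.ep0.le.trans (L.the n)
  exact div_le_div₀ (h3.trans h1) h1 (by positivity) h2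

/-! ### sizes -/

theorem V_sub_V {n : ℕ} {a b : X} (h : L.cell n a = L.cell n b) :
    |L.V a - L.V b| ≤ 2 * L.S / 2 ^ n := (L.B.V_sub_V h).trans (L.scale n)

theorem V_sub_h (n : ℕ) (a : X) : |L.V a - L.h n a| ≤ 2 * L.S / 2 ^ n :=
  (L.B.V_sub_h (L.sk n) a).trans (L.scale n)

theorem incr_le {m n : ℕ} (hmn : m ≤ n) (a : X) : |L.h n a - L.h m a| ≤ 2 * L.S / 2 ^ m :=
  (L.B.incr_le (L.sk_mono hmn) a).trans (L.scale m)

theorem kp_nonneg (n : ℕ) (a : X) : 0 ≤ L.kp n a := cV_nonneg L.p0 _ _ _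

/-- (S1): upper bound -/
theorem kp_up (n : ℕ) (a : X) : L.kp n a ≤ (2 * L.S / 2 ^ n) ^ 2 := by
  refine (L.B.kp_up (L.sk n) a).trans ?_
  have := L.B.S0
  exact pow_le_pow_left₀ (by positivity) (L.scale n) 2

theorem kp_zero {n : ℕ} {a : X} (h : L.wk n a) : L.kp n a = 0 := L.B.kp_zero h

theorem h_wk {n : ℕ} {a : X} (h : L.wk n a) : L.h n a = L.V a := L.B.h_wk h

theorem h_top {n : ℕ} (hn : L.nf ≤ n) (a : X) : L.h n a = L.V a := L.B.h_top (L.nf_le_sk hn) a

theorem kp_top {n : ℕ} (hn : L.nf ≤ n) (a : X) : L.kp n a = 0 := L.B.kp_top (L.nf_le_sk hn) a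

/-- (S2) -/
theorem mean_incr {m n : ℕ} (hmn : m ≤ n) (a : X) :
    cE L.p (L.q m) (fun b => L.h n b - L.h m a) a = 0 := L.B.mean_incr (L.sk_mono hmn) a

/-- (S2) -/
theorem var_incr {m n : ℕ} (hmn : m ≤ n) (a : X) :
    cE L.p (L.q m) (fun b => (L.h n b - L.h m a) ^ 2) a =
      cE L.p (L.q m) (fun b => L.kp m a - L.kp n b) a := L.B.var_incr (L.sk_mono hmn) a

/-- the conditional mean of the later variance is at most the variance -/
theorem kp_super {m n : ℕ} (hmn : m ≤ n) (a : X) :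
    cE L.p (L.q m) (L.kp n) a ≤ L.kp m a := L.B.kp_super (L.sk_mono hmn) a

open Classical in
/-- mass of the points with value near `t` -/
theorem near_mass (t : ℝ) {r : ℝ} (hr : 0 ≤ r) :
    ∑ b ∈ univ.filter (fun b => |L.V b - t| ≤ r), L.p b ≤ L.D * (r / L.S + 2 / 2 ^ L.nf) := by
  refine (L.B.near_mass t hr).trans ?_
  have h1 : L.D * (r / L.S + 2 / 2 ^ L.nf) = L.D / L.S * r + L.D * (2 / 2 ^ L.nf) := by
    have := L.S0.ne'
    field_simp
  have h2 : L.B.D * (r / L.B.S + 2 / 2 ^ L.B.nf) =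
      L.B.D / L.B.S * r + L.B.D * (2 / 2 ^ L.B.nf) := by
    have := L.B.S0.ne'
    field_simp
  rw [h1, h2, L.DS]
  exact add_le_add le_rfl (mul_le_mul_of_nonneg_right L.BD_le (by positivity))

open Classical in
/-- (S5): conditional concentration bound on a strong class (leak lemma) -/
theorem conc {n : ℕ} {a : X} (h : ¬ L.wk n a) (t : ℝ) {r : ℝ} (hr : 0 ≤ r) :
    ∑ b ∈ (cl (L.q n) a).filter (fun b => |L.V b - t| ≤ r), L.p b ≤
      L.D / L.ep * (2 ^ n * r / L.S + 2 ^ (n + 1) / 2 ^ L.nf) * cm L.p (L.q n) a := by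
  have hS := L.S0
  have hD := L.D0
  have hep := L.ep0
  have h1 : ∑ b ∈ (cl (L.q n) a).filter (fun b => |L.V b - t| ≤ r), L.p b ≤
      ∑ b ∈ univ.filter (fun b => |L.V b - t| ≤ r), L.p b :=
    Finset.sum_le_sum_of_subset_of_nonneg
      (Finset.filter_subset_filter _ (Finset.subset_univ _)) fun b _ _ => (L.p0 b).le
  have h2 := L.near_mass t hr
  have h3 := L.mass_ge h
  have h4 := L.the n
  have h5 : L.ep / 2 ^ n ≤ cm L.p (L.q n) a :=
    (div_le_div_of_nonneg_right h4 (by positivity)).trans h3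
  have h6 : 1 ≤ 2 ^ n / L.ep * cm L.p (L.q n) a := by
    rw [div_le_iff₀ (by positivity)] at h5
    rw [div_mul_eq_mul_div, le_div_iff₀ hep]
    linarith
  have h7 : 0 ≤ L.D * (r / L.S + 2 / 2 ^ L.nf) := by positivity
  calc _ ≤ L.D * (r / L.S + 2 / 2 ^ L.nf) := h1.trans h2
    _ = L.D * (r / L.S + 2 / 2 ^ L.nf) * 1 := (mul_one _).symm
    _ ≤ L.D * (r / L.S + 2 / 2 ^ L.nf) * (2 ^ n / L.ep * cm L.p (L.q n) a) :=
        mul_le_mul_of_nonneg_left h6 h7
    _ = _ := by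
        rw [pow_succ]
        field_simp

/-- (S1): lower bound of the variance of strong classes, geometric constants -/
theorem kp_low0 {n : ℕ} {a : X} (h : ¬ L.wk n a) (hn : 8 * L.D * 2 ^ n ≤ L.ep * 2 ^ L.nf) :
    (L.B.ep * L.B.S / (6 * L.B.D)) ^ 2 / 4 ^ L.sk n ≤ L.kp n a := by
  refine L.B.kp_low h ?_
  refine le_trans ?_ hn
  have h1 := L.BD_le
  have h2 := L.two_sk' n
  have h3 := L.B.D0
  have h4 : L.B.D * 2 ^ L.sk n ≤ L.D * 2 ^ n := mul_le_mul h1 h2 (by positivity) L.D0.le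
  linarith

/-- (S1): lower bound of the variance of strong classes -/
theorem kp_low {n : ℕ} {a : X} (h : ¬ L.wk n a) (hn : 8 * L.D * 2 ^ n ≤ L.ep * 2 ^ L.nf) :
    (L.ep * L.S / (6 * L.D)) ^ 2 / 4 ^ n ≤ L.kp n a := by
  refine le_trans ?_ (L.kp_low0 h hn)
  have h1 : L.ep * L.S / (6 * L.D) = L.B.ep * L.B.S / (6 * L.B.D) := by
    have h2 := L.SD
    calc L.ep * L.S / (6 * L.D) = L.ep / 6 * (L.S / L.D) := by
          have := L.D0.ne'
          field_simp
      _ = L.B.ep / 6 * (L.B.S / L.B.D) := by rw [h2]; rfl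
      _ = _ := by
          have := L.B.D0.ne'
          field_simp
  rw [h1]
  refine div_le_div_of_nonneg_left (sq_nonneg _) (by positivity) ?_
  exact pow_le_pow_right₀ (by norm_num) (L.sk_le n)

/-! ### the variance does not increase -/

theorem kp_succ_not {n : ℕ} (h : ¬ L.m ∣ n + 1) (a : X) : L.kp (n + 1) a = L.kp n a := by
  unfold kp q
  rw [L.sk_succ_not h]

theorem q_succ_not {n : ℕ} (h : ¬ L.m ∣ n + 1) : L.q (n + 1) = L.q n := by
  funext a
  unfold q
  rw [L.sk_succ_not h]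

theorem wk_succ_not {n : ℕ} (h : ¬ L.m ∣ n + 1) (a : X) : L.wk (n + 1) a ↔ L.wk n a := by
  unfold wk
  rw [L.sk_succ_not h]

/-- comparison of the scales of a strong class and of its successors -/
theorem jump_scale {n : ℕ} (h : L.m ∣ n + 1) :
    (2 * L.B.S / 2 ^ L.sk (n + 1)) ^ 2 =
      (2 ^ 2 * L.B.S ^ 2 / 4 ^ L.m) / 4 ^ L.sk n := by
  obtain ⟨h1, h2⟩ := L.sk_succ_dvd h
  have h3 : L.sk (n + 1) = L.sk n + L.m := by omega
  have h4 : ∀ k : ℕ, ((2 : ℝ) ^ k) ^ 2 = 4 ^ k := fun k => by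
    rw [← pow_mul, mul_comm, pow_mul]
    norm_num
  rw [h3, div_pow, mul_pow, h4, pow_add]
  field_simp

/-- THE VARIANCE NEVER INCREASES -/
theorem kp_anti (hm : 12 * L.B.D ≤ 2 ^ L.m * L.B.ep) {n : ℕ}
    (hn : 8 * L.D * 2 ^ n ≤ L.ep * 2 ^ L.nf) (a : X) : L.kp (n + 1) a ≤ L.kp n a := by
  by_cases hd : L.m ∣ n + 1
  · by_cases hw : L.wk n a
    · rw [L.kp_zero (L.wk_mono (Nat.le_succ n) hw)]
      exact L.kp_nonneg n a
    · refine le_trans (L.B.kp_up (L.sk (n + 1)) a) (le_trans ?_ (L.kp_low0 hw hn))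
      rw [L.jump_scale hd]
      refine div_le_div_of_nonneg_right ?_ (by positivity)
      have hS := L.B.S0
      have hD := L.B.D0
      have hep := L.B.ep0
      have h4 : (4 : ℝ) ^ L.m = (2 ^ L.m) ^ 2 := by
        rw [← pow_mul, mul_comm, pow_mul]
        norm_num
      rw [h4, div_le_iff₀ (by positivity)]
      have h5 : 2 * L.B.S ≤ L.B.ep * L.B.S / (6 * L.B.D) * 2 ^ L.m := by
        rw [div_mul_eq_mul_div, le_div_iff₀ (by positivity)]
        nlinarith
      have h6 : (2 * L.B.S) ^ 2 ≤ (L.B.ep * L.B.S / (6 * L.B.D) * 2 ^ L.m) ^ 2 :=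
        pow_le_pow_left₀ (by positivity) h5 2
      calc 2 ^ 2 * L.B.S ^ 2 = (2 * L.B.S) ^ 2 := by ring
        _ ≤ _ := h6
        _ = (L.B.ep * L.B.S / (6 * L.B.D)) ^ 2 * (2 ^ L.m) ^ 2 := by ring
  · rw [L.kp_succ_not hd]

/-- strictly smaller at the successors of a strong class -/
theorem kp_lt (hm : 12 * L.B.D < 2 ^ L.m * L.B.ep) {n : ℕ}
    (hn : 8 * L.D * 2 ^ n ≤ L.ep * 2 ^ L.nf) (hd : L.m ∣ n + 1) {a : X} (hw : ¬ L.wk n a) :
    L.kp (n + 1) a < L.kp n a := by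
  refine lt_of_le_of_lt (L.B.kp_up (L.sk (n + 1)) a) (lt_of_lt_of_le ?_ (L.kp_low0 hw hn))
  rw [L.jump_scale hd]
  refine div_lt_div_of_pos_right ?_ (by positivity)
  have hS := L.B.S0
  have hD := L.B.D0
  have hep := L.B.ep0
  have h4 : (4 : ℝ) ^ L.m = (2 ^ L.m) ^ 2 := by
    rw [← pow_mul, mul_comm, pow_mul]
    norm_num
  rw [h4, div_lt_iff₀ (by positivity)]
  have h5 : 2 * L.B.S < L.B.ep * L.B.S / (6 * L.B.D) * 2 ^ L.m := by
    rw [div_mul_eq_mul_div, lt_div_iff₀ (by positivity)]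
    nlinarith
  have h6 : (2 * L.B.S) ^ 2 < (L.B.ep * L.B.S / (6 * L.B.D) * 2 ^ L.m) ^ 2 :=
    pow_lt_pow_left₀ h5 (by positivity) two_ne_zero
  calc 2 ^ 2 * L.B.S ^ 2 = (2 * L.B.S) ^ 2 := by ring
    _ < _ := h6
    _ = (L.B.ep * L.B.S / (6 * L.B.D)) ^ 2 * (2 ^ L.m) ^ 2 := by ring

/-! ### weak points -/

/-- total mass of the points which are ever weak -/
theorem weak_mass : ∑ b, (open Classical in if L.ew b then L.p b else 0) ≤ L.th 0 := by
  classical
  refine le_trans (le_of_eq ?_) L.B.weak_mass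
  refine Finset.sum_congr rfl fun b _ => ?_
  by_cases h : L.ew b
  · rw [if_pos h, if_pos ((L.ew_iff b).1 h)]
    rfl
  · rw [if_neg h, if_neg fun h1 => h ((L.ew_iff b).2 h1)]

theorem ew_of_wk {n : ℕ} (hn : n ≤ L.nf) {a : X} (h : L.wk n a) : L.ew a := L.wk_mono hn h

theorem om_nonneg (n : ℕ) (a : X) : 0 ≤ L.om n a := by
  classical
  refine cE_nonneg L.p0 _ fun b _ => ?_
  split_ifs
  · exact le_rfl
  · exact zero_le_one

theorem om_le_one (n : ℕ) (a : X) : L.om n a ≤ 1 := by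
  classical
  refine cE_le L.p0 _ fun b _ => ?_
  split_ifs
  · exact zero_le_one
  · exact le_rfl

theorem om_wk {n : ℕ} (hn : n ≤ L.nf) {a : X} (h : L.wk n a) : L.om n a = 0 := by
  classical
  have h1 : L.om n a ≤ 0 := by
    refine cE_le L.p0 _ fun b hb => ?_
    rw [L.cl_wk h, Finset.mem_singleton] at hb
    rw [hb, if_pos (L.ew_of_wk hn h)]
  exact le_antisymm h1 (L.om_nonneg n a)

theorem om_tower {m n : ℕ} (hmn : m ≤ n) (a : X) :
    cE L.p (L.q m) (L.om n) a = L.om m a :=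
  cE_tower L.p0 (L.fine_le hmn) _ a

theorem om_eq (n : ℕ) (a : X) : L.om n a = L.B.om (L.sk n) a := by
  classical
  unfold om Law0.om
  refine cE_congr_fun L.p (L.q n) fun b _ => ?_
  by_cases h : L.ew b
  · rw [if_pos h, if_pos ((L.ew_iff b).1 h)]
  · rw [if_neg h, if_neg fun h1 => h ((L.ew_iff b).2 h1)]

/-- (S4) -/
theorem om_ge {n : ℕ} (hn : n < L.nf) {a : X} (h : ¬ L.wk n a) :
    1 - L.th (L.sk n + 1) / L.th (L.sk n) ≤ L.om n a := by
  rw [L.om_eq]
  exact L.B.om_ge (lt_of_le_of_lt (L.sk_le n) hn) h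

/-! ### conditional probability to be strong later -/

open Classical in
/-- probability, given the class at time `n`, that no cell at time `≤ K` above the point is weak -/
def pS (K n : ℕ) (a : X) : ℝ := cE L.p (L.q n) (fun b => if L.wk K b then 0 else 1) a

theorem pS_nonneg (K n : ℕ) (a : X) : 0 ≤ L.pS K n a := by
  classical
  refine cE_nonneg L.p0 _ fun b _ => ?_
  split_ifs
  · exact le_rfl
  · exact zero_le_one

theorem pS_le_one (K n : ℕ) (a : X) : L.pS K n a ≤ 1 := by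
  classical
  refine cE_le L.p0 _ fun b _ => ?_
  split_ifs
  · exact zero_le_one
  · exact le_rfl

theorem pS_tower (K : ℕ) {m n : ℕ} (hmn : m ≤ n) (a : X) :
    cE L.p (L.q m) (L.pS K n) a = L.pS K m a :=
  cE_tower L.p0 (L.fine_le hmn) _ a

/-- DECREASING in `K` -/
theorem pS_anti {K K' : ℕ} (h : K ≤ K') (n : ℕ) (a : X) : L.pS K' n a ≤ L.pS K n a := by
  classical
  refine cE_mono L.p0 _ fun b _ => ?_
  by_cases hb : L.wk K b
  · rw [if_pos (L.wk_mono h hb), if_pos hb]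
  · rw [if_neg hb]
    split_ifs
    · exact zero_le_one
    · exact le_rfl

theorem pS_zero {K n : ℕ} (hnK : n ≤ K) {a : X} (h : L.wk n a) : L.pS K n a = 0 := by
  classical
  have h1 : L.pS K n a ≤ 0 := by
    refine cE_le L.p0 _ fun b hb => ?_
    rw [L.cl_wk h, Finset.mem_singleton] at hb
    rw [hb, if_pos (L.wk_mono hnK h)]
  exact le_antisymm h1 (L.pS_nonneg K n a)

theorem pS_self {n : ℕ} {a : X} (h : ¬ L.wk n a) : L.pS n n a = 1 := by
  classical
  have h1 : (1 : ℝ) ≤ L.pS n n a := by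
    refine le_cE L.p0 _ fun b hb => ?_
    rcases L.q_eq (mem_cl.1 hb) with ⟨hw, hba⟩ | ⟨hw, -, -⟩
    · rw [hba] at hw
      exact absurd hw h
    · rw [if_neg hw]
  exact le_antisymm (L.pS_le_one n n a) h1

end Law

open Classical in
/-- geometric law: iterated heavy children -/
theorem Law0.pS_ge {X : Type} [Fintype X] (L : Law0 X) (j : ℕ) :
    ∀ n, n + j ≤ L.nf → ∀ a, ¬ L.wk n a →
      (1 / 2 : ℝ) ^ j ≤ cE L.p (L.q n) (fun b => if L.wk (n + j) b then 0 else 1) a := by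
  induction j with
  | zero =>
    intro n _ a ha
    rw [pow_zero]
    refine le_cE L.p0 _ fun b hb => ?_
    rcases L.q_eq (mem_cl.1 hb) with ⟨hw, hba⟩ | ⟨hw, -, -⟩
    · rw [hba] at hw
      exact absurd hw ha
    · rw [add_zero, if_neg hw]
  | succ j ih =>
    intro n hn a ha
    obtain ⟨b, hb, hw, hm⟩ := L.heavy (by omega) ha
    have hpos := cm_pos L.p0 (L.q n) a
    have h1 := ih (n + 1) (by omega) b hw
    have hsub : cl (L.q (n + 1)) b ⊆ cl (L.q n) a := by
      intro c hc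
      exact mem_cl.2 ((L.fine n c b (mem_cl.1 hc)).trans (mem_cl.1 hb))
    have e : n + 1 + j = n + (j + 1) := by omega
    rw [e] at h1
    have hcm : 0 ≤ cm L.p (L.q (n + 1)) b := (cm_pos L.p0 _ _).le
    have h2 : (1 / 2 : ℝ) ^ j * cm L.p (L.q (n + 1)) b ≤
        cE L.p (L.q n) (fun b => if L.wk (n + (j + 1)) b then (0 : ℝ) else 1) a *
          cm L.p (L.q n) a := by
      rw [cE_mul_cm L.p0]
      refine le_trans (mul_le_mul_of_nonneg_right h1 hcm) ?_
      rw [cE_mul_cm L.p0]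
      refine Finset.sum_le_sum_of_subset_of_nonneg hsub fun c _ _ => ?_
      refine mul_nonneg (L.p0 c).le ?_
      split_ifs
      · exact le_rfl
      · exact zero_le_one
    have h3 : (1 / 2 : ℝ) ^ (j + 1) * cm L.p (L.q n) a ≤
        cE L.p (L.q n) (fun b => if L.wk (n + (j + 1)) b then (0 : ℝ) else 1) a *
          cm L.p (L.q n) a := by
      refine le_trans ?_ h2
      rw [pow_succ]
      have h4 : (0 : ℝ) ≤ (1 / 2) ^ j := by positivity
      nlinarith
    exact le_of_mul_le_mul_right h3 hpos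

namespace Law

variable {X : Type} [Fintype X] (L : Law X)

/-- a strong class has a strong successor with conditional probability at least `2 ^ (-m)` -/
theorem pS_next {n : ℕ} (hn : n < L.nf) {a : X} (h : ¬ L.wk n a) :
    (1 / 2 : ℝ) ^ L.m ≤ L.pS (n + 1) n a := by
  classical
  by_cases hd : L.m ∣ n + 1
  · obtain ⟨h1, h2⟩ := L.sk_succ_dvd hd
    have h3 : L.sk n + L.m ≤ L.B.nf := by rw [h2]; exact hn
    have h4 := L.B.pS_ge L.m (L.sk n) h3 a h
    have h5 : L.sk n + L.m = L.sk (n + 1) := by omega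
    rw [h5] at h4
    exact h4
  · have h1 : L.pS (n + 1) n a = 1 := by
      rw [← L.pS_self h]
      unfold pS
      refine cE_congr_fun L.p (L.q n) fun b _ => ?_
      by_cases hb : L.wk n b
      · rw [if_pos hb, if_pos ((L.wk_succ_not hd b).2 hb)]
      · rw [if_neg hb, if_neg fun h2 => hb ((L.wk_succ_not hd b).1 h2)]
    rw [h1]
    exact pow_le_one₀ (by norm_num) (by norm_num)

end Law

end Pool.Agent.ANB
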