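import Pool.Agent.ANB.Site

/-! # ANB WEAK: the weak cells (S3), (S4), and the conditional mean of the next variance (child)

`wmass n i` = mass of the points in the cell `i` of level `n` which lie in a weak cell of some level in `[n, nf]`.
`wmass_le`: it is at most `th n / 2 ^ n` (induction from `nf` downwards: maximal weak cells are disjoint).
-/

set_option autoImplicit false

open Finset

noncomputable section

namespace Pool.Agent.ANB

namespace Law0

variable {X : Type} [Fintype X] (L : Law0 X)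

/-- some cell of a level in `[n, nf]` is weak -/
def wf (n : ℕ) (a : X) : Prop := ∃ l, n ≤ l ∧ l ≤ L.nf ∧ L.weak l a

open Classical in
/-- mass of the points of a cell with a weak cell of a level in `[n, nf]` -/
def wmass (n i : ℕ) : ℝ := ∑ b ∈ univ.filter (fun b => L.cell n b = i ∧ L.wf n b), L.p b

theorem cell_zero (a : X) : L.cell 0 a = 0 := by
  unfold cell
  rw [Nat.sub_zero]
  exact Nat.div_eq_of_lt (L.clt a)

theorem cmass_zero : L.cmass 0 0 = 1 := by
  unfold cmass
  rw [← L.p1]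
  congr 1
  rw [Finset.filter_eq_self]
  exact fun b _ => L.cell_zero b

theorem not_weak_zero (a : X) : ¬ L.weak 0 a := by
  unfold weak
  rw [L.cell_zero, L.cmass_zero, pow_zero, div_one]
  exact not_lt.2 L.th1.le

theorem not_wk_zero (a : X) : ¬ L.wk 0 a := by
  rintro ⟨l, hl, hw⟩
  rw [Nat.le_zero.1 hl] at hw
  exact L.not_weak_zero a hw

theorem wmass_nonneg (n i : ℕ) : 0 ≤ L.wmass n i :=
  Finset.sum_nonneg fun b _ => (L.p0 b).le

theorem wmass_le_cmass (n i : ℕ) : L.wmass n i ≤ L.cmass n i := by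
  classical
  unfold wmass cmass
  refine Finset.sum_le_sum_of_subset_of_nonneg ?_ fun b _ _ => (L.p0 b).le
  intro b hb
  rw [Finset.mem_filter] at hb ⊢
  exact ⟨hb.1, hb.2.1⟩

/-- splitting into the two children -/
theorem wmass_split {n : ℕ} (hn : n < L.nf) (i : ℕ)
    (h : ∀ b, L.cell n b = i → ¬ L.weak n b) :
    L.wmass n i ≤ L.wmass (n + 1) (2 * i) + L.wmass (n + 1) (2 * i + 1) := by
  classical
  unfold wmass
  have hdis : Disjoint (univ.filter (fun b => L.cell (n + 1) b = 2 * i ∧ L.wf (n + 1) b))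
      (univ.filter (fun b => L.cell (n + 1) b = 2 * i + 1 ∧ L.wf (n + 1) b)) := by
    rw [Finset.disjoint_left]
    intro b hb hb'
    rw [Finset.mem_filter] at hb hb'
    have := hb.2.1
    have := hb'.2.1
    omega
  rw [← Finset.sum_union hdis]
  refine Finset.sum_le_sum_of_subset_of_nonneg ?_ fun b _ _ => (L.p0 b).le
  intro b hb
  rw [Finset.mem_filter] at hb
  obtain ⟨-, hc, l, hl, hlf, hw⟩ := hb
  have hne : l ≠ n := by
    rintro rfl
    exact h b hc hw
  have hwf : L.wf (n + 1) b := ⟨l, by omega, hlf, hw⟩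
  rw [L.cell_div hn] at hc
  rw [Finset.mem_union, Finset.mem_filter, Finset.mem_filter]
  rcases Nat.even_or_odd' (L.cell (n + 1) b) with ⟨k, hk | hk⟩
  · left
    exact ⟨Finset.mem_univ _, by omega, hwf⟩
  · right
    exact ⟨Finset.mem_univ _, by omega, hwf⟩

theorem wmass_le (k : ℕ) : ∀ n, n + k = L.nf → ∀ i, L.wmass n i ≤ L.th n / 2 ^ n := by
  classical
  induction k with
  | zero =>
    intro n hn i
    have hn' : n = L.nf := by omega
    have hth : 0 ≤ L.th n / 2 ^ n := div_nonneg (L.ep0.le.trans (L.the n)) (by positivity)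
    by_cases h : ∃ b, L.cell n b = i ∧ L.weak n b
    · obtain ⟨b, hb, hw⟩ := h
      refine (L.wmass_le_cmass n i).trans ?_
      rw [← hb]
      exact hw.le
    · have h0 : L.wmass n i = 0 := by
        unfold wmass
        rw [Finset.filter_eq_empty_iff.2, Finset.sum_empty]
        rintro b - ⟨hc, l, hl, hlf, hw⟩
        have : l = n := by omega
        rw [this] at hw
        exact h ⟨b, hc, hw⟩
      rw [h0]
      exact hth
  | succ k ih =>
    intro n hn i
    by_cases h : ∃ b, L.cell n b = i ∧ L.weak n b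
    · obtain ⟨b, hb, hw⟩ := h
      refine (L.wmass_le_cmass n i).trans ?_
      rw [← hb]
      exact hw.le
    · have h' : ∀ b, L.cell n b = i → ¬ L.weak n b := fun b hb hw => h ⟨b, hb, hw⟩
      refine (L.wmass_split (by omega) i h').trans ?_
      have h1 := ih (n + 1) (by omega) (2 * i)
      have h2 := ih (n + 1) (by omega) (2 * i + 1)
      have h3 : L.th (n + 1) / 2 ^ (n + 1) + L.th (n + 1) / 2 ^ (n + 1) = L.th (n + 1) / 2 ^ n := by
        rw [pow_succ]
        field_simp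
        ring
      have h4 : L.th (n + 1) / 2 ^ n ≤ L.th n / 2 ^ n :=
        div_le_div_of_nonneg_right (L.anti (Nat.le_succ n)) (by positivity)
      linarith

/-- mass of the points below a strong cell with a later weak cell -/
theorem wf_succ_mass {n : ℕ} (hn : n < L.nf) (i : ℕ) (h : ∀ b, L.cell n b = i → ¬ L.weak n b) :
    L.wmass n i ≤ L.th (n + 1) / 2 ^ n := by
  refine (L.wmass_split hn i h).trans ?_
  have h1 := L.wmass_le (L.nf - (n + 1)) (n + 1) (by omega) (2 * i)
  have h2 := L.wmass_le (L.nf - (n + 1)) (n + 1) (by omega) (2 * i + 1)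
  have h3 : L.th (n + 1) / 2 ^ (n + 1) + L.th (n + 1) / 2 ^ (n + 1) = L.th (n + 1) / 2 ^ n := by
    rw [pow_succ]
    field_simp
    ring
  linarith

/-- (S3): the mass of the points which are weak at some level is at most `th 0` -/
theorem weak_mass : ∑ b, (open Classical in if L.ew b then L.p b else 0) ≤ L.th 0 := by
  classical
  have h1 := L.wmass_le L.nf 0 (by omega) 0
  rw [pow_zero, div_one] at h1
  refine le_trans (le_of_eq ?_) h1
  unfold wmass
  rw [← Finset.sum_filter]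
  congr 1
  ext b
  rw [Finset.mem_filter, Finset.mem_filter]
  constructor
  · rintro ⟨h2, l, hl, hw⟩
    exact ⟨h2, L.cell_zero b, l, Nat.zero_le l, hl, hw⟩
  · rintro ⟨h2, -, l, -, hl, hw⟩
    exact ⟨h2, l, hl, hw⟩

theorem ew_of_wk {n : ℕ} (hn : n ≤ L.nf) {a : X} (h : L.wk n a) : L.ew a := L.wk_mono hn h

theorem om_nonneg (n : ℕ) (a : X) : 0 ≤ L.om n a := by
  classical
  unfold om
  refine cE_nonneg L.p0 _ fun b _ => ?_
  split_ifs <;> norm_num

theorem om_le_one (n : ℕ) (a : X) : L.om n a ≤ 1 := by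
  classical
  unfold om
  refine cE_le L.p0 _ fun b _ => ?_
  split_ifs <;> norm_num

/-- inert sites have `om = 0` -/
theorem om_wk {n : ℕ} (hn : n ≤ L.nf) {a : X} (h : L.wk n a) : L.om n a = 0 := by
  classical
  refine le_antisymm ?_ (L.om_nonneg n a)
  unfold om
  refine cE_le L.p0 _ fun b hb => ?_
  rw [L.cl_wk h, Finset.mem_singleton] at hb
  rw [hb, if_pos (L.ew_of_wk hn h)]

/-- `om` is a martingale -/
theorem om_tower {m n : ℕ} (hmn : m ≤ n) (a : X) :
    cE L.p (L.q m) (L.om n) a = L.om m a :=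
  cE_tower L.p0 (L.fine_le hmn) _ a

/-- (S4) -/
theorem om_ge {n : ℕ} (hn : n < L.nf) {a : X} (h : ¬ L.wk n a) :
    1 - L.th (n + 1) / L.th n ≤ L.om n a := by
  classical
  have hth : 0 < L.th n := lt_of_lt_of_le L.ep0 (L.the n)
  have hm0 := cm_pos L.p0 (L.q n) a
  have hmass := L.mass_ge h
  have h1 : L.om n a * cm L.p (L.q n) a =
      cm L.p (L.q n) a - ∑ b ∈ (cl (L.q n) a).filter (fun b => L.ew b), L.p b := by
    unfold om
    rw [cE_mul_cm L.p0]
    unfold cm
    rw [Finset.sum_filter, ← Finset.sum_sub_distrib]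
    refine Finset.sum_congr rfl fun b _ => ?_
    split_ifs <;> ring
  have hnw : ∀ b, L.cell n b = L.cell n a → ¬ L.wk n b := fun b hb hw =>
    h ((L.wk_congr hb).1 hw)
  have h2 : ∑ b ∈ (cl (L.q n) a).filter (fun b => L.ew b), L.p b ≤ L.th (n + 1) / 2 ^ n := by
    refine le_trans ?_ (L.wf_succ_mass hn (L.cell n a) fun b hb hw =>
      hnw b hb ⟨n, le_rfl, hw⟩)
    unfold wmass
    refine Finset.sum_le_sum_of_subset_of_nonneg ?_ fun b _ _ => (L.p0 b).le
    intro b hb
    rw [Finset.mem_filter] at hb ⊢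
    obtain ⟨hb1, l, hl, hw⟩ := hb
    have hc := L.mem_cl_cell hb1
    refine ⟨Finset.mem_univ _, hc, l, ?_, hl, hw⟩
    by_contra h3
    exact hnw b hc ⟨l, by omega, hw⟩
  have h3 : L.th (n + 1) / 2 ^ n ≤ L.th (n + 1) / L.th n * cm L.p (L.q n) a := by
    have h4 : 0 ≤ L.th (n + 1) / L.th n :=
      div_nonneg (L.ep0.le.trans (L.the _)) hth.le
    calc L.th (n + 1) / 2 ^ n = L.th (n + 1) / L.th n * (L.th n / 2 ^ n) := by
          field_simp
      _ ≤ _ := mul_le_mul_of_nonneg_left hmass h4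
  have h5 : (1 - L.th (n + 1) / L.th n) * cm L.p (L.q n) a ≤ L.om n a * cm L.p (L.q n) a := by
    rw [h1, sub_mul, one_mul]
    linarith
  exact le_of_mul_le_mul_right h5 hm0

/-- the heavier child of a strong cell -/
theorem heavy {n : ℕ} (hn : n < L.nf) {a : X} (h : ¬ L.wk n a) :
    ∃ b ∈ cl (L.q n) a, ¬ L.wk (n + 1) b ∧
      cm L.p (L.q n) a / 2 ≤ cm L.p (L.q (n + 1)) b := by
  classical
  set i := L.cell n a with hi
  have hcl := L.cl_strong h
  have hpos := cm_pos L.p0 (L.q n) a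
  have hnw : ∀ b, L.cell n b = i → ¬ L.wk n b := fun b hb hw => h ((L.wk_congr hb).1 hw)
  have hsum : cm L.p (L.q n) a = L.cmass (n + 1) (2 * i) + L.cmass (n + 1) (2 * i + 1) := by
    rw [L.cm_strong h]
    unfold cmass
    have hdis : Disjoint (univ.filter (fun b => L.cell (n + 1) b = 2 * i))
        (univ.filter (fun b => L.cell (n + 1) b = 2 * i + 1)) := by
      rw [Finset.disjoint_left]
      intro b hb hb'
      rw [Finset.mem_filter] at hb hb'
      have := hb.2
      have := hb'.2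
      omega
    rw [← Finset.sum_union hdis]
    congr 1
    ext b
    rw [Finset.mem_union, Finset.mem_filter, Finset.mem_filter, Finset.mem_filter,
      L.cell_div hn b]
    constructor
    · rintro ⟨-, h1⟩
      rcases Nat.even_or_odd' (L.cell (n + 1) b) with ⟨k, hk | hk⟩
      · left
        exact ⟨Finset.mem_univ _, by omega⟩
      · right
        exact ⟨Finset.mem_univ _, by omega⟩
    · rintro (⟨-, h1⟩ | ⟨-, h1⟩)
      · exact ⟨Finset.mem_univ _, by omega⟩
      · exact ⟨Finset.mem_univ _, by omega⟩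
  have key : ∀ j, (j = 2 * i ∨ j = 2 * i + 1) → cm L.p (L.q n) a / 2 ≤ L.cmass (n + 1) j →
      ∃ b ∈ cl (L.q n) a, ¬ L.wk (n + 1) b ∧
        cm L.p (L.q n) a / 2 ≤ cm L.p (L.q (n + 1)) b := by
    intro j hj hm
    have hne : (univ.filter (fun b => L.cell (n + 1) b = j)).Nonempty := by
      by_contra h1
      rw [Finset.not_nonempty_iff_eq_empty] at h1
      unfold cmass at hm
      rw [h1, Finset.sum_empty] at hm
      linarith
    obtain ⟨b, hb⟩ := hne
    have hbj : L.cell (n + 1) b = j := (Finset.mem_filter.1 hb).2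
    have hbi : L.cell n b = i := by
      rw [L.cell_div hn b]
      omega
    have hw : ¬ L.wk (n + 1) b := by
      rintro ⟨l, hl, hw⟩
      rcases Nat.lt_or_ge l (n + 1) with h2 | h2
      · exact hnw b hbi ⟨l, by omega, hw⟩
      · have h3 : l = n + 1 := by omega
        rw [h3] at hw
        unfold weak at hw
        rw [hbj] at hw
        have h4 := L.mass_ge h
        have h5 : L.th (n + 1) / 2 ^ (n + 1) ≤ (L.th n / 2 ^ n) / 2 := by
          rw [pow_succ, ← div_div]
          refine div_le_div_of_nonneg_right ?_ (by norm_num)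
          exact div_le_div_of_nonneg_right (L.anti (Nat.le_succ n)) (by positivity)
        linarith
    refine ⟨b, ?_, hw, ?_⟩
    · rw [hcl, Finset.mem_filter]
      exact ⟨Finset.mem_univ _, hbi⟩
    · rw [L.cm_strong hw, hbj]
      exact hm
  rcases le_total (L.cmass (n + 1) (2 * i)) (L.cmass (n + 1) (2 * i + 1)) with h1 | h1
  · exact key _ (Or.inr rfl) (by linarith)
  · exact key _ (Or.inl rfl) (by linarith)

/-- (S2): a fixed part of the variance survives every digit -/
theorem child {n : ℕ} (hn : n < L.nf) {a : X} (h : ¬ L.wk n a)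
    (hs : 8 * L.D * 2 ^ (n + 1) ≤ L.ep * 2 ^ L.nf) :
    (L.ep / (48 * L.D)) ^ 2 * L.kp n a ≤ cE L.p (L.q n) (L.kp (n + 1)) a := by
  classical
  have hS := L.S0
  have hD := L.D0
  have hep := L.ep0
  obtain ⟨b, hb, hw, hm⟩ := L.heavy hn h
  have hpos := cm_pos L.p0 (L.q n) a
  have hlow := L.kp_low hw hs
  have hup := L.kp_up n a
  -- the class of `b` contributes
  have hsub : cl (L.q (n + 1)) b ⊆ cl (L.q n) a := by
    intro c hc
    exact mem_cl.2 ((L.fine n c b (mem_cl.1 hc)).trans (mem_cl.1 hb))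
  have h1 : L.kp (n + 1) b * cm L.p (L.q (n + 1)) b ≤
      cE L.p (L.q n) (L.kp (n + 1)) a * cm L.p (L.q n) a := by
    rw [cE_mul_cm L.p0]
    calc L.kp (n + 1) b * cm L.p (L.q (n + 1)) b =
        ∑ c ∈ cl (L.q (n + 1)) b, L.p c * L.kp (n + 1) c := by
          unfold cm
          rw [Finset.mul_sum]
          refine Finset.sum_congr rfl fun c hc => ?_
          have : L.kp (n + 1) c = L.kp (n + 1) b := cV_congr L.p L.V (mem_cl.1 hc)
          rw [this, mul_comm]
      _ ≤ _ := Finset.sum_le_sum_of_subset_of_nonneg hsub fun c _ _ =>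
          mul_nonneg (L.p0 c).le (L.kp_nonneg _ _)
  have hk0 := L.kp_nonneg (n + 1) b
  have h2 : L.kp (n + 1) b * (cm L.p (L.q n) a / 2) ≤
      cE L.p (L.q n) (L.kp (n + 1)) a * cm L.p (L.q n) a :=
    (mul_le_mul_of_nonneg_left hm hk0).trans h1
  have h3 : L.kp (n + 1) b / 2 ≤ cE L.p (L.q n) (L.kp (n + 1)) a := by
    have : L.kp (n + 1) b / 2 * cm L.p (L.q n) a ≤
      cE L.p (L.q n) (L.kp (n + 1)) a * cm L.p (L.q n) a := by linarith
    exact le_of_mul_le_mul_right this hpos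
  refine le_trans ?_ h3
  have h4 : (L.ep / (48 * L.D)) ^ 2 * (2 * L.S / 2 ^ n) ^ 2 ≤
      (L.ep * L.S / (6 * L.D)) ^ 2 / 4 ^ (n + 1) / 2 := by
    have h12 : (4 : ℝ) ^ (n + 1) = 4 * (2 ^ n) ^ 2 := by
      rw [pow_succ, mul_comm]
      congr 1
      rw [← pow_mul, mul_comm n 2, pow_mul]; norm_num
    rw [h12]
    have h13 : (L.ep / (48 * L.D)) ^ 2 * (2 * L.S / 2 ^ n) ^ 2 =
        (L.ep * L.S / L.D) ^ 2 / (2 ^ n) ^ 2 * (1 / 576) := by
      field_simp
      norm_num
    have h14 : (L.ep * L.S / (6 * L.D)) ^ 2 / (4 * (2 ^ n) ^ 2) / 2 =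
        (L.ep * L.S / L.D) ^ 2 / (2 ^ n) ^ 2 * (1 / 288) := by
      field_simp
      norm_num
    rw [h13, h14]
    exact mul_le_mul_of_nonneg_left (by norm_num) (by positivity)
  calc (L.ep / (48 * L.D)) ^ 2 * L.kp n a ≤
      (L.ep / (48 * L.D)) ^ 2 * (2 * L.S / 2 ^ n) ^ 2 :=
        mul_le_mul_of_nonneg_left hup (sq_nonneg _)
    _ ≤ (L.ep * L.S / (6 * L.D)) ^ 2 / 4 ^ (n + 1) / 2 := h4
    _ ≤ L.kp (n + 1) b / 2 := by linarith

/-- the mean square of the increment is at most `(1 - δ) κ` -/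
theorem incr_sq_le {n : ℕ} (hn : n < L.nf) (a : X)
    (hs : 8 * L.D * 2 ^ (n + 1) ≤ L.ep * 2 ^ L.nf) :
    cE L.p (L.q n) (fun b => (L.h (n + 1) b - L.h n a) ^ 2) a ≤
      (1 - (L.ep / (48 * L.D)) ^ 2) * L.kp n a := by
  rw [L.var_incr (Nat.le_succ n), cE_sub, cE_const L.p0]
  by_cases h : L.wk n a
  · rw [L.kp_zero h]
    have : 0 ≤ cE L.p (L.q n) (fun b => L.kp (n + 1) b) a :=
      cE_nonneg L.p0 _ fun b _ => L.kp_nonneg _ _
    linarith
  · have h1 := L.child hn h hs
    have h2 : cE L.p (L.q n) (L.kp (n + 1)) a = cE L.p (L.q n) (fun b => L.kp (n + 1) b) a := rfl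
    rw [h2] at h1
    linarith

/-! ### the weights `phi K n a = E[kp K | level n]` -/

/-- `phi K n a` -/
def phi (K n : ℕ) (a : X) : ℝ := cE L.p (L.q n) (L.kp K) a

theorem phi_nonneg (K n : ℕ) (a : X) : 0 ≤ L.phi K n a :=
  cE_nonneg L.p0 _ fun _ _ => L.kp_nonneg _ _

theorem phi_tower (K : ℕ) {m n : ℕ} (hmn : m ≤ n) (a : X) :
    cE L.p (L.q m) (L.phi K n) a = L.phi K m a :=
  cE_tower L.p0 (L.fine_le hmn) _ a

theorem phi_le (K n : ℕ) (a : X) : L.phi K n a ≤ (2 * L.S / 2 ^ K) ^ 2 :=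
  cE_le L.p0 _ fun b _ => L.kp_up K b

theorem phi_le_kp {K n : ℕ} (h : n ≤ K) (a : X) : L.phi K n a ≤ L.kp n a := L.kp_super h a

theorem phi_self (n : ℕ) (a : X) : L.phi n n a = L.kp n a := by
  have h1 : cE L.p (L.q n) (L.kp n) a = cE L.p (L.q n) (fun _ => L.kp n a) a :=
    cE_congr_fun L.p (L.q n) fun b hb => cV_congr L.p L.V (mem_cl.1 hb)
  unfold phi
  rw [h1, cE_const L.p0]

/-- at inert sites -/
theorem phi_wk {K n : ℕ} (hnK : n ≤ K) {a : X} (h : L.wk n a) : L.phi K n a = 0 := by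
  have h1 := L.phi_le_kp hnK a
  rw [L.kp_zero h] at h1
  exact le_antisymm h1 (L.phi_nonneg K n a)

theorem phi_ge {n : ℕ} (hn : n < L.nf) {a : X}
    (hs : 8 * L.D * 2 ^ (n + 1) ≤ L.ep * 2 ^ L.nf) :
    (L.ep / (48 * L.D)) ^ 2 * L.kp n a ≤ L.phi (n + 1) n a := by
  by_cases h : L.wk n a
  · rw [L.kp_zero h, mul_zero]
    exact L.phi_nonneg _ _ _
  · exact L.child hn h hs

end Law0

end Pool.Agent.ANB
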